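import Pool.Agent.Lib.MP_bee098_nt.Weight

/-! A mean value bound for prime sums twisted by a family of multiplicative functions. -/

open Finset ArithmeticFunction
open scoped ArithmeticFunction.Moebius ArithmeticFunction.zeta

namespace Pool.Agent.Lib.MP_bee098_nt

theorem abel_mono {χ : ℕ → ℂ} {D : ℝ} (hD : ∀ a b, ‖∑ n ∈ Ico a b, χ n‖ ≤ D) {f : ℕ → ℝ}
    (hf : Monotone f) (h0 : ∀ n, 0 ≤ f n) (a b : ℕ) :
    ‖∑ n ∈ Ico a b, (f n : ℂ) * χ n‖ ≤ D * f b := by
  have hD0 : 0 ≤ D := (norm_nonneg _).trans (hD 0 0)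
  have key : ∀ k a, a + k = b → ‖∑ n ∈ Ico a b, ((f n : ℂ) - f a) * χ n‖ ≤ D * (f b - f a) := by
    intro k
    induction k with
    | zero => intro a h; subst h; simp
    | succ k ih =>
      intro a h
      rw [Finset.sum_eq_sum_Ico_succ_bot (by omega : a < b), sub_self, zero_mul, zero_add]
      have e : ∑ n ∈ Ico (a + 1) b, ((f n : ℂ) - f a) * χ n =
          ∑ n ∈ Ico (a + 1) b, ((f n : ℂ) - f (a + 1)) * χ n
            + ((f (a + 1) - f a : ℝ) : ℂ) * ∑ n ∈ Ico (a + 1) b, χ n := by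
        rw [Finset.mul_sum, ← Finset.sum_add_distrib]
        refine Finset.sum_congr rfl fun n _ => ?_
        push_cast; ring
      have h1 : 0 ≤ f (a + 1) - f a := sub_nonneg.2 (hf (by omega))
      rw [e]
      refine (norm_add_le _ _).trans ?_
      rw [norm_mul, Complex.norm_real, Real.norm_of_nonneg h1]
      have := ih (a + 1) (by omega)
      have := mul_le_mul_of_nonneg_left (hD (a + 1) b) h1
      linarith
  rcases le_total a b with h | h
  · obtain ⟨k, hk⟩ := Nat.exists_eq_add_of_le h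
    have e : ∑ n ∈ Ico a b, (f n : ℂ) * χ n =
        ∑ n ∈ Ico a b, ((f n : ℂ) - f a) * χ n + (f a : ℂ) * ∑ n ∈ Ico a b, χ n := by
      rw [Finset.mul_sum, ← Finset.sum_add_distrib]
      refine Finset.sum_congr rfl fun n _ => ?_
      ring
    rw [e]
    refine (norm_add_le _ _).trans ?_
    rw [norm_mul, Complex.norm_real, Real.norm_of_nonneg (h0 a)]
    have := key k a hk.symm
    have := mul_le_mul_of_nonneg_left (hD a b) (h0 a)
    linarith
  · rw [Finset.Ico_eq_empty_of_le h]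
    simpa using mul_nonneg hD0 (h0 b)

theorem piece_mono {χ : ℕ → ℂ} {D : ℝ} (hD : ∀ a b, ‖∑ n ∈ Ico a b, χ n‖ ≤ D) {f : ℕ → ℝ}
    (hf : Monotone f) (h0 : ∀ n, 0 ≤ f n) (Y : ℕ) (y : ℝ) :
    ‖piece Y (fun n => (f n : ℂ) * χ n) y‖ ≤ D * f (Y + 1) := by
  have hD0 : 0 ≤ D := (norm_nonneg _).trans (hD 0 0)
  have e : (Ioc 0 Y).filter (· ∈ Ico ⌈y⌉₊ (⌊4 * y⌋₊ + 1)) =
      Ico (max 1 ⌈y⌉₊) (min (Y + 1) (⌊4 * y⌋₊ + 1)) := by
    ext m; simp only [mem_filter, mem_Ioc, mem_Ico]; omega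
  unfold piece
  rw [e]
  exact (abel_mono hD hf h0 _ _).trans (mul_le_mul_of_nonneg_left (hf (min_le_left _ _)) hD0)

theorem piece_short {a : ℕ → ℂ} {M : ℝ} (hM : 0 ≤ M) {U : ℕ} (Y : ℕ)
    (h1 : ∀ m ≤ Y, ‖a m‖ ≤ M) (h2 : ∀ m, a m ≠ 0 → m ≤ U) (y : ℝ) : ‖piece Y a y‖ ≤ U * M := by
  unfold piece
  refine (norm_sum_le _ _).trans ?_
  rw [← Finset.sum_filter_ne_zero]
  refine (Finset.sum_le_card_nsmul _ _ M fun m hm => ?_).trans ?_
  · simp only [mem_filter, mem_Ioc] at hm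
    exact h1 m hm.1.1.2
  · rw [nsmul_eq_mul]
    gcongr
    refine (Finset.card_le_card (t := Ioc 0 U) fun m hm => ?_).trans (by simp)
    simp only [mem_filter, mem_Ioc] at hm ⊢
    exact ⟨hm.1.1.1, h2 m (by simpa using hm.2)⟩

theorem piece_sq {Φ : Type} (F : Finset Φ) (χ : Φ → ℕ → ℂ) {D : ℝ} (hD : 0 ≤ D)
    (hχ : ∀ x ∈ F, ∀ n, ‖χ x n‖ ≤ 1)
    (hoff : ∀ x ∈ F, ∀ x' ∈ F, x ≠ x' → ∀ a b,
      ‖∑ n ∈ Ico a b, χ x n * (starRingEnd ℂ) (χ x' n)‖ ≤ D)
    {a : ℕ → ℂ} {M : ℝ} (_hM : 0 ≤ M) {U : ℕ} (hU : 4 ≤ U) (hDU : D * F.card ≤ U) (Y : ℕ)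
    (h1 : ∀ m ≤ Y, ‖a m‖ ≤ M) (h2 : ∀ m, a m ≠ 0 → U < m) {y : ℝ} (hy : 0 < y) :
    ∑ x ∈ F, ‖piece Y (fun n => a n * χ x n) y‖ ^ 2 ≤ 32 * (y * M) ^ 2 := by
  classical
  set I := Ico ⌈y⌉₊ (⌊4 * y⌋₊ + 1) with hI
  have e : ∀ x, piece Y (fun n => a n * χ x n) y =
      ∑ n ∈ I, (if n ∈ Ioc 0 Y then a n else 0) * χ x n := by
    intro x
    unfold piece
    rw [Finset.filter_mem_eq_inter, Finset.inter_comm, ← Finset.filter_mem_eq_inter,
      Finset.sum_filter]
    refine Finset.sum_congr rfl fun n _ => ?_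
    split_ifs <;> simp
  simp only [e]
  rcases le_or_gt (4 * y) U with h | h
  · have : ∀ n ∈ I, a n = 0 := by
      intro n hn
      by_contra h0
      have h3 := h2 n h0
      have h4 : n ≤ ⌊4 * y⌋₊ := Nat.lt_succ_iff.1 (mem_Ico.1 hn).2
      have h5 : ⌊4 * y⌋₊ ≤ U := Nat.floor_le_of_le h
      omega
    rw [Finset.sum_eq_zero]
    · positivity
    · intro x _
      rw [Finset.sum_eq_zero fun n hn => by simp [this n hn]]
      simp
  · have hU' : (4 : ℝ) ≤ U := by exact_mod_cast hU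
    have hc : (I.card : ℝ) ≤ 4 * y := by
      have h3 : 1 ≤ ⌈y⌉₊ := Nat.ceil_pos.2 hy
      have h4 : I.card ≤ ⌊4 * y⌋₊ := by rw [hI, Nat.card_Ico]; omega
      exact (Nat.cast_le.2 h4).trans (Nat.floor_le (by positivity))
    have := dual_sieve F I χ (fun _ => 1) (fun n => if n ∈ Ioc 0 Y then a n else 0)
      (B := 4 * y) hD (by simp) (by simp) hχ (by simpa using hc)
      (fun x hx x' hx' hne => by simpa using hoff x hx x' hx' hne _ _)
    refine this.trans ?_
    have h5 : ∑ n ∈ I, ‖if n ∈ Ioc 0 Y then a n else 0‖ ^ 2 ≤ 4 * y * M ^ 2 := by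
      refine (Finset.sum_le_card_nsmul _ _ (M ^ 2) fun m _ => ?_).trans ?_
      · split_ifs with h3
        · exact pow_le_pow_left₀ (norm_nonneg _) (h1 m (mem_Ioc.1 h3).2) 2
        · simp; positivity
      · rw [nsmul_eq_mul]; gcongr
    calc _ ≤ (4 * y + 4 * y) * (4 * y * M ^ 2) :=
          mul_le_mul (by linarith) h5 (Finset.sum_nonneg fun _ _ => by positivity) (by positivity)
      _ = _ := by ring

theorem sum_conv {X : ℝ} (hX : 1 < X) {Y : ℕ} (hY : 16 * X ≤ Y) (f g : ArithmeticFunction ℝ)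
    {χ : ℕ → ℂ} (hχ : ∀ m n, χ (m * n) = χ m * χ n) :
    ∑ N ∈ Ioc 0 Y, ((f * g) N : ℂ) * χ N * wt X N =
      ∑ m ∈ Ioc 0 Y, ∑ n ∈ Ioc 0 Y, (f m * χ m) * (g n * χ n) * wt X (m * n) := by
  have e1 : ∀ N ∈ Ioc 0 Y, ((f * g) N : ℂ) * χ N * wt X N = ∑ x ∈ Ioc 0 Y ×ˢ Ioc 0 Y,
      if x.1 * x.2 = N then (f x.1 * χ x.1) * (g x.2 * χ x.2) * wt X (x.1 * x.2) else 0 := by
    intro N hN
    rw [mul_apply, Nat.divisorsAntidiagonal_eq_prod_filter_of_le (mem_Ioc.1 hN).1.ne'
      (mem_Ioc.1 hN).2, ← Finset.sum_filter]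
    push_cast
    rw [Finset.sum_mul, Finset.sum_mul]
    refine Finset.sum_congr rfl fun x hx => ?_
    rw [← (mem_filter.1 hx).2, hχ]
    ring
  rw [Finset.sum_congr rfl e1, Finset.sum_comm, ← Finset.sum_product' (Ioc 0 Y) (Ioc 0 Y)
    (fun m n => (f m * χ m) * (g n * χ n) * (wt X (m * n) : ℂ))]
  refine Finset.sum_congr rfl fun x hx => ?_
  rw [Finset.sum_ite_eq]
  split_ifs with h
  · rfl
  · have : wt X (x.1 * x.2) = 0 := by
      by_contra h0
      have h1 := (wt_support hX h0).2.trans hY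
      simp only [mem_product, mem_Ioc] at hx
      exact h (mem_Ioc.2 ⟨Nat.mul_pos hx.1.1 hx.2.1, by exact_mod_cast h1⟩)
    simp [this]

/-- Truncation of an arithmetic function to `n ≤ U`. -/
noncomputable def low (U : ℕ) (f : ArithmeticFunction ℝ) : ArithmeticFunction ℝ :=
  ⟨fun n => if n ≤ U then f n else 0, by simp⟩

theorem low_apply (U : ℕ) (f : ArithmeticFunction ℝ) (n : ℕ) :
    low U f n = if n ≤ U then f n else 0 := rfl

theorem af_sub (f g : ArithmeticFunction ℝ) (n : ℕ) : (f - g) n = f n - g n := by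
  rw [sub_eq_add_neg, ArithmeticFunction.add_apply, ArithmeticFunction.neg_apply, sub_eq_add_neg]

theorem vaughan (U : ℕ) : Λ = low U Λ + low U (μ : ArithmeticFunction ℝ) * log
    - (low U (μ : ArithmeticFunction ℝ) * low U Λ) * (ζ : ArithmeticFunction ℝ)
    + ((μ : ArithmeticFunction ℝ) - low U μ) * ((Λ - low U Λ) * (ζ : ArithmeticFunction ℝ)) := by
  have h1 : (μ : ArithmeticFunction ℝ) * (ζ : ArithmeticFunction ℝ) = 1 := coe_moebius_mul_coe_zeta
  rw [← vonMangoldt_mul_zeta]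
  linear_combination (low U Λ - Λ) * h1

theorem abs_moebius_real (n : ℕ) : |(μ : ArithmeticFunction ℝ) n| ≤ 1 := by
  rw [intCoe_apply]
  exact_mod_cast abs_moebius_le_one

theorem log_nat_mono : Monotone fun n : ℕ => Real.log n := fun m n h => by
  rcases Nat.eq_zero_or_pos m with rfl | hm
  · simpa using Real.log_natCast_nonneg n
  · exact Real.log_le_log (by exact_mod_cast hm) (by exact_mod_cast h)

theorem mean_value {Φ : Type} (F : Finset Φ) (χ : Φ → ℕ → ℂ) {D : ℝ} (hD : 0 ≤ D)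
    (hmul : ∀ x ∈ F, ∀ m n, χ x (m * n) = χ x m * χ x n)
    (hχ : ∀ x ∈ F, ∀ n, ‖χ x n‖ ≤ 1)
    (h1 : ∀ x ∈ F, ∀ a b, ‖∑ n ∈ Ico a b, χ x n‖ ≤ D)
    (hoff : ∀ x ∈ F, ∀ x' ∈ F, x ≠ x' → ∀ a b,
      ‖∑ n ∈ Ico a b, χ x n * (starRingEnd ℂ) (χ x' n)‖ ≤ D)
    {U : ℕ} (hU : 4 ≤ U) (hDU : D * F.card ≤ U) {X : ℝ} (hX : U < X) {Y : ℕ} (hY : 16 * X ≤ Y) :
    ∑ x ∈ F, ‖∑ N ∈ Ioc 0 Y, (Λ N : ℂ) * χ x N * wt X N‖
      ≤ (32 * X + 2 * U ^ 3) * Real.log (Y + 1) * (Real.log Y + Real.log 4) := by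
  have hU' : (4 : ℝ) ≤ U := by exact_mod_cast hU
  have hX1 : 1 < X := by linarith
  have hX0 : 0 < X := by linarith
  set l := Real.log (Y + 1) with hl
  have hl' : ∀ m ≤ Y, Real.log m ≤ l := fun m hm => by
    have := log_nat_mono (show m ≤ Y + 1 by omega)
    simpa using this
  have hl0 : 0 ≤ l := by simpa using hl' 0 (Nat.zero_le _)
  set μ1 := low U (μ : ArithmeticFunction ℝ)
  set Λ1 := low U Λ
  have hμ1 : ∀ n, |μ1 n| ≤ 1 := fun n => by
    rw [low_apply]; split_ifs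
    · exact abs_moebius_real n
    · simp
  have hΛ1 : ∀ n, 0 ≤ Λ1 n ∧ Λ1 n ≤ Λ n := fun n => by
    rw [low_apply]; split_ifs
    · exact ⟨vonMangoldt_nonneg, le_rfl⟩
    · exact ⟨le_rfl, vonMangoldt_nonneg⟩
  have nb : ∀ x ∈ F, ∀ (t : ℝ) (n : ℕ), ‖(t : ℂ) * χ x n‖ ≤ |t| := fun x hx t n => by
    rw [norm_mul, Complex.norm_real]
    exact mul_le_of_le_one_right (norm_nonneg _) (hχ x hx n)
  have t1 := bilinear_bound F hX0 (Y := Y) (fun x m => μ1 m * χ x m) (fun x n => log n * χ x n)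
    (C := U ^ 3 * l) (fun y _ => by
      refine (Finset.sum_le_card_nsmul _ _ ((U * 1) * (D * l)) fun x hx => ?_).trans ?_
      · refine mul_le_mul (piece_short zero_le_one Y (fun m _ => (nb x hx _ m).trans (hμ1 m))
          (fun m hm => ?_) y) ?_ (norm_nonneg _) (by positivity)
        · by_contra h; apply hm; simp [μ1, low_apply, h]
        · simpa using piece_mono (h1 x hx) log_nat_mono Real.log_natCast_nonneg Y (X / y)
      · rw [nsmul_eq_mul]
        calc _ = (D * F.card) * U * 1 * l := by ring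
          _ ≤ U * U * U * l := by gcongr; linarith
          _ = _ := by ring)
  have t2 := bilinear_bound F hX0 (Y := Y) (fun x m => (μ1 * Λ1) m * χ x m)
    (fun x n => (ζ : ArithmeticFunction ℝ) n * χ x n) (C := U ^ 3 * l) (fun y _ => by
      refine (Finset.sum_le_card_nsmul _ _ (((U * U : ℕ) * l) * (D * 1)) fun x hx => ?_).trans ?_
      · refine mul_le_mul (piece_short hl0 Y (fun m hm => (nb x hx _ m).trans ?_)
          (fun m hm => ?_) y) ?_ (norm_nonneg _) (by positivity)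
        · rw [mul_comm μ1, mul_apply]
          refine (Finset.abs_sum_le_sum_abs _ _).trans (le_trans ?_ (hl' m hm))
          rw [← vonMangoldt_sum, ← Nat.sum_divisorsAntidiagonal (fun a _ => Λ a)]
          refine Finset.sum_le_sum fun z _ => ?_
          rw [abs_mul, abs_of_nonneg (hΛ1 _).1]
          exact (mul_le_of_le_one_right (hΛ1 _).1 (hμ1 _)).trans (hΛ1 _).2
        · have h3 : (μ1 * Λ1) m ≠ 0 := fun h => hm (by simp [h])
          rw [mul_apply] at h3
          obtain ⟨z, hz, h4⟩ := Finset.exists_ne_zero_of_sum_ne_zero h3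
          rw [← (Nat.mem_divisorsAntidiagonal.1 hz).1]
          refine Nat.mul_le_mul ?_ ?_
          · by_contra h; apply h4; simp [μ1, low_apply, h]
          · by_contra h; apply h4; simp [Λ1, low_apply, h]
        · have := piece_mono (h1 x hx) (f := fun n => (ζ : ArithmeticFunction ℝ) n)
            (fun m n hmn => by
              simp only [natCoe_apply, zeta_apply]
              split_ifs <;> simp; omega)
            (fun n => by simp only [natCoe_apply]; positivity) Y (X / y)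
          simpa using this
      · rw [nsmul_eq_mul]
        push_cast
        calc _ = (D * F.card) * U * U * l := by ring
          _ ≤ U * U * U * l := by gcongr
          _ = _ := by ring)
  have t3 := bilinear_bound F hX0 (Y := Y)
    (fun x m => ((μ : ArithmeticFunction ℝ) - μ1) m * χ x m)
    (fun x n => ((Λ - Λ1) * (ζ : ArithmeticFunction ℝ)) n * χ x n) (C := 32 * X * l)
    (fun y hy => by
      have p1 := piece_sq F χ hD hχ hoff (a := fun m => ((μ : ArithmeticFunction ℝ) - μ1) m)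
        zero_le_one hU hDU Y (fun m _ => by
          rw [Complex.norm_real, af_sub, low_apply]
          split_ifs
          · simp
          · simpa using abs_moebius_real m)
        (fun m hm => by
          by_contra h; apply hm; simp [μ1, af_sub, low_apply, not_lt.1 h]) hy
      have p2 := piece_sq F χ hD hχ hoff
        (a := fun n => ((Λ - Λ1) * (ζ : ArithmeticFunction ℝ)) n) hl0 hU hDU Y (fun m hm => by
          rw [Complex.norm_real, coe_mul_zeta_apply, Real.norm_of_nonneg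
            (Finset.sum_nonneg fun d _ => by rw [af_sub]; linarith [(hΛ1 d).2])]
          refine le_trans ?_ (hl' m hm)
          rw [← vonMangoldt_sum]
          exact Finset.sum_le_sum fun d _ => by rw [af_sub]; linarith [(hΛ1 d).1])
        (fun m hm => by
          have h3 : ((Λ - Λ1) * (ζ : ArithmeticFunction ℝ)) m ≠ 0 := fun h => hm (by simp [h])
          rw [coe_mul_zeta_apply] at h3
          obtain ⟨d, hd, h4⟩ := Finset.exists_ne_zero_of_sum_ne_zero h3
          refine lt_of_lt_of_le ?_ (Nat.divisor_le hd)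
          by_contra h; apply h4; simp [Λ1, af_sub, low_apply, not_lt.1 h]) (div_pos hX0 hy)
      refine (pow_le_pow_iff_left₀ (Finset.sum_nonneg fun _ _ => by positivity) (by positivity)
        two_ne_zero).1 ((Finset.sum_mul_sq_le_sq_mul_sq _ _ _).trans ?_)
      refine (mul_le_mul p1 p2 (Finset.sum_nonneg fun _ _ => by positivity)
        (by positivity)).trans (le_of_eq ?_)
      field_simp)
  have tt := add_le_add (add_le_add t1 t2) t3
  rw [← Finset.sum_add_distrib, ← Finset.sum_add_distrib] at tt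
  refine le_trans (Finset.sum_le_sum fun x hx => ?_) (tt.trans (le_of_eq (by ring)))
  rw [← sum_conv hX1 hY _ _ (hmul x hx), ← sum_conv hX1 hY _ _ (hmul x hx),
    ← sum_conv hX1 hY _ _ (hmul x hx)]
  refine le_trans (le_of_eq ?_) ((norm_add_le _ _).trans (add_le_add_left (norm_sub_le _ _) _))
  rw [← Finset.sum_sub_distrib, ← Finset.sum_add_distrib]
  congr 1
  refine Finset.sum_congr rfl fun N _ => ?_
  have e := congrArg (fun f : ArithmeticFunction ℝ => f N) (vaughan U)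
  simp only [ArithmeticFunction.add_apply, af_sub] at e
  have e0 : (Λ1 N : ℂ) * wt X N = 0 := by
    by_cases h0 : wt X N = 0
    · simp [h0]
    · have h3 : (U : ℝ) < N := hX.trans_le (wt_support hX1 h0).1
      have h4 : ¬ N ≤ U := not_le.2 (by exact_mod_cast h3)
      simp [Λ1, low_apply, h4]
  rw [e]
  push_cast
  linear_combination χ x N * e0

end Pool.Agent.Lib.MP_bee098_nt
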