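import Mathlib

open Finset

namespace Pool.Agent.Lib.MP_bee098_nt

lemma sum_log_div_le {n : ℕ} (hn : 1 ≤ n) :
    ∑ p ∈ n.primesLE, Real.log p / p ≤ Real.log n + Real.log 4 := by
  have hnr : (0 : ℝ) < n := by exact_mod_cast hn
  have h1 : ∑ p ∈ n.primesLE, ((n / p : ℕ) : ℝ) * Real.log p ≤ n * Real.log n := by
    calc ∑ p ∈ n.primesLE, ((n / p : ℕ) : ℝ) * Real.log p
        = ∑ p ∈ n.primesLE, ∑ m ∈ Ioc 0 n, if p ∣ m then Real.log p else 0 := by
          refine Finset.sum_congr rfl fun p _ => ?_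
          rw [← Finset.sum_filter, Finset.sum_const, Nat.Ioc_filter_dvd_card_eq_div, nsmul_eq_mul]
      _ = ∑ m ∈ Ioc 0 n, ∑ p ∈ n.primesLE, if p ∣ m then Real.log p else 0 := Finset.sum_comm
      _ ≤ ∑ _m ∈ Ioc 0 n, Real.log n := by
          refine Finset.sum_le_sum fun m hm => ?_
          have hm0 : 0 < m := (Finset.mem_Ioc.mp hm).1
          have hmn : m ≤ n := (Finset.mem_Ioc.mp hm).2
          rw [← Finset.sum_filter, ← Real.log_prod (fun p hp => by
            have := (Nat.mem_primesLE.mp (Finset.mem_filter.mp hp).1).2.pos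
            positivity), ← Nat.cast_prod]
          have hd : ∏ p ∈ n.primesLE.filter (· ∣ m), p ∣ m :=
            Finset.prod_primes_dvd m
              (fun p hp => (Nat.mem_primesLE.mp (Finset.mem_filter.mp hp).1).2.prime)
              (fun p hp => (Finset.mem_filter.mp hp).2)
          refine Real.log_le_log ?_ ?_
          · exact_mod_cast Nat.pos_of_dvd_of_pos hd hm0
          · exact_mod_cast (Nat.le_of_dvd hm0 hd).trans hmn
      _ = n * Real.log n := by simp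
  have h2 : ∑ p ∈ n.primesLE, Real.log p ≤ Real.log 4 * n := by
    rw [← Chebyshev.theta_eq_sum_primesLE_log]
    exact Chebyshev.theta_le_log4_mul_x hnr.le
  have h3 : n * ∑ p ∈ n.primesLE, Real.log p / p ≤
      ∑ p ∈ n.primesLE, ((n / p : ℕ) : ℝ) * Real.log p + ∑ p ∈ n.primesLE, Real.log p := by
    rw [Finset.mul_sum, ← Finset.sum_add_distrib]
    refine Finset.sum_le_sum fun p hp => ?_
    have hp0 : 0 < p := (Nat.mem_primesLE.mp hp).2.pos
    have hpr : (0 : ℝ) < p := by exact_mod_cast hp0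
    have hl : 0 ≤ Real.log p := Real.log_natCast_nonneg p
    have h4 : (n : ℝ) / p ≤ ((n / p : ℕ) : ℝ) + 1 := by
      rw [div_le_iff₀ hpr]
      have := Nat.lt_div_mul_add (a := n) hp0
      have h5 : (n : ℝ) ≤ ((n / p * p + p : ℕ) : ℝ) := by exact_mod_cast this.le
      push_cast at h5
      linarith
    calc n * (Real.log p / p) = n / p * Real.log p := by ring
      _ ≤ (((n / p : ℕ) : ℝ) + 1) * Real.log p := by gcongr
      _ = _ := by ring
  have h4 : n * ∑ p ∈ n.primesLE, Real.log p / p ≤ n * (Real.log n + Real.log 4) := by linarith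
  exact le_of_mul_le_mul_left h4 hnr

/-- the completely multiplicative function `m ↦ m ^ (-σ)` -/
noncomputable def powHom (σ : ℝ) : ℕ →* ℝ where
  toFun m := (m : ℝ) ^ (-σ)
  map_one' := by simp
  map_mul' a b := by
    push_cast
    exact Real.mul_rpow (Nat.cast_nonneg a) (Nat.cast_nonneg b)

lemma euler_hasSum {σ : ℝ} (hσ : 0 < σ) (s : Finset ℕ) (hs : ∀ p ∈ s, p.Prime) :
    HasSum (fun m : Nat.factoredNumbers s => ((m : ℕ) : ℝ) ^ (-σ))
      (∏ p ∈ s, (1 - (p : ℝ) ^ (-σ))⁻¹) := by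
  have h := (EulerProduct.summable_and_hasSum_factoredNumbers_prod_filter_prime_geometric
    (f := powHom σ) (fun {p} hp => by
      have h1 : (1 : ℝ) < p := by exact_mod_cast hp.one_lt
      show ‖(p : ℝ) ^ (-σ)‖ < 1
      rw [Real.norm_of_nonneg (by positivity)]
      exact Real.rpow_lt_one_of_one_lt_of_neg h1 (by linarith)) s).2
  rw [Finset.filter_true_of_mem hs] at h
  exact h

lemma euler_ge {σ : ℝ} (hσ : 0 < σ) (s : Finset ℕ) (hs : ∀ p ∈ s, p.Prime) (F : Finset ℕ)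
    (hF : ∀ m ∈ F, ∀ p, p.Prime → p ∣ m → p ∈ s) :
    ∑ m ∈ F, (m : ℝ) ^ (-σ) ≤ ∏ p ∈ s, (1 - (p : ℝ) ^ (-σ))⁻¹ := by
  have h := sum_le_hasSum (F.subtype (· ∈ Nat.factoredNumbers s)) (fun _ _ => by positivity)
    (euler_hasSum hσ s hs)
  rw [Finset.sum_subtype_of_mem (fun m : ℕ => (m : ℝ) ^ (-σ))
    (fun m hm => Nat.mem_factoredNumbers'.mpr (hF m hm))] at h
  exact h

lemma zeta_partial_le {δ : ℝ} (hδ : 0 < δ) (N : ℕ) :
    ∑ m ∈ Icc 1 N, (m : ℝ) ^ (-(1 + δ)) ≤ 1 + 1 / δ := by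
  have key : ∀ N : ℕ, 1 ≤ N →
      ∑ m ∈ Icc 1 N, (m : ℝ) ^ (-(1 + δ)) ≤ 1 + 1 / δ - (N : ℝ) ^ (-δ) / δ := by
    intro N hN
    induction N, hN using Nat.le_induction with
    | base => simp
    | succ N hN ih =>
      rw [Finset.sum_Icc_succ_top (by omega)]
      have hNr : (0 : ℝ) < N := by exact_mod_cast hN
      have hN1 : (0 : ℝ) < ((N + 1 : ℕ) : ℝ) := by positivity
      have h1 : 1 / ((N + 1 : ℕ) : ℝ) ≤ Real.log ((N + 1 : ℕ) : ℝ) - Real.log N := by
        rw [← Real.log_div hN1.ne' hNr.ne']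
        refine le_trans (le_of_eq ?_) (Real.one_sub_inv_le_log_of_pos (by positivity))
        push_cast; field_simp; ring
      have h2 : (N : ℝ) ^ (-δ) = ((N + 1 : ℕ) : ℝ) ^ (-δ) *
          Real.exp (δ * (Real.log ((N + 1 : ℕ) : ℝ) - Real.log N)) := by
        rw [Real.rpow_def_of_pos hNr, Real.rpow_def_of_pos hN1, ← Real.exp_add]
        congr 1; ring
      have h3 : ((N + 1 : ℕ) : ℝ) ^ (-(1 + δ)) = ((N + 1 : ℕ) : ℝ) ^ (-δ) * (1 / ((N + 1 : ℕ) : ℝ)) := by
        rw [show -(1 + δ) = -δ + -1 by ring, Real.rpow_add hN1, Real.rpow_neg_one, one_div]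
      have h4 := Real.add_one_le_exp (δ * (Real.log ((N + 1 : ℕ) : ℝ) - Real.log N))
      have h5 : 0 < ((N + 1 : ℕ) : ℝ) ^ (-δ) := by positivity
      have h6 : ((N + 1 : ℕ) : ℝ) ^ (-δ) * (δ * (1 / ((N + 1 : ℕ) : ℝ)) + 1) ≤ (N : ℝ) ^ (-δ) := by
        rw [h2]
        refine mul_le_mul_of_nonneg_left (le_trans ?_ h4) h5.le
        gcongr
      have h7 : ((N + 1 : ℕ) : ℝ) ^ (-δ) * (1 / ((N + 1 : ℕ) : ℝ)) ≤
          (N : ℝ) ^ (-δ) / δ - ((N + 1 : ℕ) : ℝ) ^ (-δ) / δ := by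
        rw [← sub_div, le_div_iff₀ hδ]
        linarith
      rw [h3]
      linarith
  rcases Nat.eq_zero_or_pos N with rfl | hN
  · simp; positivity
  · have h1 := key N hN
    have h2 : 0 ≤ (N : ℝ) ^ (-δ) / δ := by positivity
    linarith

lemma euler_le {δ : ℝ} (hδ : 0 < δ) (s : Finset ℕ) (hs : ∀ p ∈ s, p.Prime) :
    ∏ p ∈ s, (1 - (p : ℝ) ^ (-(1 + δ)))⁻¹ ≤ 1 + 1 / δ := by
  refine hasSum_le_of_sum_le (euler_hasSum (by linarith) s hs) fun F => ?_
  have h1 : ∑ m ∈ F, ((m : ℕ) : ℝ) ^ (-(1 + δ)) =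
      ∑ m ∈ F.image Subtype.val, (m : ℝ) ^ (-(1 + δ)) :=
    (Finset.sum_image (f := fun m : ℕ => (m : ℝ) ^ (-(1 + δ))) Subtype.val_injective.injOn).symm
  rw [h1]
  refine le_trans (Finset.sum_le_sum_of_subset_of_nonneg ?_ fun _ _ _ => by positivity)
    (zeta_partial_le hδ ((F.image Subtype.val).sup id))
  intro m hm
  refine Finset.mem_Icc.mpr ⟨?_, Finset.le_sup (f := id) hm⟩
  obtain ⟨x, -, rfl⟩ := Finset.mem_image.mp hm
  exact Nat.pos_of_ne_zero (Nat.mem_factoredNumbers.mp x.2).1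

lemma log_le_prod_primesLE (n : ℕ) :
    Real.log (n + 1) ≤ ∏ p ∈ n.primesLE, (1 - (p : ℝ)⁻¹)⁻¹ := by
  have h := euler_ge one_pos n.primesLE (fun p hp => (Nat.mem_primesLE.mp hp).2) (Icc 1 n)
    (fun m hm p hp hpm => Nat.mem_primesLE.mpr
      ⟨(Nat.le_of_dvd (Finset.mem_Icc.mp hm).1 hpm).trans (Finset.mem_Icc.mp hm).2, hp⟩)
  simp only [Real.rpow_neg_one] at h
  have h2 := log_add_one_le_harmonic n
  rw [harmonic_eq_sum_Icc] at h2
  push_cast at h2
  exact h2.trans h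

lemma sum_inv_primesLE_le {n : ℕ} (hn : 2 ≤ n) :
    ∑ p ∈ n.primesLE, (p : ℝ)⁻¹ ≤ Real.log (1 + Real.log n) + 3 := by
  have hnr : (2 : ℝ) ≤ n := by exact_mod_cast hn
  have hl2 : Real.log 2 ≤ Real.log n := Real.log_le_log (by norm_num) hnr
  have hl2' : 0 < Real.log 2 := Real.log_pos (by norm_num)
  have hl : 0 < Real.log n := by linarith
  set δ := 1 / Real.log n with hδ
  have hδ0 : 0 < δ := by positivity
  have h1 := euler_le hδ0 n.primesLE (fun p hp => (Nat.mem_primesLE.mp hp).2)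
  have h2 : Real.exp (∑ p ∈ n.primesLE, (p : ℝ) ^ (-(1 + δ))) ≤
      ∏ p ∈ n.primesLE, (1 - (p : ℝ) ^ (-(1 + δ)))⁻¹ := by
    rw [Real.exp_sum]
    refine Finset.prod_le_prod (fun _ _ => (Real.exp_pos _).le) fun p hp => ?_
    have h3 : (1 : ℝ) < p := by exact_mod_cast (Nat.mem_primesLE.mp hp).2.one_lt
    rw [← one_div]
    exact Real.exp_bound_div_one_sub_of_interval (by positivity)
      (Real.rpow_lt_one_of_one_lt_of_neg h3 (by linarith))
  have h3 : ∑ p ∈ n.primesLE, (p : ℝ) ^ (-(1 + δ)) ≤ Real.log (1 + Real.log n) := by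
    rw [Real.le_log_iff_exp_le (by positivity)]
    refine h2.trans (h1.trans (le_of_eq ?_))
    rw [hδ, one_div_one_div]
  have h4 : ∀ p ∈ n.primesLE, (p : ℝ)⁻¹ ≤ (p : ℝ) ^ (-(1 + δ)) + δ * (Real.log p / p) := by
    intro p hp
    have hp0 : (0 : ℝ) < p := by exact_mod_cast (Nat.mem_primesLE.mp hp).2.pos
    rw [show -(1 + δ) = -δ + -1 by ring, Real.rpow_add hp0, Real.rpow_neg_one,
      Real.rpow_def_of_pos hp0]
    have h5 := Real.add_one_le_exp (Real.log p * -δ)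
    have h6 : (0 : ℝ) < (p : ℝ)⁻¹ := by positivity
    have h7 := mul_le_mul_of_nonneg_right h5 h6.le
    rw [div_eq_mul_inv]
    linarith
  have h5 := sum_log_div_le (n := n) (by omega)
  have h6 : δ * (Real.log n + Real.log 4) ≤ 3 := by
    have : Real.log 4 = 2 * Real.log 2 := by
      rw [show (4 : ℝ) = 2 ^ 2 by norm_num, Real.log_pow]; norm_num
    rw [hδ, one_div, inv_mul_le_iff₀ hl]
    linarith
  refine (Finset.sum_le_sum h4).trans ?_
  rw [Finset.sum_add_distrib, ← Finset.mul_sum]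
  have h7 := mul_le_mul_of_nonneg_left h5 hδ0.le
  linarith

lemma sum_inv_sq_le (s : Finset ℕ) {z : ℕ} (hz : 1 ≤ z) (hs : ∀ p ∈ s, z < p) :
    ∑ p ∈ s, ((p : ℝ) ^ 2)⁻¹ ≤ (z : ℝ)⁻¹ := by
  have h1 := sum_Ioc_inv_sq_le_sub (α := ℝ) (k := z) (n := max z (s.sup id)) (by omega)
    (le_max_left _ _)
  have h2 : (0 : ℝ) ≤ ((max z (s.sup id) : ℕ) : ℝ)⁻¹ := by positivity
  refine le_trans (Finset.sum_le_sum_of_subset_of_nonneg ?_ fun _ _ _ => by positivity)
    (h1.trans (by linarith))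
  intro p hp
  exact Finset.mem_Ioc.mpr ⟨hs p hp, (Finset.le_sup (f := id) hp).trans (le_max_right _ _)⟩

lemma prod_primesLE_le {n : ℕ} (hn : 3 ≤ n) :
    ∏ p ∈ n.primesLE, (1 - (p : ℝ)⁻¹)⁻¹ ≤ 2 * Real.exp 5 * Real.log n := by
  have hnr : (3 : ℝ) ≤ n := by exact_mod_cast hn
  have hl : 1 ≤ Real.log n := by
    rw [Real.le_log_iff_exp_le (by linarith)]
    exact Real.exp_one_lt_three.le.trans hnr
  have h1 : ∏ p ∈ n.primesLE, (1 - (p : ℝ)⁻¹)⁻¹ ≤
      Real.exp (∑ p ∈ n.primesLE, ((p : ℝ)⁻¹ + 2 * ((p : ℝ) ^ 2)⁻¹)) := by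
    rw [Real.exp_sum]
    refine Finset.prod_le_prod (fun p hp => ?_) fun p hp => ?_
    · have h3 : (1 : ℝ) ≤ p := by exact_mod_cast (Nat.mem_primesLE.mp hp).2.one_le
      have := inv_le_one_of_one_le₀ h3
      exact inv_nonneg.mpr (by linarith)
    · have h3 : (2 : ℝ) ≤ p := by exact_mod_cast (Nat.mem_primesLE.mp hp).2.two_le
      refine le_trans ?_ (Real.add_one_le_exp _)
      have h4 : (1 - (p : ℝ)⁻¹)⁻¹ = p / (p - 1) := by field_simp
      rw [h4, div_le_iff₀ (by linarith)]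
      field_simp
      nlinarith
  have h2 := sum_inv_primesLE_le (n := n) (by omega)
  have h3 := sum_inv_sq_le n.primesLE le_rfl (fun p hp => (Nat.mem_primesLE.mp hp).2.one_lt)
  refine h1.trans ?_
  rw [Finset.sum_add_distrib, ← Finset.mul_sum]
  simp only [Nat.cast_one, inv_one] at h3
  calc _ ≤ Real.exp (Real.log (1 + Real.log n) + 5) := Real.exp_le_exp.mpr (by linarith)
    _ = (1 + Real.log n) * Real.exp 5 := by rw [Real.exp_add, Real.exp_log (by linarith)]
    _ ≤ _ := by nlinarith [Real.exp_pos 5]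

lemma one_sub_sum_le_prod {β : Type} (s : Finset β) (f : β → ℝ) (h0 : ∀ i ∈ s, 0 ≤ f i)
    (h1 : ∀ i ∈ s, f i ≤ 1) : 1 - ∑ i ∈ s, f i ≤ ∏ i ∈ s, (1 - f i) := by
  classical
  induction s using Finset.induction_on with
  | empty => simp
  | insert a s ha ih =>
    rw [Finset.sum_insert ha, Finset.prod_insert ha]
    have ih' := ih (fun i hi => h0 i (Finset.mem_insert_of_mem hi))
      (fun i hi => h1 i (Finset.mem_insert_of_mem hi))
    have a0 := h0 a (Finset.mem_insert_self _ _)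
    have a1 := h1 a (Finset.mem_insert_self _ _)
    have s0 : 0 ≤ ∑ i ∈ s, f i := Finset.sum_nonneg fun i hi => h0 i (Finset.mem_insert_of_mem hi)
    nlinarith

/-- `2 ^ ω(k) ≤ K k ^ (1 / m)` in logarithmic form -/
lemma omega_log_le (m : ℕ) (hm : 0 < m) {k : ℕ} (hk : 0 < k) :
    (k.primeFactors.card : ℝ) * Real.log 2 ≤ (2 ^ m + 1) * Real.log 2 + Real.log k / m := by
  have hmr : (0 : ℝ) < m := by exact_mod_cast hm
  have hl2 : 0 < Real.log 2 := Real.log_pos (by norm_num)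
  have h1 : ∑ p ∈ k.primeFactors, Real.log p ≤ Real.log k := by
    rw [← Real.log_prod (fun p hp => by
      have := (Nat.prime_of_mem_primeFactors hp).pos
      positivity), ← Nat.cast_prod]
    have hd := Nat.prod_primeFactors_dvd k
    refine Real.log_le_log ?_ ?_
    · exact_mod_cast Nat.pos_of_dvd_of_pos hd hk
    · exact_mod_cast Nat.le_of_dvd hk hd
  have h2 : ((k.primeFactors.filter (· ≤ 2 ^ m)).card : ℝ) ≤ 2 ^ m + 1 := by
    have : (k.primeFactors.filter (· ≤ 2 ^ m)).card ≤ (range (2 ^ m + 1)).card :=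
      Finset.card_le_card fun p hp => by
        have := (Finset.mem_filter.mp hp).2
        simp only [mem_range]; omega
    rw [Finset.card_range] at this
    exact_mod_cast this
  calc (k.primeFactors.card : ℝ) * Real.log 2 = ∑ _p ∈ k.primeFactors, Real.log 2 := by simp
    _ ≤ ∑ p ∈ k.primeFactors, ((if p ≤ 2 ^ m then Real.log 2 else 0) + Real.log p / m) := by
        refine Finset.sum_le_sum fun p _ => ?_
        have hl : 0 ≤ Real.log p / m := div_nonneg (Real.log_natCast_nonneg p) hmr.le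
        split_ifs with h
        · linarith
        · rw [zero_add, le_div_iff₀ hmr, mul_comm, ← Real.log_pow]
          refine Real.log_le_log (by positivity) ?_
          exact_mod_cast (not_le.mp h).le
    _ ≤ _ := by
        rw [Finset.sum_add_distrib, ← Finset.sum_filter, Finset.sum_const, nsmul_eq_mul,
          ← Finset.sum_div]
        gcongr

end Pool.Agent.Lib.MP_bee098_nt
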