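import Pool.Agent.Lib.MP_bee098_nt.Tuple

/-! Almost all tuples are good. -/

open Finset Filter

namespace Pool.Agent.Lib.MP_bee098_nt

section

variable {ι K : Type} [Fintype ι] [DecidableEq ι] [Fintype K] [DecidableEq K]
variable (P : ι → ℕ) [hP : ∀ i, Fact (P i).Prime]

theorem markov {α : Type} (s : Finset α) (f : α → ℝ) (hf : ∀ a, 0 ≤ f a) {c : ℝ} :
    c * (s.filter fun a => c < f a).card ≤ ∑ a ∈ s, f a := by
  rw [mul_comm, ← nsmul_eq_mul]
  exact (Finset.card_nsmul_le_sum _ f c fun a ha => (mem_filter.1 ha).2.le).trans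
    (Finset.sum_le_sum_of_subset_of_nonneg (filter_subset _ _) fun a _ _ => hf a)

/-- Primes outside `B` modulo which the tuple is injective. -/
def OK (B : Finset ι) (t : K → ℕ) : Finset ι :=
  univ.filter fun i => i ∉ B ∧ ∀ j j', (t j : ZMod (P i)) = t j' → j = j'

theorem mem_OK {B : Finset ι} {t : K → ℕ} {i : ι} :
    i ∈ OK P B t ↔ i ∉ B ∧ ∀ j j', (t j : ZMod (P i)) = t j' → j = j' := by simp [OK]

theorem OK_avg (hinj : Function.Injective P) (B : Finset ι) {H : ℕ} (hH : 0 < H) :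
    ∑ t ∈ Fintype.piFinset fun _ : K => range H, ∑ i ∈ (OK P B t)ᶜ \ B, (P i : ℝ)⁻¹ ≤
      H ^ Fintype.card K * (2 * Fintype.card K ^ 2 *
        (∑ i ∈ Bᶜ, ((P i : ℝ) ^ 2)⁻¹ + (∑ i, (P i : ℝ)⁻¹) * (H : ℝ)⁻¹)) := by
  have h1 : ∀ i, (((Fintype.piFinset fun _ : K => range H).filter
      fun t => i ∈ (OK P B t)ᶜ \ B).card : ℝ) ≤ Fintype.card K ^ 2 *
        (H ^ Fintype.card K * (2 * ((P i : ℝ)⁻¹ + (H : ℝ)⁻¹))) := by
    intro i
    let ρ : K → ι → Option K := fun j i' => if i' = i then some j else none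
    have hρ : ∀ j, sp (ρ j) = {i} := fun j => by ext; simp [sp, ρ]
    calc _ ≤ (((univ.filter fun x : K × K => x.1 ≠ x.2).biUnion fun x =>
          (Fintype.piFinset fun _ : K => range H).filter fun t =>
            al P (fun j => 1 * t j) x.1 (ρ x.2) = fun i' => (ρ x.2 i').map fun _ => 0).card : ℝ) := by
          refine Nat.cast_le.2 (card_le_card fun t ht => ?_)
          obtain ⟨h1, h2⟩ := mem_filter.1 ht
          obtain ⟨j, j', h3, h4⟩ : ∃ j j', (t j : ZMod (P i)) = t j' ∧ j ≠ j' := by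
            by_contra h3
            push Not at h3
            exact mem_compl.1 (mem_sdiff.1 h2).1 (mem_filter.2 ⟨mem_univ _, (mem_sdiff.1 h2).2, h3⟩)
          refine mem_biUnion.2 ⟨(j, j'), by simpa using h4, mem_filter.2 ⟨h1, funext fun i' => ?_⟩⟩
          simp only [al, ρ]
          split_ifs with h5
          · subst h5; simp [h3]
          · rfl
      _ ≤ (univ.filter fun x : K × K => x.1 ≠ x.2).card •
          ((H : ℝ) ^ Fintype.card K * (2 * ((P i : ℝ)⁻¹ + (H : ℝ)⁻¹))) := by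
          refine le_trans (Nat.cast_le.2 card_biUnion_le) ?_
          rw [Nat.cast_sum]
          refine Finset.sum_le_card_nsmul _ _ _ fun x hx => ?_
          simpa [hρ] using shift_count P hinj hH 1 x.1 (ρ x.2) (fun i' => by
            simp only [ρ]; split_ifs
            · simpa using (mem_filter.1 hx).2.symm
            · simp) (by simp) fun i' => (ρ x.2 i').map fun _ => 0
      _ ≤ _ := by
          rw [nsmul_eq_mul]
          gcongr
          exact_mod_cast (card_le_univ _).trans (by simp [sq])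
  calc _ = ∑ i ∈ Bᶜ, (P i : ℝ)⁻¹ * ((Fintype.piFinset fun _ : K => range H).filter
          fun t => i ∈ (OK P B t)ᶜ \ B).card := by
        simp only [card_filter, Nat.cast_sum, Finset.mul_sum]
        rw [Finset.sum_comm]
        refine Finset.sum_congr rfl fun t _ => ?_
        simp only [Nat.cast_ite, Nat.cast_one, Nat.cast_zero, mul_ite, mul_one, mul_zero,
          Finset.sum_ite_mem]
        congr 1
        ext; simp +contextual
    _ ≤ ∑ i ∈ Bᶜ, H ^ Fintype.card K * (2 * Fintype.card K ^ 2 *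
          (((P i : ℝ) ^ 2)⁻¹ + (P i : ℝ)⁻¹ * (H : ℝ)⁻¹)) :=
        Finset.sum_le_sum fun i _ => (mul_le_mul_of_nonneg_left (h1 i) (by positivity)).trans
          (le_of_eq (by rw [← inv_pow]; ring))
    _ ≤ _ := by
        rw [← Finset.mul_sum, ← Finset.mul_sum, Finset.sum_add_distrib, ← Finset.sum_mul]
        gcongr
        exact subset_univ _

theorem Vp_OK (B : Finset ι) (t : K → ℕ) (h : ∑ i ∈ (OK P B t)ᶜ \ B, (P i : ℝ)⁻¹ ≤ 1 / 2) :
    Vp P B / 2 ≤ Vp P (OK P B t)ᶜ := by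
  have h1 : B ⊆ (OK P B t)ᶜ := fun i hi => by simp [OK, hi]
  have h2 := one_sub_sum_le_prod ((OK P B t)ᶜ \ B) (fun i => (P i : ℝ)⁻¹) (fun i _ => by positivity)
    fun i _ => inv_le_one_of_one_le₀ (by linarith [two_le P i])
  have h3 := Vp_pos P B
  unfold Vp at *
  rw [← Finset.prod_sdiff h1]
  nlinarith

theorem moments (hinj : Function.Injective P) {r : ℕ}
    (hs : ∀ p : ℕ, p.Prime → p ≤ r → ∃ i, P i = p) (hPr : ∀ i, P i ≤ r) (hr : 100 ≤ r) :
    ∑ χ ∈ Fc P (2 * Real.log r), ‖Ps P (r ^ 40 : ℕ) (16 * r ^ 40) χ‖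
      ≤ 10 ^ 5 * Real.log r ^ 2 * (r ^ 40 : ℕ) ∧
    ∑ χ ∈ Fc P (2 * Real.log r), ‖Ps P (r ^ 40 : ℕ) (16 * r ^ 40) χ‖ ^ 2
      ≤ 10 ^ 5 * Real.exp 13 * ((r ^ 40 : ℕ) : ℝ) ^ 2 ∧
    ((r ^ 40 : ℕ) : ℝ) ≤ ∑ n ∈ Ioc 0 (16 * r ^ 40), aw (r ^ 40 : ℕ) n := by
  have hr' : (100 : ℝ) ≤ r := by exact_mod_cast hr
  have hr1 : (1 : ℝ) ≤ r := by linarith
  obtain ⟨L, hL⟩ : ∃ L, L = Real.log r := ⟨_, rfl⟩
  have eL : Real.exp L = r := by rw [hL, Real.exp_log (by linarith)]
  have en : ∀ n : ℕ, Real.exp (n * L) = r ^ n := fun n => by rw [Real.exp_nat_mul, eL]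
  have e3 := Real.exp_one_lt_three
  have hL1 : 1 ≤ L := by rw [← Real.exp_le_exp, eL]; linarith
  have hLr : L ≤ r := by linarith [Real.add_one_le_exp L]
  have lg : ∀ x : ℝ, 0 < x → x ≤ 17 * r ^ 40 → Real.log x ≤ 41 * L := fun x h0 h => by
    rw [Real.log_le_iff_le_exp h0]
    refine h.trans (le_trans ?_ (en 41).symm.le)
    rw [pow_succ' _ 40]
    gcongr
    linarith
  have sq : ∀ x : ℝ, x ≤ 16 * r ^ 40 → √x ≤ 4 * r ^ 20 := fun x h =>
    Real.sqrt_le_iff.2 ⟨by positivity, h.trans (le_of_eq (by ring))⟩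
  have l4 : Real.log 4 ≤ 1.4 := by
    rw [show (4 : ℝ) = 2 ^ 2 by norm_num, Real.log_pow]
    push_cast
    linarith [Real.log_two_lt_d9]
  have l40 := log4_pos
  have hX1 : (1 : ℝ) ≤ r ^ 40 := one_le_pow₀ hr1
  have pw : ∀ a : ℕ, a < 40 → 100 * (r : ℝ) ^ a ≤ r ^ 40 := fun a ha =>
    le_trans (by rw [pow_succ']; gcongr) (pow_le_pow_right₀ hr1 (Nat.succ_le_of_lt ha))
  have lY := lg (16 * r ^ 40) (by positivity) (by linarith)
  have lY0 : 0 ≤ Real.log (16 * r ^ 40) := Real.log_nonneg (by linarith)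
  rw [← hL]
  refine ⟨?_, ?_, aw_sum_ge (by positivity) ?_⟩
  · have h := Ps_mean P hinj (2 * L) (U := r ^ 11) (by exact_mod_cast
      (show (4 : ℝ) ≤ r ^ 11 by linarith [le_self_pow₀ hr1 (show 11 ≠ 0 by norm_num)])) (by
        rw [show 5 * (2 * L) + 1 = (10 : ℕ) * L + 1 by push_cast; ring, Real.exp_add, en]
        push_cast
        rw [pow_succ]
        nlinarith [pow_pos (show (0 : ℝ) < r by linarith) 10]) (X := (r ^ 40 : ℕ))
      (by push_cast; nlinarith [pw 11 (by norm_num), pow_pos (show (0 : ℝ) < r by linarith) 11])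
      (Y := 16 * r ^ 40) (by push_cast; rfl)
    refine h.trans ?_
    rw [show 3 * (2 * L) + 1 = (6 : ℕ) * L + 1 by push_cast; ring, Real.exp_add, en]
    push_cast
    have h1 := lg (16 * r ^ 40 + 1) (by positivity) (by linarith)
    have h2 := sq _ le_rfl
    calc _ ≤ (32 * r ^ 40 + 2 * r ^ 40) * (41 * L) * (41 * L + 2 * L)
          + r ^ 6 * 3 * (2 * (4 * r ^ 20) * (41 * L) * (2 * L)) := by
          have h3 : ((r : ℝ) ^ 11) ^ 3 ≤ r ^ 40 := by
            rw [← pow_mul]; exact pow_le_pow_right₀ hr1 (by norm_num)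
          have h4 : 0 ≤ Real.log (16 * r ^ 40 + 1) := Real.log_nonneg (by linarith)
          gcongr <;> linarith
      _ = 59942 * L ^ 2 * r ^ 40 + 1968 * L ^ 2 * r ^ 26 := by ring
      _ ≤ _ := by
          have : (r : ℝ) ^ 26 ≤ r ^ 40 := pow_le_pow_right₀ hr1 (by norm_num)
          nlinarith [mul_le_mul_of_nonneg_left this (sq_nonneg L),
            mul_nonneg (sq_nonneg L) (show (0 : ℝ) ≤ r ^ 40 by positivity)]
  · have h := Ps_second P hinj (L := L) (fun p hp h => hs p hp (by exact_mod_cast eL ▸ h))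
      (fun i => by rw [eL]; exact_mod_cast hPr i) (by linarith) (L' := 2 * L) (by linarith)
      (X := (r ^ 40 : ℕ)) (by push_cast; nlinarith [pw 1 (by norm_num)]) (16 * r ^ 40)
    refine h.trans ?_
    rw [show 5 * (2 * L) + 6 * L + 3 = (16 : ℕ) * L + 3 by push_cast; ring, Real.exp_add, en]
    push_cast
    have h1 : Real.exp 3 ≤ Real.exp 13 := Real.exp_le_exp.2 (by norm_num)
    have h2 : 4 * (r : ℝ) ^ 16 ≤ r ^ 40 / L := by
      rw [le_div_iff₀ (by linarith)]
      calc _ ≤ 100 * r ^ 16 * (r : ℝ) := by gcongr; norm_num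
        _ ≤ _ := by rw [mul_assoc, ← pow_succ]; exact pw 17 (by norm_num)
    calc _ ≤ (16 * r ^ 40 * (2 * Real.exp 13 / L) + r ^ 40 / L * Real.exp 13) *
          (41 * L * (16 * r ^ 40) * 1.4 ^ 3) := by
          rw [← mul_assoc 4]
          gcongr
      _ = 33 * 41 * 16 * 1.4 ^ 3 * (Real.exp 13 * (r ^ 40) ^ 2) := by field_simp; ring
      _ ≤ _ := by rw [mul_assoc (10 ^ 5 : ℝ)]; gcongr; norm_num
  · push_cast
    have h1 := lg (8 * r ^ 40 + 1) (by positivity) (by linarith)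
    have h2 := lg (8 * r ^ 40) (by positivity) (by linarith)
    have h3 := sq (8 * r ^ 40) (by linarith)
    have h4 : 0 ≤ Real.log (8 * r ^ 40) := Real.log_nonneg (by linarith)
    calc _ ≤ 41 * r + 2 * (4 * r ^ 20) * (41 * (r : ℝ)) := by gcongr <;> linarith
      _ = 41 * r ^ 1 + 328 * r ^ 21 := by ring
      _ ≤ _ := by
          nlinarith [pw 1 (by norm_num), pw 22 (by norm_num), pow_succ (r : ℝ) 21,
            pow_pos (show (0 : ℝ) < r by linarith) 21]

end

theorem log_pow_le (c : ℝ) (n : ℕ) : ∀ᶠ H : ℕ in atTop, c * Real.log H ^ n ≤ H := by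
  have h := ((Real.isLittleO_pow_log_id_atTop (n := n)).const_mul_left c).eventuallyLE
  filter_upwards [tendsto_natCast_atTop_atTop.eventually h] with H hH
  exact (le_abs_self _).trans (by simpa using hH)

open Classical in
theorem thmA (m : ℕ) : ∃ k : ℕ, ∀ ε > (0 : ℝ), ∃ W > 0, ∀ᶠ H : ℕ in atTop, ∀ r : ℕ,
    (H : ℝ) ^ 3 ≤ Real.log r → Real.log r ≤ H ^ 4 →
      (((Fintype.piFinset fun _ : Fin k => range H).filter
        fun t => ¬ Good m (r ^ 40) (W * H) fun j => W * t j).card : ℝ) ≤ ε * H ^ k := by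
  obtain ⟨J, hJ⟩ := exists_nat_gt (3 * 10 ^ 7 * (2 * Real.exp 13) ^ 2 * (m + 1))
  obtain ⟨k, hk⟩ : ∃ k, k = 2 ^ J := ⟨_, rfl⟩
  have hk0 : 0 < k := by rw [hk]; positivity
  have hk' : (0 : ℝ) < k := by exact_mod_cast hk0
  refine ⟨k, fun ε hε => ?_⟩
  obtain ⟨C2, hC2⟩ : ∃ C2 : ℕ, C2 = 2 * (k * (2 * (k + 1) * 2 ^ k)) ^ 2 := ⟨_, rfl⟩
  obtain ⟨δ, hδ⟩ : ∃ δ, δ = ε / (72 * k) := ⟨_, rfl⟩
  have hδ0 : 0 < δ := by rw [hδ]; positivity
  obtain ⟨C3, hC3⟩ : ∃ C3, C3 = 10 ^ 5 * Real.exp 13 := ⟨_, rfl⟩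
  have hC30 : 0 < C3 := by rw [hC3]; positivity
  obtain ⟨w, w1, w2, w3, w4⟩ : ∃ w : ℕ, 1536 * k ^ 2 ≤ w ∧ 2 * C2 + 1 ≤ w ∧
      16 * k ^ 2 / ε ≤ w ∧ Real.exp (2 * C2 / w) - 1 ≤ δ ^ 2 / (2 * C3) := by
    have h1 : Tendsto (fun w : ℕ => Real.exp (2 * C2 / w) - 1) atTop (nhds (Real.exp 0 - 1)) :=
      ((Real.continuous_exp.tendsto 0).comp (tendsto_const_div_atTop_nhds_zero_nat _)).sub_const 1
    rw [Real.exp_zero, sub_self] at h1
    exact ((eventually_ge_atTop _).and ((eventually_ge_atTop _).and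
      ((tendsto_natCast_atTop_atTop.eventually_ge_atTop _).and
        (h1.eventually_le_const (by positivity))))).exists
  have hW := primorial_pos w
  obtain ⟨W, hWw⟩ : ∃ W, W = primorial w := ⟨_, rfl⟩
  rw [← hWw] at hW
  refine ⟨W, hW, ?_⟩
  filter_upwards [eventually_ge_atTop 100, eventually_ge_atTop W, eventually_ge_atTop w,
    tendsto_natCast_atTop_atTop.eventually_ge_atTop
      (w * (96 * k * J * (2 * Real.exp 13)) : ℝ),
    tendsto_natCast_atTop_atTop.eventually_ge_atTop (80 * Real.exp 18 * k * W : ℝ),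
    tendsto_natCast_atTop_atTop.eventually_ge_atTop
      (k * W * (2 * (2 ^ k) ^ 2 * Real.exp (2 * ((w + 1) * w) + 2 * (k + 1))) : ℝ),
    tendsto_natCast_atTop_atTop.eventually_ge_atTop (10 ^ 5 / δ),
    log_pow_le ((48 * Real.exp 5) ^ C2 * (2 * C3) / δ ^ 2) C2,
    log_pow_le (128 * k ^ 2 / ε) 1] with H a1 a2 a3 a4 a5 a6 a7 a8 a9 r b1 b2
  have hH : (100 : ℝ) ≤ H := by exact_mod_cast a1
  have hH0 : 0 < H := by omega
  have hH1 : (1 : ℝ) ≤ H := by linarith
  have hHL : (H : ℝ) ≤ Real.log r := (le_self_pow₀ hH1 three_ne_zero).trans b1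
  have hHr : (H : ℝ) ≤ r := hHL.trans (Real.log_le_self (Nat.cast_nonneg r))
  have hHr' : H ≤ r := by exact_mod_cast hHr
  have hr0 : (0 : ℝ) < r := by linarith
  have lH : 1 ≤ Real.log H := by
    rw [Real.le_log_iff_exp_le (by linarith)]; linarith [Real.exp_one_lt_three]
  let P : r.primesLE → ℕ := Subtype.val
  have hP : ∀ i, Fact (P i).Prime := fun i => ⟨(Nat.mem_primesLE.1 i.2).2⟩
  have hinj : Function.Injective P := Subtype.val_injective
  have hs : ∀ p : ℕ, p.Prime → p ≤ r → ∃ i, P i = p := fun p hp h =>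
    ⟨⟨p, Nat.mem_primesLE.2 ⟨h, hp⟩⟩, rfl⟩
  have hPr : ∀ i, P i ≤ r := fun i => (Nat.mem_primesLE.1 i.2).1
  let B := univ.filter fun i => P i ≤ w
  have hB : ∀ i, i ∈ B ↔ P i ≤ w := fun i => by simp [B]
  have hWB : ∀ i, (W : ZMod (P i)) = 0 ↔ i ∈ B := fun i => by
    rw [hB, ZMod.natCast_eq_zero_iff, hWw, (hP i).out.dvd_primorial_iff]
  obtain ⟨m1, m2, m3⟩ := moments P hinj hs hPr (by omega)
  obtain ⟨X, hX⟩ : ∃ X : ℝ, X = (r ^ 40 : ℕ) := ⟨_, rfl⟩
  have hX0 : 0 < X := by rw [hX]; push_cast; positivity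
  let T := Fintype.piFinset fun _ : Fin k => range H
  let e : Fin k → (Fin k → ℕ) → ℝ := fun j t => Er P B (fun j => W * t j) j (2 * Real.log r)
    (2 * (Fintype.card (Fin k) + 1) * 2 ^ Fintype.card (Fin k)) (Ps P (r ^ 40 : ℕ) (16 * r ^ 40))
  have c1 : ∀ j, ((T.filter fun t => X / 12 < e j t).card : ℝ) ≤ 36 * δ * H ^ k := fun j => by
    have h := (markov T (e j) (fun t => Finset.sum_nonneg fun _ _ => by positivity)
      (c := X / 12)).trans (Er_avg P hinj B (fun i hi => not_le.1 fun h => hi ((hB i).2 h)) hH0 W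
      (fun i hi h => hi ((hWB i).1 h)) j _ (by positivity) (C2 := C2)
      (by rw [hC2, Fintype.card_fin]; push_cast; rfl) w2 _ (F := 24 * Real.log H)
      (by linarith [Real.add_one_le_exp (24 * Real.log H)]) (η := δ / (C3 * X)) (by positivity))
    rw [Fintype.card_fin] at h
    rw [← hX] at m1 m2 h
    rw [← hC3] at m2
    have t1 : Real.exp (-(24 * Real.log H / 2)) * (10 ^ 5 * Real.log r ^ 2 * X) ≤ δ * X := by
      rw [← mul_assoc, show -(24 * Real.log H / 2) = -((12 : ℕ) * Real.log H) by push_cast; ring,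
        Real.exp_neg, Real.exp_nat_mul, Real.exp_log (by linarith)]
      refine mul_le_mul_of_nonneg_right ?_ hX0.le
      rw [inv_mul_le_iff₀ (by positivity)]
      rw [div_le_iff₀ hδ0] at a7
      calc _ ≤ H * δ * ((H : ℝ) ^ 4) ^ 2 := by gcongr
        _ = H ^ 9 * δ := by ring
        _ ≤ _ := by gcongr; norm_num
    have t2 : (2 * Real.exp 5 * (24 * Real.log H)) ^ C2 * (H : ℝ)⁻¹ ≤ δ ^ 2 / (2 * C3) := by
      rw [← div_eq_mul_inv, div_le_div_iff₀ (by linarith) (by positivity)]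
      rw [div_mul_eq_mul_div, div_le_iff₀ (by positivity)] at a8
      refine le_trans (le_of_eq ?_) (a8.trans (le_of_eq (mul_comm _ _)))
      rw [show 2 * Real.exp 5 * (24 * Real.log H) = 48 * Real.exp 5 * Real.log H by ring, mul_pow]
      ring
    have t3 : X / 12 * ((T.filter fun t => X / 12 < e j t).card : ℝ)
        ≤ H ^ k * (δ * X + δ / (C3 * X) * (C3 * X ^ 2)
          + (δ / (C3 * X))⁻¹ * (δ ^ 2 / (2 * C3) + δ ^ 2 / (2 * C3))) := by
      refine h.trans (mul_le_mul_of_nonneg_left (add_le_add (add_le_add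
        ((mul_le_mul_of_nonneg_left m1 (Real.exp_pos _).le).trans t1) ?_) ?_) (by positivity))
      all_goals gcongr
    refine le_of_mul_le_mul_left (t3.trans (le_of_eq ?_)) (show 0 < X / 12 by positivity)
    field_simp
    ring
  have c2 : ((T.filter fun t => 1 / 2 < ∑ i ∈ (OK P B t)ᶜ \ B, (P i : ℝ)⁻¹).card : ℝ)
      ≤ ε / 2 * H ^ k := by
    have h := (markov T (fun t => ∑ i ∈ (OK P B t)ᶜ \ B, (P i : ℝ)⁻¹)
      (fun t => by positivity) (c := 1 / 2)).trans (OK_avg P hinj B hH0)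
    rw [Fintype.card_fin] at h
    have t1 := sum_sq_inv P hinj Bᶜ (z := w) (by omega) fun i hi =>
      not_le.1 fun h => mem_compl.1 hi ((hB i).2 h)
    have t2 : ∑ i, (P i : ℝ)⁻¹ ≤ 8 * Real.log H := by
      have h1 := sum_inv_primesLE_le (n := r) (by omega)
      rw [← Finset.sum_coe_sort] at h1
      have h2 : Real.log (1 + Real.log r) ≤ (5 : ℕ) * Real.log H := by
        rw [← Real.log_pow]
        refine Real.log_le_log (by linarith) ?_
        rw [pow_succ]
        nlinarith [one_le_pow₀ (n := 4) hH1]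
      push_cast at h2
      exact h1.trans (by linarith)
    have t3 : 16 * k ^ 2 * (w : ℝ)⁻¹ ≤ ε := by
      have : (0 : ℝ) < w := lt_of_lt_of_le (by positivity) w3
      rw [← div_eq_mul_inv, div_le_iff₀ this]
      rw [div_le_iff₀ hε] at w3
      linarith
    have t4 : 16 * k ^ 2 * (8 * Real.log H * (H : ℝ)⁻¹) ≤ ε := by
      rw [← mul_assoc, ← div_eq_mul_inv, div_le_iff₀ (by linarith)]
      rw [pow_one, div_mul_eq_mul_div, div_le_iff₀ hε] at a9
      linarith
    have t5 : 1 / 2 * ((T.filter fun t => 1 / 2 < ∑ i ∈ (OK P B t)ᶜ \ B, (P i : ℝ)⁻¹).card : ℝ)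
        ≤ H ^ k * (2 * k ^ 2 * ((w : ℝ)⁻¹ + 8 * Real.log H * (H : ℝ)⁻¹)) := h.trans (by gcongr)
    nlinarith [mul_le_mul_of_nonneg_left (add_le_add t3 t4) (show (0 : ℝ) ≤ H ^ k by positivity)]
  have hlB : lp P B ≤ (w + 1) * w := by
    refine (Finset.sum_le_card_nsmul _ _ (w : ℝ) fun i hi => (Real.log_le_self
      (Nat.cast_nonneg _)).trans (by exact_mod_cast (hB i).1 hi)).trans ?_
    rw [nsmul_eq_mul]
    gcongr
    exact_mod_cast (card_le_card_of_injOn P (fun i hi => mem_range.2 (Nat.lt_succ_of_le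
      ((hB i).1 hi))) hinj.injOn).trans (card_range (w + 1)).le
  calc _ ≤ (((univ.biUnion fun j => T.filter fun t => X / 12 < e j t) ∪
        T.filter fun t => 1 / 2 < ∑ i ∈ (OK P B t)ᶜ \ B, (P i : ℝ)⁻¹).card : ℝ) := by
        refine Nat.cast_le.2 (card_le_card fun t ht => ?_)
        obtain ⟨h1, h2⟩ := mem_filter.1 ht
        by_contra h3
        simp only [mem_union, mem_biUnion, mem_filter, mem_univ, true_and, not_or, not_exists,
          not_and, not_lt] at h3
        have h4 : 100 * H ≤ H ^ 2 := by nlinarith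
        have h5 : H ^ 2 ≤ H ^ 5 := Nat.pow_le_pow_right hH0 (by norm_num)
        have h6 : W * H ≤ H ^ 2 := by rw [sq]; exact Nat.mul_le_mul_right _ a2
        refine h2 (core P hinj hs hPr (by omega) B hB (OK P B t)
          (Finset.disjoint_left.2 fun i hi => ((mem_OK P).1 hi).1) (Vp_OK P B t (h3.2 h1)) _
          (fun i hi j j' h => ((mem_OK P).1 hi).2 j j' ?_) (fun i hi j => ?_)
          (fun j => Nat.mul_lt_mul_of_pos_left (mem_range.1 (Fintype.mem_piFinset.1 h1 j)) hW)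
          (Y0 := H ^ 5) (h6.trans h5) (by omega) ?_ (J := J) (by simpa using w1)
          (by simp [hk]) hJ ?_ ?_ ?_ m3 (fun j => (h3.1 j h1).trans (by rw [hX])) ?_)
        · push_cast at h
          exact mul_left_cancel₀ (fun h7 => ((mem_OK P).1 hi).1 ((hWB i).1 h7)) h
        · push_cast
          rw [(hWB i).2 hi, zero_mul]
        · push_cast
          rw [pow_succ]
          nlinarith [pow_pos (show (0 : ℝ) < H by linarith) 4]
        · refine le_trans ?_ ((le_add_of_nonneg_right zero_le_one).trans (Real.add_one_le_exp _))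
          have : (0 : ℝ) < J := lt_of_le_of_lt (by positivity) hJ
          rw [Fintype.card_fin, le_div_iff₀ (by positivity)]
          linarith
        · rw [Fintype.card_fin]
          push_cast
          rw [Real.log_pow]
          refine le_trans ?_ b1
          calc _ = 80 * Real.exp 18 * k * W * H * Real.log H := by push_cast; ring
            _ ≤ H * H * H := by gcongr; exact Real.log_le_self (Nat.cast_nonneg H)
            _ = _ := by ring
        · rw [Fintype.card_fin, show 2 * lp P B + 12 * Real.log r + 2 * (k + 1) =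
            (2 * lp P B + 2 * (k + 1)) + (12 : ℕ) * Real.log r by push_cast; ring, Real.exp_add,
            Real.exp_nat_mul, Real.exp_log hr0]
          push_cast
          calc _ = k * W * (2 * (2 ^ k) ^ 2 * Real.exp (2 * lp P B + 2 * (k + 1))) * H * r ^ 12 := by
                ring
            _ ≤ r * r * (r : ℝ) ^ 12 := by
                gcongr
                exact le_trans (by gcongr) (a6.trans hHr)
            _ = (r : ℝ) ^ 14 := by ring
            _ ≤ _ := pow_le_pow_right₀ (by linarith) (by norm_num)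
        · have h7 : H ^ 2 ≤ r ^ 2 := Nat.pow_le_pow_left hHr' 2
          have h8 : r ^ 3 ≤ r ^ 40 := Nat.pow_le_pow_right (by omega) (by norm_num)
          have h9 : r ^ 2 + r < r ^ 3 := by nlinarith [Nat.mul_le_mul_right r (a1.trans hHr')]
          omega
    _ ≤ k * (36 * δ * H ^ k) + ε / 2 * H ^ k := by
        refine (Nat.cast_le.2 (card_union_le _ _)).trans ?_
        rw [Nat.cast_add]
        refine add_le_add (le_trans (Nat.cast_le.2 card_biUnion_le) ?_) c2
        rw [Nat.cast_sum]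
        simpa using Finset.sum_le_card_nsmul univ _ _ fun j _ => c1 j
    _ = _ := by rw [hδ]; field_simp; ring

end Pool.Agent.Lib.MP_bee098_nt
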