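import Pool.Agent.Lib.MP_bee098_nt.Classes
import Pool.Agent.Lib.MP_bee098_nt.Vaughan

/-! Primitive characters of squarefree conductor. -/

open Finset

namespace Pool.Agent.Lib.MP_bee098_nt

section Local

variable {p : ℕ} [hp : Fact p.Prime]

/-- Local component of a primitive character. -/
noncomputable def loc (χ : DirichletCharacter ℂ p) (s : ZMod p) : ℂ := if χ = 1 then 1 else χ s

/-- Fourier coefficients of the centred indicator functions. -/
noncomputable def kap : Option (ZMod p) → DirichletCharacter ℂ p → ℂ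
  | none, χ => if χ = 1 then 1 else 0
  | some a, χ => if χ = 1 then 0 else om p * (starRingEnd ℂ) (χ a)

theorem loc_norm (χ : DirichletCharacter ℂ p) (s : ZMod p) : ‖loc χ s‖ ≤ 1 := by
  unfold loc; split_ifs
  · simp
  · exact χ.norm_le_one s

theorem loc_mul (χ : DirichletCharacter ℂ p) (s t : ZMod p) :
    loc χ (s * t) = loc χ s * loc χ t := by
  unfold loc; split_ifs <;> simp

theorem loc_unit (χ : DirichletCharacter ℂ p) {s : ZMod p} (hs : s ≠ 0) : loc χ s = χ s := by
  unfold loc; split_ifs with h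
  · rw [h, MulChar.one_apply hs.isUnit]
  · rfl

omit hp in
theorem conj_char (χ : DirichletCharacter ℂ p) (s : ZMod p) :
    (starRingEnd ℂ) (χ s) = χ⁻¹ s := MulChar.star_apply' χ s

theorem char_orth (χ χ' : DirichletCharacter ℂ p) :
    ∑ s, χ s * (starRingEnd ℂ) (χ' s) = if χ = χ' then (p : ℂ) - 1 else 0 := by
  simp only [conj_char, ← MulChar.mul_apply]
  split_ifs with h
  · rw [h, mul_inv_cancel, MulChar.sum_one_eq_card_units, ZMod.card_units,
      Nat.cast_sub hp.out.one_le, Nat.cast_one]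
  · exact MulChar.sum_eq_zero_of_ne_one fun h1 => h (mul_inv_eq_one.1 h1)

theorem loc_cancel {χ χ' : DirichletCharacter ℂ p} (h : χ ≠ χ') :
    loc χ 0 * (starRingEnd ℂ) (loc χ' 0) = 0 ∧ ∑ s, loc χ s * (starRingEnd ℂ) (loc χ' s) = 0 := by
  have h0 : loc χ 0 * (starRingEnd ℂ) (loc χ' 0) = 0 := by
    unfold loc
    split_ifs with h1 h2
    · exact absurd (h1.trans h2.symm) h
    all_goals simp [MulChar.map_zero]
  refine ⟨h0, ?_⟩
  have := char_orth χ χ'
  rw [if_neg h] at this
  rw [← this]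
  refine Finset.sum_congr rfl fun s _ => ?_
  by_cases hs : s = 0
  · rw [hs, h0]; simp [MulChar.map_zero]
  · rw [loc_unit χ hs, loc_unit χ' hs]

theorem om_mul' : (om p : ℂ) * (p - 1) = 1 := by
  have := om_mul (fun _ : Unit => p) ()
  exact_mod_cast this

theorem kap_sum {a s : ZMod p} (ha : a ≠ 0) (hs : s ≠ 0) :
    ∑ χ, kap (some a) χ * loc χ s = (if s = a then 1 else 0) - om p := by
  have h1 := DirichletCharacter.sum_char_inv_mul_char_eq ℂ ha.isUnit s
  rw [Nat.totient_prime hp.out, Nat.cast_sub hp.out.one_le, Nat.cast_one] at h1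
  have h2 : ∀ χ : DirichletCharacter ℂ p, kap (some a) χ * loc χ s
      = om p * (χ a⁻¹ * χ s) - if χ = 1 then (om p : ℂ) else 0 := by
    intro χ
    rw [loc_unit χ hs]
    simp only [kap]
    split_ifs with h
    · simp [h, MulChar.one_apply hs.isUnit, MulChar.one_apply (inv_ne_zero ha).isUnit]
    · rw [conj_char, MulChar.inv_apply', sub_zero, mul_assoc]
  simp only [h2, Finset.sum_sub_distrib, ← Finset.mul_sum, h1, Finset.sum_ite_eq', mem_univ,
    if_true]
  congr 1
  by_cases h : s = a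
  · rw [if_pos h, if_pos h.symm, om_mul']
  · rw [if_neg h, if_neg (Ne.symm h), mul_zero]

theorem parseval (d : DirichletCharacter ℂ p → ℂ) :
    ∑ a, ‖∑ χ, d χ * (starRingEnd ℂ) (χ a)‖ ^ 2 = (p - 1) * ∑ χ, ‖d χ‖ ^ 2 := by
  refine Complex.ofReal_injective ?_
  push_cast
  simp only [← Complex.mul_conj', map_sum, map_mul, Complex.conj_conj, Finset.sum_mul_sum]
  rw [Finset.sum_comm, Finset.mul_sum]
  refine Finset.sum_congr rfl fun χ _ => ?_
  rw [Finset.sum_comm]
  rw [Finset.sum_congr rfl fun χ' _ => show _ = d χ * (starRingEnd ℂ) (d χ') *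
    if χ' = χ then (p : ℂ) - 1 else 0 by
      rw [← char_orth, Finset.mul_sum]
      exact Finset.sum_congr rfl fun a _ => by ring]
  simp [mul_comm]

theorem card_char : (Fintype.card (DirichletCharacter ℂ p) : ℝ) ≤ p := by
  rw [← Nat.card_eq_fintype_card, DirichletCharacter.card_eq_totient_of_hasEnoughRootsOfUnity]
  exact_mod_cast Nat.totient_le p

end Local

variable {ι : Type} [Fintype ι] [DecidableEq ι] (P : ι → ℕ) [hP : ∀ i, Fact (P i).Prime]

/-- Families of local characters. -/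
abbrev Ch := ∀ i, DirichletCharacter ℂ (P i)

/-- The primitive character attached to a family. -/
noncomputable def Xc (χ : Ch P) (n : ℕ) : ℂ := ∏ i, loc (χ i) n

/-- The primes of the conductor. -/
noncomputable def cs (χ : Ch P) : Finset ι := univ.filter fun i => χ i ≠ 1

/-- Nontrivial characters of bounded conductor. -/
noncomputable def Fc (L : ℝ) : Finset (Ch P) := univ.filter fun χ => cs P χ ≠ ∅ ∧ lp P (cs P χ) ≤ L

omit [DecidableEq ι] in
theorem Xc_mul (χ : Ch P) (m n : ℕ) : Xc P χ (m * n) = Xc P χ m * Xc P χ n := by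
  simp [Xc, loc_mul, Finset.prod_mul_distrib]

omit [DecidableEq ι] in
theorem Xc_norm (χ : Ch P) (n : ℕ) : ‖Xc P χ n‖ ≤ 1 := by
  rw [Xc, norm_prod]
  exact Finset.prod_le_one (fun _ _ => norm_nonneg _) fun i _ => loc_norm _ _

theorem card_Fc (hinj : Function.Injective P) (L : ℝ) :
    ((Fc P L).card : ℝ) ≤ Real.exp (3 * L + 1) := by
  let f : ∀ i, DirichletCharacter ℂ (P i) → ℝ := fun i χ => if χ = 1 then 1 else ((P i : ℝ) ^ 3)⁻¹
  have hf : ∀ i χ, 0 ≤ f i χ := fun i χ => by simp only [f]; split_ifs <;> positivity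
  have h4 := prod_one_add_sq P hinj univ le_rfl zero_le_one (f := fun i => ((P i : ℝ) ^ 2)⁻¹)
    (fun i => by positivity) (by simp) (by simp) fun i _ => (hP i).out.one_lt
  rw [Nat.cast_one, div_one] at h4
  calc _ = ∑ χ ∈ Fc P L, (1 : ℝ) := by simp
    _ ≤ ∑ χ ∈ Fc P L, Real.exp (3 * L) * ∏ i, f i (χ i) := by
        refine Finset.sum_le_sum fun χ hχ => ?_
        have e : ∏ i, f i (χ i) = Real.exp (-(3 * lp P (cs P χ))) := by
          rw [Real.exp_neg, show (3 : ℝ) = (3 : ℕ) by norm_num, Real.exp_nat_mul, exp_lp,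
            ← Finset.prod_pow, ← Finset.prod_inv_distrib, cs, Finset.prod_filter]
          simp [f]
        rw [e, ← Real.exp_add]
        exact Real.one_le_exp (by linarith [(mem_filter.1 hχ).2.2])
    _ ≤ Real.exp (3 * L) * ∏ i, ∑ χ, f i χ := by
        rw [← Finset.mul_sum, Fintype.prod_sum]
        exact mul_le_mul_of_nonneg_left (Finset.sum_le_sum_of_subset_of_nonneg (subset_univ _)
          fun χ _ _ => Finset.prod_nonneg fun i _ => hf _ _) (Real.exp_pos _).le
    _ ≤ _ := by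
        rw [Real.exp_add]
        refine mul_le_mul_of_nonneg_left (le_trans (Finset.prod_le_prod
          (fun i _ => Finset.sum_nonneg fun χ _ => hf i χ) fun i _ => ?_) h4) (Real.exp_pos _).le
        have h2 := two_le P i
        calc _ ≤ ∑ χ : DirichletCharacter ℂ (P i),
              ((if χ = 1 then 1 else 0) + ((P i : ℝ) ^ 3)⁻¹) := by
              refine Finset.sum_le_sum fun χ _ => ?_
              simp only [f]
              split_ifs <;> simp
          _ ≤ 1 + P i * ((P i : ℝ) ^ 3)⁻¹ := by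
              rw [Finset.sum_add_distrib, Finset.sum_ite_eq', if_pos (mem_univ _), Finset.sum_const,
                nsmul_eq_mul, Finset.card_univ]
              have := card_char (p := P i)
              gcongr
          _ = _ := by field_simp

theorem Xc_cancel (hinj : Function.Injective P) {K : Type} [Fintype K] [DecidableEq K]
    (B : Finset ι) (A : K → Finset ι) {χ χ' : Ch P} (h : χ ≠ χ')
    {y : (K → Finset ι) → ℝ} {C L : ℝ}
    (h1 : ∀ T, |y T| ≤ C) (h2 : ∀ T, y T ≠ 0 → ∑ j, lp P (T j) ≤ L) (a N : ℕ) :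
    ‖∑ n ∈ Ico a (a + N), (sw P B A (fun _ => 0) y n : ℂ) *
        (Xc P χ n * (starRingEnd ℂ) (Xc P χ' n))‖
      ≤ 2 * C ^ 2 * Real.exp (lp P B + (lp P (cs P χ) + lp P (cs P χ')) + 6 * L
        + 2 * Fintype.card K) := by
  obtain ⟨i0, h0⟩ := Function.ne_iff.1 h
  have := sw_cancel P hinj B A (fun i s => loc (χ i) s * (starRingEnd ℂ) (loc (χ' i) s))
    (fun i s => by
      rw [norm_mul, RCLike.norm_conj]
      exact mul_le_one₀ (loc_norm _ _) (norm_nonneg _) (loc_norm _ _)) (cs P χ ∪ cs P χ')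
    (fun i hi s => by
      simp only [cs, mem_union, mem_filter, mem_univ, true_and, not_or, not_not] at hi
      simp [loc, hi.1, hi.2]) i0 (loc_cancel h0).1 (loc_cancel h0).2 h1 h2 a N
  simp only [Finset.prod_mul_distrib, ← map_prod] at this
  refine this.trans ?_
  gcongr
  exact lp_union P _ _

theorem Xc_interval (hinj : Function.Injective P) {χ χ' : Ch P} (h : χ ≠ χ') (a b : ℕ) :
    ‖∑ n ∈ Ico a b, Xc P χ n * (starRingEnd ℂ) (Xc P χ' n)‖
      ≤ 2 * Real.exp (lp P (cs P χ) + lp P (cs P χ')) := by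
  rcases le_total b a with hab | hab
  · rw [Ico_eq_empty_of_le hab, Finset.sum_empty, norm_zero]; positivity
  obtain ⟨N, rfl⟩ := Nat.exists_eq_add_of_le hab
  have := Xc_cancel P hinj (K := Empty) ∅ (fun _ => ∅) h (y := fun _ => 1) (C := 1) (L := 0)
    (by simp) (by simp) a N
  simpa [sw, cB, Zf, Dj, psi, lp] using this

/-- Weighted primes. -/
noncomputable def aw (X : ℝ) (n : ℕ) : ℝ := if n.Prime then Real.log n * wt X n else 0

/-- Character sums over weighted primes. -/
noncomputable def Ps (X : ℝ) (Y : ℕ) (χ : Ch P) : ℂ := ∑ n ∈ Ioc 0 Y, aw X n * Xc P χ n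

theorem aw_nonneg (X : ℝ) (n : ℕ) : 0 ≤ aw X n := by
  unfold aw; split_ifs
  · exact mul_nonneg (Real.log_natCast_nonneg n) (wt_nonneg X n)
  · rfl

theorem aw_support {X : ℝ} (hX : 1 < X) {n : ℕ} (h : aw X n ≠ 0) :
    n.Prime ∧ X ≤ n ∧ (n : ℝ) ≤ 16 * X := by
  unfold aw at h
  split_ifs at h with h1
  · exact ⟨h1, wt_support hX (right_ne_zero_of_mul h)⟩
  · exact absurd rfl h

theorem aw_le (X : ℝ) {n Y : ℕ} (h : n ≤ Y) : aw X n ≤ Real.log Y * Real.log 4 := by
  unfold aw; split_ifs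
  · exact mul_le_mul (log_nat_mono h) (wt_le X n) (wt_nonneg X n) (Real.log_natCast_nonneg Y)
  · exact mul_nonneg (Real.log_natCast_nonneg Y) log4_pos.le

theorem aw_sum_le (X : ℝ) (Y : ℕ) : ∑ n ∈ Ioc 0 Y, aw X n ≤ Real.log 4 * Y * Real.log 4 := by
  refine le_trans ?_ (mul_le_mul_of_nonneg_right
    (Chebyshev.theta_le_log4_mul_x (Nat.cast_nonneg Y)) log4_pos.le)
  rw [Chebyshev.theta, Nat.floor_natCast, Finset.sum_filter, Finset.sum_mul]
  refine Finset.sum_le_sum fun n _ => ?_
  unfold aw; split_ifs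
  · exact mul_le_mul_of_nonneg_left (wt_le X n) (Real.log_natCast_nonneg n)
  · simp

theorem aw_sum_ge {X : ℕ} (hX : 0 < X)
    (h : Real.log ((8 * X : ℕ) + 1) + 2 * √(8 * X : ℕ) * Real.log (8 * X : ℕ) ≤ X) :
    (X : ℝ) ≤ ∑ n ∈ Ioc 0 (16 * X), aw X n := by
  have h1 := Chebyshev.theta_ge (8 * X)
  have h2 := Chebyshev.theta_le_log4_mul_x (Nat.cast_nonneg (2 * X))
  have l4 : Real.log 4 = 2 * Real.log 2 := by
    rw [show (4 : ℝ) = 2 ^ 2 by norm_num, Real.log_pow]; norm_num
  have l2 := Real.log_two_gt_d9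
  have hX' : (0 : ℝ) < X := by exact_mod_cast hX
  have h3 : Real.log 4 / 2 * (Chebyshev.theta (8 * X : ℕ) - Chebyshev.theta (2 * X : ℕ))
      ≤ ∑ n ∈ Ioc 0 (16 * X), aw X n := by
    simp only [Chebyshev.theta, Nat.floor_natCast, Finset.sum_filter]
    rw [← Finset.sum_Ioc_consecutive _ (Nat.zero_le (2 * X)) (by omega : 2 * X ≤ 8 * X),
      add_sub_cancel_left, Finset.mul_sum]
    refine (Finset.sum_le_sum fun n hn => ?_).trans (Finset.sum_le_sum_of_subset_of_nonneg
      (Ioc_subset_Ioc (Nat.zero_le _) (by omega)) fun n _ _ => aw_nonneg _ n)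
    rw [mem_Ioc] at hn
    unfold aw; split_ifs
    · rw [mul_comm]
      exact mul_le_mul_of_nonneg_left (wt_ge hX' (by exact_mod_cast hn.1.le)
        (by exact_mod_cast hn.2)) (Real.log_natCast_nonneg n)
    · simp
  refine le_trans ?_ h3
  have h4 : (4 * Real.log 2 - 1) * X
      ≤ Chebyshev.theta (8 * X : ℕ) - Chebyshev.theta (2 * X : ℕ) := by
    rw [l4] at h2
    push_cast at h h1 h2 ⊢
    linarith
  rw [l4]
  nlinarith [mul_le_mul_of_nonneg_left h4 (show 0 ≤ Real.log 2 by linarith),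
    mul_pos hX' (show 0 < Real.log 2 * (4 * Real.log 2 - 1) - 1 by nlinarith)]

open ArithmeticFunction in
theorem Ps_mean (hinj : Function.Injective P) (L : ℝ) {U : ℕ} (hU : 4 ≤ U)
    (hL : 2 * Real.exp (5 * L + 1) ≤ U) {X : ℝ} (hX : U < X) {Y : ℕ} (hY : 16 * X ≤ Y) :
    ∑ χ ∈ Fc P L, ‖Ps P X Y χ‖ ≤ (32 * X + 2 * U ^ 3) * Real.log (Y + 1) *
      (Real.log Y + Real.log 4) + Real.exp (3 * L + 1) * (2 * √Y * Real.log Y * Real.log 4) := by
  have hc := card_Fc P hinj L
  have hU' : (4 : ℝ) ≤ U := by exact_mod_cast hU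
  have h := mean_value (Fc P L) (Xc P) (D := 2 * Real.exp (2 * L)) (by positivity)
    (fun χ _ => Xc_mul P χ) (fun χ _ => Xc_norm P χ) (fun χ hχ a b => by
      obtain ⟨h1, h2⟩ := (mem_filter.1 hχ).2
      have := Xc_interval P hinj (χ := χ) (χ' := fun _ => 1) (fun h => h1 (by simp [h, cs])) a b
      simp only [Xc, loc, if_true, Finset.prod_const_one, map_one, mul_one] at this
      refine this.trans ?_
      gcongr
      have : lp P (cs P fun _ => 1) = 0 := by simp [cs, lp]
      linarith [lp_nonneg P (cs P χ)])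
    (fun χ hχ χ' hχ' h a b => (Xc_interval P hinj h a b).trans (by
      gcongr; linarith [(mem_filter.1 hχ).2.2, (mem_filter.1 hχ').2.2])) hU
    (le_trans (by
      rw [show 5 * L + 1 = 2 * L + (3 * L + 1) by ring, Real.exp_add, ← mul_assoc]
      gcongr) hL) hX hY
  have h2 : ∀ χ, ‖Ps P X Y χ‖ ≤ ‖∑ N ∈ Ioc 0 Y, (Λ N : ℂ) * Xc P χ N * wt X N‖
      + 2 * √Y * Real.log Y * Real.log 4 := fun χ => by
    refine (norm_le_insert' _ _).trans (add_le_add_right ?_ _)
    rw [Ps, ← Finset.sum_sub_distrib]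
    refine (norm_sum_le _ _).trans (le_trans ?_ (mul_le_mul_of_nonneg_right
      (Chebyshev.psi_sub_theta_le (x := Y) (by linarith)) log4_pos.le))
    rw [Chebyshev.psi, Chebyshev.theta, Nat.floor_natCast, Finset.sum_filter,
      ← Finset.sum_sub_distrib, Finset.sum_mul]
    refine Finset.sum_le_sum fun n _ => ?_
    unfold aw; split_ifs with h3
    · rw [vonMangoldt_apply_prime h3]
      push_cast
      ring_nf
      simp
    · simp only [Complex.ofReal_zero, zero_mul, zero_sub, norm_neg, norm_mul, Complex.norm_real,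
        sub_zero, Real.norm_of_nonneg vonMangoldt_nonneg, Real.norm_of_nonneg (wt_nonneg X n)]
      exact mul_le_mul (mul_le_of_le_one_right vonMangoldt_nonneg (Xc_norm P χ n)) (wt_le X n)
        (wt_nonneg X n) vonMangoldt_nonneg
  refine (Finset.sum_le_sum fun χ _ => h2 χ).trans ?_
  rw [Finset.sum_add_distrib, Finset.sum_const, nsmul_eq_mul]
  have := Real.log_natCast_nonneg Y
  have := log4_pos
  gcongr

end Pool.Agent.Lib.MP_bee098_nt
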