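import Pool.Agent.Lib.MP_bee098_nt.Upper

/-! Expansion of the sieve weight on the reduced residue classes. -/

open Finset

namespace Pool.Agent.Lib.MP_bee098_nt

variable {ι K : Type} [Fintype ι] [DecidableEq ι] [Fintype K] [DecidableEq K]
variable (P : ι → ℕ) [hP : ∀ i, Fact (P i).Prime]

/-- Local sieve functions on classes. -/
noncomputable def fC (A : K → Finset ι) (i : ι) (c : Option K) : K → ℝ :=
  fv P A i fun j => if c = some j then 1 else 0

/-- Coefficient functionals. -/
noncomputable def lam (A : K → Finset ι) (i : ι) : Option K → Option K → ℝ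
  | none, none => 1 - (univ.filter (i ∈ A ·)).card * om (P i)
  | none, some j => if i ∈ A j then om (P i) else 0
  | some j, c => if i ∈ A j then (if c = some j then 1 else 0) - (if c = none then 1 else 0) else 0

/-- Centred indicator functions. -/
noncomputable def et (i : ι) : Option K → Option K → ℝ
  | none, _ => 1
  | some j, c => (if c = some j then 1 else 0) - om (P i)

/-- Coefficients of the square of the sieve sum. -/
noncomputable def Dc (A : K → Finset ι) (y : (K → Finset ι) → ℝ) (ρ : ι → Option K) : ℝ :=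
  ∑ c : ι → Option K, (∏ i, lam P A i (ρ i) (c i)) * Zf y (fun i => fC P A i (c i)) ^ 2

/-- Support of a class vector. -/
def sp (ρ : ι → Option K) : Finset ι := univ.filter fun i => ρ i ≠ none

omit [Fintype ι] hP in
theorem lam_et (A : K → Finset ι) (i : ι) (c c' : Option K) (hc : ∀ j, c = some j → i ∈ A j) :
    ∑ a, lam P A i a c' * et P i a c = if c' = c then 1 else 0 := by
  rw [Fintype.sum_option]
  cases c' with
  | none =>
    simp only [lam, et, reduceCtorEq, if_false, if_true, ite_mul, zero_mul]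
    rw [← Finset.sum_filter]
    simp only [zero_sub, neg_mul, one_mul, neg_sub, Finset.sum_sub_distrib, Finset.sum_const,
      nsmul_eq_mul]
    cases c with
    | none => simp
    | some j => simp [hc j rfl]
  | some j' =>
    simp only [lam, et, reduceCtorEq, if_false, sub_zero, Option.some.injEq, mul_one]
    rw [Finset.sum_eq_single j' (fun j _ h => by simp [Ne.symm h]) (by simp)]
    by_cases h : i ∈ A j'
    · simp [h, eq_comm]
    · simp only [h, if_false, zero_mul, add_zero]
      rw [if_neg fun h1 => h (hc j' h1.symm)]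

omit hP in
theorem class_expand (A : K → Finset ι) (y : (K → Finset ι) → ℝ) (c : ι → Option K)
    (hc : ∀ i j, c i = some j → i ∈ A j) :
    Zf y (fun i => fC P A i (c i)) ^ 2 = ∑ ρ, Dc P A y ρ * ∏ i, et P i (ρ i) (c i) := by
  simp only [Dc, Finset.sum_mul]
  rw [Finset.sum_comm]
  have : ∀ c' : ι → Option K, ∑ ρ : ι → Option K, (∏ i, lam P A i (ρ i) (c' i)) *
      Zf y (fun i => fC P A i (c' i)) ^ 2 * ∏ i, et P i (ρ i) (c i)
      = if c' = c then Zf y (fun i => fC P A i (c' i)) ^ 2 else 0 := by
    intro c'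
    simp only [mul_right_comm _ (Zf y _ ^ 2), ← Finset.prod_mul_distrib]
    rw [← Finset.sum_mul, ← Fintype.prod_sum (fun i a => lam P A i a (c' i) * et P i a (c i))]
    simp only [fun i => lam_et P A i (c i) (c' i) (hc i)]
    rw [Fintype.prod_ite_zero]
    simp [funext_iff]
  simp [this]

omit [Fintype ι] in
theorem class_gram (A : K → Finset ι) (i : ι) (c0 : ℝ) (c : K → ℝ) :
    ∑ s, lam P A i none s * (c0 + ∑ j, c j * fC P A i s j) ^ 2 =
      (c0 - om (P i) ^ 2 * ∑ j ∈ univ.filter (i ∈ A ·), c j) ^ 2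
        - P i ^ 2 * (om (P i) ^ 2 * ∑ j ∈ univ.filter (i ∈ A ·), c j) ^ 2
        + ∑ j, vA P (A j) i * c j ^ 2 := by
  simp only [fC, fv_sum, vA_sum]
  rw [gram (lam P A i none) _ (fun s j => if s = some j then 1 else 0) (om (P i))
    (by simp [Fintype.sum_option, lam, ← Finset.sum_filter])
    (fun j hj => by simp [lam, (mem_filter.1 hj).2])
    (fun s j _ j' _ => by
      by_cases h1 : j = j'
      · subst h1; rw [if_pos rfl]; split_ifs <;> simp
      · rw [if_neg h1]
        split_ifs with h3 h4
        · exact absurd (Option.some.inj (h3.symm.trans h4)) h1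
        all_goals simp)]
  have h4 := om_mul P i
  generalize ∑ j ∈ univ.filter (i ∈ A ·), c j ^ 2 = Q
  generalize ∑ j ∈ univ.filter (i ∈ A ·), c j = C
  generalize om (P i) = w at *
  linear_combination (-2 * c0 * w * C + w ^ 2 * C ^ 2 * (P i * w + w - 1)) * h4

omit [Fintype ι] [DecidableEq K] in
theorem lam_nonneg (A : K → Finset ι) (i : ι)
    (hk : ∀ j, i ∈ A j → Fintype.card K * om (P i) ≤ 1) [DecidableEq K] (s : Option K) :
    0 ≤ lam P A i none s := by
  have := om_pos P i
  cases s with
  | none =>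
    simp only [lam]
    rcases (univ.filter (i ∈ A ·)).eq_empty_or_nonempty with h | ⟨j, hj⟩
    · simp [h]
    · have h1 : ((univ.filter (i ∈ A ·)).card : ℝ) ≤ Fintype.card K := by
        exact_mod_cast Finset.card_le_univ _
      nlinarith [hk j (mem_filter.1 hj).2]
  | some j => simp only [lam]; split_ifs <;> linarith

omit [Fintype ι] [Fintype K] hP in
theorem abs_fC_le [hP : ∀ i, Fact (P i).Prime] (A : K → Finset ι) (i : ι) (s : Option K) (j : K) :
    |fC P A i s j| ≤ 1 := abs_fv_le P A i j (by split_ifs <;> simp)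

theorem Dc_ge (A : K → Finset ι) (B : Finset ι) (hB : ∀ j, A j ⊆ B)
    (hk : ∀ i ∈ B, 2 * Fintype.card K * om (P i) ≤ 1) (y : (K → Finset ι) → ℝ) :
    (∏ i ∈ B, (1 - ((P i : ℝ) ^ 2)⁻¹)) * ∑ T ∈ Dj ι K,
      (∏ j, ∏ i ∈ T j, vA P (A j) i * (1 - 2 * Fintype.card K * oA P B i)) * y T ^ 2
      ≤ Dc P A y fun _ => none := by
  have hk' : ∀ i, 0 ≤ 1 - 2 * Fintype.card K * oA P B i := fun i => by
    unfold oA; split_ifs with h
    · linarith [hk i h]
    · simp
  have hb : ∀ i, 0 ≤ 1 - ((P i : ℝ) ^ 2)⁻¹ := fun i => by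
    have := inv_le_one_of_one_le₀ (show (1 : ℝ) ≤ P i ^ 2 by nlinarith [two_le P i])
    linarith
  have := Z_ge (fun i => lam P A i none) (fC P A)
    (fun i => if i ∈ B then 1 - ((P i : ℝ) ^ 2)⁻¹ else 1)
    (fun i j => vA P (A j) i * (1 - 2 * Fintype.card K * oA P B i))
    (fun i => lam_nonneg P A i fun j hj => by
      nlinarith [hk i (hB j hj), om_pos P i, Nat.cast_nonneg (α := ℝ) (Fintype.card K)])
    (fun i => by split_ifs; exacts [hb i, zero_le_one])
    (fun i j => mul_nonneg (vA_nonneg P _ i) (hk' i)) (fun i c0 c => by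
      rw [class_gram]
      simp only [mul_right_comm (vA P _ i), ← Finset.sum_mul, vA_sum]
      have h1 := sq_sum_le_card_mul_sum_sq (s := univ.filter (i ∈ A ·)) (f := c)
      have h2 : ((univ.filter (i ∈ A ·)).card : ℝ) ≤ Fintype.card K := by
        exact_mod_cast Finset.card_le_univ _
      have h3 : 0 ≤ ∑ j ∈ univ.filter (i ∈ A ·), c j ^ 2 := Finset.sum_nonneg fun _ _ => sq_nonneg _
      split_ifs with h
      · have h4 := hk' i
        rw [oA, if_pos h] at h4 ⊢
        have h5 := om_pos P i
        have h6 := two_le P i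
        generalize ∑ j ∈ univ.filter (i ∈ A ·), c j ^ 2 = Q at *
        generalize ∑ j ∈ univ.filter (i ∈ A ·), c j = C at *
        generalize om (P i) = w at *
        generalize (P i : ℝ) = p at *
        have h7 : C ^ 2 ≤ Fintype.card K * Q := h1.trans (by gcongr)
        have h8 : 0 ≤ (p ^ 2)⁻¹ * (p ^ 2 * w ^ 3 * Q * (1 - 2 * Fintype.card K * w)) := by positivity
        have h9 : p ^ 2 * w ^ 4 * C ^ 2 ≤ p ^ 2 * w ^ 4 * (Fintype.card K * Q) := by gcongr
        have h10 : (c0 / p - p * (w ^ 2 * C)) ^ 2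
            = (p ^ 2)⁻¹ * c0 ^ 2 - 2 * c0 * (w ^ 2 * C) + p ^ 2 * (w ^ 2 * C) ^ 2 := by
          field_simp; ring
        nlinarith [sq_nonneg (c0 / p - p * (w ^ 2 * C)), sq_nonneg (w ^ 2 * C)]
      · have : univ.filter (i ∈ A ·) = ∅ := filter_eq_empty_iff.2 fun j _ hj => h (hB j hj)
        simp [this]) y
  rwa [Finset.prod_ite_mem, univ_inter] at this

theorem Dc_le (A : K → Finset ι) (B : Finset ι) (hB : ∀ j, A j ⊆ B)
    (hk : ∀ i ∈ B, 2 * Fintype.card K * om (P i) ≤ 1) (y : (K → Finset ι) → ℝ)
    (ρ : ι → Option K) : |Dc P A y ρ| ≤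
      (∏ i ∈ B, (1 + 2 * ((P i : ℝ) ^ 2)⁻¹)) * (2 * (Fintype.card K + 1)) ^ (sp ρ).card *
        ∑ T ∈ Dj ι K, (∏ j, ∏ i ∈ T j, if i ∈ sp ρ then 1 else vA P B i) * y T ^ 2 := by
  have := Z_le (fun i s => |lam P A i (ρ i) s|) (fC P A)
    (fun i => (if i ∈ B then 1 + 2 * ((P i : ℝ) ^ 2)⁻¹ else 1) *
      if i ∈ sp ρ then 2 * ((Fintype.card K : ℝ) + 1) else 1)
    (fun i j => if i ∈ sp ρ then 1 else vA P B i) (fun i s => abs_nonneg _)
    (fun i => by split_ifs <;> positivity)
    (fun i j => by split_ifs; exacts [zero_le_one, vA_nonneg P B i]) (fun i c0 c => by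
      have h6 := two_le P i
      cases h : ρ i with
      | none =>
        have h1 : i ∉ sp ρ := by simp [sp, h]
        simp only [h1, if_false, mul_one]
        rw [Finset.sum_congr rfl fun s _ => by
          rw [abs_of_nonneg (lam_nonneg P A i (fun j hj => by
            nlinarith [hk i (hB j hj), om_pos P i, Nat.cast_nonneg (α := ℝ) (Fintype.card K)]) s)],
          class_gram]
        have h2 : ∑ j, vA P (A j) i * c j ^ 2 ≤ ∑ j, vA P B i * c j ^ 2 := by
          refine Finset.sum_le_sum fun j _ => mul_le_mul_of_nonneg_right ?_ (sq_nonneg _)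
          by_cases h3 : i ∈ A j
          · simp [vA, h3, hB j h3]
          · rw [vA, if_neg h3]; exact vA_nonneg P B i
        have h3 : 0 ≤ ∑ j, vA P B i * c j ^ 2 :=
          Finset.sum_nonneg fun j _ => mul_nonneg (vA_nonneg P B i) (sq_nonneg _)
        split_ifs with h4
        · generalize om (P i) ^ 2 * ∑ j ∈ univ.filter (i ∈ A ·), c j = d
          generalize (P i : ℝ) = p at *
          have h10 : 2 * (c0 / p + p * d / 2) ^ 2
              = 2 * (p ^ 2)⁻¹ * c0 ^ 2 + 2 * c0 * d + p ^ 2 * d ^ 2 / 2 := by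
            field_simp; ring
          have h11 : 0 ≤ (p ^ 2)⁻¹ * ∑ j, vA P B i * c j ^ 2 := by positivity
          nlinarith [sq_nonneg (c0 / p + p * d / 2),
            mul_nonneg (show 0 ≤ p ^ 2 - 2 by nlinarith) (sq_nonneg d)]
        · have : univ.filter (i ∈ A ·) = ∅ := filter_eq_empty_iff.2 fun j _ hj => h4 (hB j hj)
          simpa [this] using h2
      | some j =>
        have h1 : i ∈ sp ρ := by simp [sp, h]
        simp only [h1, if_true, one_mul]
        have h2 : ∀ s, (c0 + ∑ j, c j * fC P A i s j) ^ 2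
            ≤ (Fintype.card K + 1) * (c0 ^ 2 + ∑ j, c j ^ 2) := fun s => by
          have h3 := sq_sum_le_card_mul_sum_sq (s := (univ : Finset (Option K)))
            (f := fun a => a.elim c0 fun j => c j * fC P A i s j)
          simp only [Fintype.sum_option, Option.elim_none, Option.elim_some, Finset.card_univ,
            Fintype.card_option, Nat.cast_add, Nat.cast_one] at h3
          refine h3.trans (mul_le_mul_of_nonneg_left (add_le_add_right
            (Finset.sum_le_sum fun j _ => ?_) _) (by positivity))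
          rw [mul_pow]
          exact mul_le_of_le_one_right (sq_nonneg _) ((sq_le_one_iff_abs_le_one _).2
            (abs_fC_le P A i s j))
        have h3 : ∑ s, |lam P A i (some j) s| ≤ 2 := by
          calc _ ≤ ∑ s : Option K, ((if s = some j then (1 : ℝ) else 0)
                + if s = none then 1 else 0) := by
                refine Finset.sum_le_sum fun s _ => ?_
                simp only [lam]
                split_ifs <;> norm_num
            _ = 2 := by rw [Finset.sum_add_distrib]; simp; norm_num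
        have h4 : 0 ≤ ((Fintype.card K : ℝ) + 1) * (c0 ^ 2 + ∑ j, c j ^ 2) := by positivity
        refine (Finset.sum_le_sum fun s _ => mul_le_mul_of_nonneg_left (h2 s) (abs_nonneg _)).trans ?_
        rw [← Finset.sum_mul]
        refine (mul_le_mul_of_nonneg_right h3 h4).trans ?_
        rw [← mul_assoc, mul_assoc _ (2 * _)]
        refine le_mul_of_one_le_left (by positivity) ?_
        split_ifs
        · have : 0 ≤ ((P i : ℝ) ^ 2)⁻¹ := by positivity
          linarith
        · rfl) y
  rw [Finset.prod_mul_distrib, Finset.prod_ite_mem, Finset.prod_ite_mem, univ_inter, univ_inter,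
    Finset.prod_const] at this
  refine le_trans ?_ this
  refine (Finset.abs_sum_le_sum_abs _ _).trans (le_of_eq (Finset.sum_congr rfl fun c _ => ?_))
  rw [abs_mul, Finset.abs_prod, abs_sq]

omit hP in
theorem Dc_support (A : K → Finset ι) {y : (K → Finset ι) → ℝ} {L : ℝ}
    (h2 : ∀ T, y T ≠ 0 → ∑ j, lp P (T j) ≤ L) (ρ : ι → Option K) (h : Dc P A y ρ ≠ 0) :
    (∀ i j, ρ i = some j → i ∈ A j) ∧ lp P (sp ρ) ≤ 2 * L := by
  have e := pair_expand (𝕜 := ℝ) (fun i => lam P A i (ρ i)) (fC P A) y
  simp only [RCLike.ofReal_real_eq_id, id] at e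
  rw [Dc, e] at h
  obtain ⟨T, _, h⟩ := Finset.exists_ne_zero_of_sum_ne_zero h
  obtain ⟨T', _, h⟩ := Finset.exists_ne_zero_of_sum_ne_zero h
  simp only [mul_ne_zero_iff, Finset.prod_ne_zero_iff] at h
  refine ⟨fun i j hj => ?_, ?_⟩
  · by_contra h3
    apply h.2 i (mem_univ _)
    simp [hj, lam, h3]
  · have h3 : sp ρ ⊆ univ.biUnion T ∪ univ.biUnion T' := fun i hi => by
      by_contra h4
      simp only [mem_union, not_or] at h4
      apply h.2 i (mem_univ _)
      simp only [psi_eq_one h4.1, psi_eq_one h4.2]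
      obtain ⟨j, hj⟩ := Option.ne_none_iff_exists'.1 (mem_filter.1 hi).2
      by_cases h5 : i ∈ A j <;> simp [hj, lam, h5]
    linarith [lp_mono P h3, lp_union P (univ.biUnion T) (univ.biUnion T'), lp_biUnion P univ T,
      lp_biUnion P univ T', h2 T h.1.1, h2 T' h.1.2]

end Pool.Agent.Lib.MP_bee098_nt
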