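import Pool.Agent.Lib.MP_bee098_nt.Errors

/-! Upper bounds for sums of the sieve weight, and the choice of the coefficients. -/

open Finset

namespace Pool.Agent.Lib.MP_bee098_nt

variable {ι K : Type} [Fintype ι] [DecidableEq ι] [Fintype K] [DecidableEq K]
variable (P : ι → ℕ)

/-- The cutoff function. -/
noncomputable def gf (J : ℕ) (l : ℝ) (T : Finset ι) : ℝ :=
  ∑ j ∈ range J, (2⁻¹ : ℝ) ^ j * cut P (2 ^ j * l) T

theorem geom_le (J : ℕ) : ∑ j ∈ range J, (2⁻¹ : ℝ) ^ j ≤ 2 := by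
  simpa using sum_geometric_two_le J

theorem dyadic_sq (J : ℕ) (c : ℕ → ℝ) (hc : ∀ j, c j = 0 ∨ c j = 1) :
    (∑ j ∈ range J, (2⁻¹ : ℝ) ^ j * c j) ^ 2 ≤ ∑ j ∈ range J, 4 * (4⁻¹ : ℝ) ^ j * c j := by
  induction J generalizing c with
  | zero => simp
  | succ J ih =>
    have h1 := ih (fun j => c (j + 1)) fun j => hc _
    have h0 : ∀ j, 0 ≤ c j ∧ c j ≤ 1 := fun j => by rcases hc j with h | h <;> simp [h]
    have h2 : ∑ j ∈ range J, (2⁻¹ : ℝ) ^ j * c (j + 1) ≤ 2 :=
      (Finset.sum_le_sum fun j _ => mul_le_of_le_one_right (by positivity) (h0 _).2).trans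
        (geom_le J)
    have h3 : 0 ≤ ∑ j ∈ range J, (2⁻¹ : ℝ) ^ j * c (j + 1) :=
      Finset.sum_nonneg fun j _ => mul_nonneg (by positivity) (h0 _).1
    simp only [Finset.sum_range_succ', pow_succ', mul_assoc, ← Finset.mul_sum] at h1 ⊢
    rcases hc 0 with h | h <;> rw [h] <;> nlinarith

omit [Fintype ι] [DecidableEq ι] in
theorem gf_nonneg (J : ℕ) (l : ℝ) (T : Finset ι) : 0 ≤ gf P J l T :=
  Finset.sum_nonneg fun _ _ => mul_nonneg (by positivity) (cut_nonneg P _ T)

omit [Fintype ι] [DecidableEq ι] in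
theorem gf_le (J : ℕ) (l : ℝ) (T : Finset ι) : gf P J l T ≤ 2 :=
  (Finset.sum_le_sum fun _ _ => mul_le_of_le_one_right (by positivity) (cut_le P _ T)).trans
    (geom_le J)

omit [Fintype ι] [DecidableEq ι] in
theorem gf_anti (J : ℕ) (l : ℝ) : Antitone (gf P J l) := fun _ _ h =>
  Finset.sum_le_sum fun _ _ => mul_le_mul_of_nonneg_left (cut_anti P _ h) (by positivity)

omit [Fintype ι] [DecidableEq ι] in
theorem gf_support (J : ℕ) {l : ℝ} (hl : 0 ≤ l) (T : Finset ι) (h : gf P J l T ≠ 0) :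
    lp P T ≤ 2 ^ J * l := by
  obtain ⟨j, hj, h1⟩ := Finset.exists_ne_zero_of_sum_ne_zero h
  have h2 : lp P T ≤ 2 ^ j * l := by
    by_contra h3
    simp [cut, h3] at h1
  refine h2.trans ?_
  gcongr
  · norm_num
  · exact (mem_range.1 hj).le

omit [Fintype ι] [DecidableEq ι] in
theorem gf_sq (J : ℕ) (l : ℝ) (T : Finset ι) :
    gf P J l T ^ 2 ≤ ∑ j ∈ range J, 4 * (4⁻¹ : ℝ) ^ j * cut P (2 ^ j * l) T :=
  dyadic_sq J _ fun j => by unfold cut; split_ifs <;> simp

omit [Fintype ι] [DecidableEq ι] in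
theorem cut_le_gf {J : ℕ} (hJ : 0 < J) (l : ℝ) (T : Finset ι) : cut P l T ≤ gf P J l T ^ 2 := by
  have h := Finset.single_le_sum (f := fun j => (2⁻¹ : ℝ) ^ j * cut P (2 ^ j * l) T)
    (fun _ _ => mul_nonneg (by positivity) (cut_nonneg P _ T)) (mem_range.2 hJ)
  simp only [pow_zero, one_mul] at h
  refine le_trans (le_of_eq ?_) (pow_le_pow_left₀ (cut_nonneg P l T) h 2)
  unfold cut; split_ifs <;> simp

omit [DecidableEq ι] in
theorem gf_low (J : ℕ) {l a : ℝ} {o : ι → ℝ}
    (h : ∀ j < J, 2 ^ j * l * a ≤ ws o (cut P (2 ^ j * l))) : J * l * a ≤ ws o (gf P J l) := by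
  unfold gf
  rw [ws_sum, mul_assoc, ← card_range J, ← nsmul_eq_mul, card_range]
  refine le_trans (le_of_eq (by rw [card_range])) (Finset.card_nsmul_le_sum _ _ _ fun j hj => ?_)
  refine le_trans (le_of_eq ?_) (mul_le_mul_of_nonneg_left (h j (mem_range.1 hj)) (by positivity))
  rw [inv_pow]
  field_simp

omit [DecidableEq ι] in
theorem gf_up (J : ℕ) {l b : ℝ} (hl : 0 ≤ l) (hb : 0 ≤ b) {v : ι → ℝ} (hv : ∀ i, 0 ≤ v i)
    (h : ∀ j < J, ws v (cut P (2 ^ j * l)) ≤ 2 ^ j * l * b) :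
    ws v (fun T => gf P J l T ^ 2) ≤ 8 * l * b ∧
      ws v (fun T => gf P J l T ^ 2 * lp P T) ≤ 4 * J * l ^ 2 * b := by
  have e : ∀ j, (4⁻¹ : ℝ) ^ j * 2 ^ j = 2⁻¹ ^ j := fun j => by rw [← mul_pow]; norm_num
  have e' : ∀ j, (2⁻¹ : ℝ) ^ j * 2 ^ j = 1 := fun j => by rw [← mul_pow]; norm_num
  constructor
  · refine (ws_mono hv (fun _ => le_rfl) (fun T => (sq_nonneg _).trans (gf_sq P J l T))
      (gf_sq P J l)).trans ?_
    rw [ws_sum]
    calc _ ≤ ∑ j ∈ range J, 4 * l * b * (2⁻¹ : ℝ) ^ j := by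
          refine Finset.sum_le_sum fun j hj => (mul_le_mul_of_nonneg_left (h j (mem_range.1 hj))
            (by positivity)).trans (le_of_eq ?_)
          rw [← e]; ring
      _ ≤ 4 * l * b * 2 := by rw [← Finset.mul_sum]; gcongr; exact geom_le J
      _ = _ := by ring
  · refine (ws_mono (γ' := fun T => ∑ j ∈ range J, 4 * (4⁻¹ : ℝ) ^ j * (2 ^ j * l) *
      cut P (2 ^ j * l) T) hv (fun _ => le_rfl) (fun T => Finset.sum_nonneg fun j _ =>
        mul_nonneg (by positivity) (cut_nonneg P _ T)) fun T => ?_).trans ?_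
    · refine (mul_le_mul_of_nonneg_right (gf_sq P J l T) (lp_nonneg P T)).trans ?_
      rw [Finset.sum_mul]
      refine Finset.sum_le_sum fun j _ => ?_
      unfold cut; split_ifs with h1
      · rw [mul_one, mul_one]; gcongr
      · simp
    · rw [ws_sum]
      refine (Finset.sum_le_card_nsmul _ _ (4 * l ^ 2 * b) fun j hj =>
        (mul_le_mul_of_nonneg_left (h j (mem_range.1 hj)) (by positivity)).trans
          (le_of_eq ?_)).trans (le_of_eq ?_)
      · linear_combination 4 * l ^ 2 * b * 2 ^ j * e j + 4 * l ^ 2 * b * e' j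
      · rw [card_range, nsmul_eq_mul]; ring

variable [hP : ∀ i, Fact (P i).Prime]

omit [Fintype ι] [DecidableEq ι] in
theorem cast_ne_zero {n : ℕ} (hn : n.Prime) {i : ι} (h : P i < n) : (n : ZMod (P i)) ≠ 0 :=
  fun h1 => h.ne ((Nat.prime_dvd_prime_iff_eq (hP i).out hn).1
    ((ZMod.natCast_eq_zero_iff _ _).1 h1))

theorem Ps_second (hinj : Function.Injective P) {L : ℝ}
    (hs : ∀ p : ℕ, p.Prime → p ≤ Real.exp L → ∃ i, P i = p) (hPL : ∀ i, P i ≤ Real.exp L)
    (hL : 3 ≤ Real.exp L) {L' : ℝ} (hL' : 0 ≤ L') {X : ℝ} (hX : Real.exp L < X) (Y : ℕ) :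
    ∑ χ ∈ Fc P L', ‖Ps P X Y χ‖ ^ 2 ≤ (Y * (2 * Real.exp 13 / L)
      + 4 * Real.exp (5 * L' + 6 * L + 3)) * (Real.log Y * Y * Real.log 4 ^ 3) := by
  have hL0 : 0 < L := by rw [← Real.one_lt_exp_iff]; linarith
  let y : (Unit → Finset ι) → ℝ := yy P (cut P L) L
  have y0 := yy_nonneg (K := Unit) P (cut_nonneg P L) L
  have y1 : ∀ T, |y T| ≤ 1 := fun T => by
    rw [abs_of_nonneg (y0 T)]
    exact (yy_le P (cut_nonneg P L) L T).trans (by simpa using cut_le P L _)
  have y2 : ∀ T, y T ≠ 0 → ∑ j, lp P (T j) ≤ L := fun T h => by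
    by_contra h1
    exact h (if_neg h1)
  set G := ws (oA P univ) (cut P L) with hG
  have g1 : L ≤ G := by simpa [Vp] using ws_low P hinj hs univ
  have g2 : 1 ≤ G := le_trans (by simp [cut, lp, hL0.le])
    (ws_empty (oA_nonneg P univ) (cut_nonneg P L))
  have g3 : (G ^ 2)⁻¹ ≤ 1 := inv_le_one_of_one_le₀ (one_le_pow₀ g2)
  have hc := card_Fc P hinj L'
  have h := dual_sieve (Fc P L') (Ico 1 (1 + Y)) (Xc P)
    (fun n => (G ^ 2)⁻¹ * sw P ∅ (fun _ : Unit => univ) (fun _ => 0) y n) (fun n => aw X n)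
    (B := Y * (2 * Real.exp 13 / L) + 2 * Real.exp (6 * L + 2))
    (E := 2 * Real.exp (2 * L' + 6 * L + 2)) (by positivity)
    (fun n _ => mul_nonneg (by positivity) (sw_nonneg P _ _ _ _ n)) (fun n _ hn => by
      obtain ⟨h1, h2, -⟩ := aw_support (show 1 < X by linarith) (Complex.ofReal_ne_zero.1 hn)
      have h3 : Zf y (fun i => fU P (fun _ : Unit => univ) (fun _ => 0) i n) = G := by
        rw [Zf, show Dj ι Unit = univ by simp [Dj], ← (Equiv.funUnique Unit _).symm.sum_comp, hG, ws]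
        refine Finset.sum_congr rfl fun U _ => ?_
        rw [prod_psi]
        have : ∀ i, (n : ZMod (P i)) ≠ 0 := fun i => cast_ne_zero P h1 (by
          exact_mod_cast ((hPL i).trans_lt hX).trans_le h2)
        simp only [y, yy, cut, fU, fv, oA]
        by_cases h4 : lp P U ≤ L <;> simp [h4, this]
      rw [sw, h3]
      simp only [cB, notMem_empty, false_and, if_false, Finset.prod_const_one, one_mul]
      rw [inv_mul_cancel₀ (by positivity)]) (fun χ _ => Xc_norm P χ) (by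
      rw [← Finset.mul_sum]
      have h1 := sw_sum P hinj ∅ (fun _ : Unit => univ) (fun _ => 0) (by simp) (by simp) y1 y2 1 Y
      have h2 := quad_le (b := fun i (_ : Unit) => vA P univ i) (fun i _ => vA_nonneg P _ i) y0
        (G := 1) (γ := fun _ => cut P L) fun T => by
          rw [one_mul]; exact yy_le P (cut_nonneg P L) L T
      have h3 := ws_up P hinj univ ∅ (by simp) (by simp) hL
      have h4 : (fun T => cut P L T ^ 2) = cut P L := funext fun T => by
        unfold cut; split_ifs <;> simp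
      simp only [Vp, lp, Finset.prod_empty, Finset.sum_empty, one_mul, mul_one, one_pow, h4,
        Fintype.card_unique, Nat.cast_one, zero_add, Finset.prod_const, card_univ, pow_one]
        at h1 h2 h3
      refine (mul_le_mul_of_nonneg_left (h1.trans (add_le_add_left (mul_le_mul_of_nonneg_left
        (h2.trans h3) (Nat.cast_nonneg Y)) _)) (by positivity)).trans ?_
      rw [mul_add]
      refine add_le_add ?_ (mul_le_of_le_one_left (by positivity) g3)
      calc _ ≤ (L ^ 2)⁻¹ * (Y * (L * (2 * Real.exp 13))) := by gcongr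
        _ = _ := by field_simp)
    (fun χ hχ χ' hχ' h => by
      have h1 := Xc_cancel P hinj ∅ (fun _ : Unit => univ) h y1 y2 1 Y
      simp only [Complex.ofReal_mul, mul_assoc]
      rw [← Finset.mul_sum, norm_mul, Complex.norm_real, Real.norm_of_nonneg (by positivity)]
      refine (mul_le_of_le_one_left (norm_nonneg _) g3).trans (h1.trans ?_)
      have : lp P ∅ = 0 := by simp [lp]
      rw [one_pow, mul_one, Fintype.card_unique, Nat.cast_one]
      gcongr ?_ * Real.exp ?_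
      linarith [(mem_filter.1 hχ).2.2, (mem_filter.1 hχ').2.2])
  have e : Ico 1 (1 + Y) = Ioc 0 Y := by ext; simp; omega
  rw [e] at h
  refine h.trans (mul_le_mul ?_ ?_ (Finset.sum_nonneg fun _ _ => by positivity) (by positivity))
  · have h1 : Real.exp (2 * L' + 6 * L + 2) * (Fc P L').card ≤ Real.exp (5 * L' + 6 * L + 3) := by
      rw [show 5 * L' + 6 * L + 3 = (2 * L' + 6 * L + 2) + (3 * L' + 1) by ring,
        Real.exp_add _ (3 * L' + 1)]
      gcongr
    have h2 : Real.exp (6 * L + 2) ≤ Real.exp (5 * L' + 6 * L + 3) :=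
      Real.exp_le_exp.2 (by linarith)
    linarith
  · calc _ ≤ ∑ n ∈ Ioc 0 Y, Real.log Y * Real.log 4 * aw X n := by
          refine Finset.sum_le_sum fun n hn => ?_
          rw [Complex.norm_real, Real.norm_of_nonneg (aw_nonneg X n), sq]
          exact mul_le_mul_of_nonneg_right (aw_le X (mem_Ioc.1 hn).2) (aw_nonneg X n)
      _ ≤ Real.log Y * Real.log 4 * (Real.log 4 * Y * Real.log 4) := by
          rw [← Finset.mul_sum]
          exact mul_le_mul_of_nonneg_left (aw_sum_le X Y)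
            (mul_nonneg (Real.log_natCast_nonneg Y) log4_pos.le)
      _ = _ := by ring

omit [Fintype ι] [DecidableEq ι] [DecidableEq K] hP in
theorem abs_yy {g : Finset ι → ℝ} (h0 : ∀ T, 0 ≤ g T) (h2 : ∀ T, g T ≤ 2) (L : ℝ)
    (T : K → Finset ι) : |yy P g L T| ≤ 2 ^ Fintype.card K := by
  rw [abs_of_nonneg (yy_nonneg P h0 L T), ← card_univ, ← Finset.prod_const]
  exact (yy_le P h0 L T).trans (Finset.prod_le_prod (fun j _ => h0 _) fun j _ => h2 _)

omit hP in
theorem quad_yy {g : Finset ι → ℝ} (h0 : ∀ T, 0 ≤ g T) (L : ℝ) {v : ι → ℝ} (hv : ∀ i, 0 ≤ v i) :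
    ∑ T ∈ Dj ι K, (∏ j, ∏ i ∈ T j, v i) * yy P g L T ^ 2
      ≤ ws v (fun T => g T ^ 2) ^ Fintype.card K := by
  simpa using quad_le (b := fun i (_ : K) => v i) (fun i _ => hv i) (yy_nonneg P h0 L) (G := 1)
    (γ := fun _ => g) fun T => by rw [one_mul]; exact yy_le P h0 L T

theorem s1_upper (hinj : Function.Injective P) (A B : Finset ι) (hAB : Disjoint A B) (h : K → ℕ)
    (hd : ∀ i ∈ A, ∀ j j', (h j : ZMod (P i)) = h j' → j = j') {g : Finset ι → ℝ}
    (h0 : ∀ T, 0 ≤ g T) (h2 : ∀ T, g T ≤ 2) (L : ℝ) (N : ℕ) :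
    ∑ n ∈ range N, sw P B (fun _ => A) h (yy P g L) n ≤
      N * (Vp P B * ws (vA P A) (fun T => g T ^ 2) ^ Fintype.card K) + 2 * (2 ^ Fintype.card K) ^ 2
        * Real.exp (lp P B + 6 * L + 2 * Fintype.card K) := by
  have := sw_sum P hinj B (fun _ => A) h (fun _ => hAB) (fun i j j' hi _ => hd i hi j j')
    (abs_yy P h0 h2 L) (L := L) (fun T h => by by_contra h1; exact h (if_neg h1)) 0 N
  rw [zero_add, ← range_eq_Ico] at this
  refine this.trans ?_
  have := Vp_pos P B
  gcongr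
  exact quad_yy P h0 L (vA_nonneg P A)

theorem penalty (hinj : Function.Injective P) (A B U : Finset ι) (hAB : Disjoint A B)
    (hUB : Disjoint U B) (h : K → ℕ) (hd : ∀ i ∈ A, ∀ j j', (h j : ZMod (P i)) = h j' → j = j')
    (a : ℕ) (ha : ∀ i ∈ U, ∀ j, (a : ZMod (P i)) ≠ h j) {g : Finset ι → ℝ}
    (h0 : ∀ T, 0 ≤ g T) (h2 : ∀ T, g T ≤ 2) {L : ℝ}
    (hs : ∀ p : ℕ, p.Prime → p ≤ Real.exp L → ∃ i, P i = p) (hPL : ∀ i, P i ≤ Real.exp L)
    (hL : 3 ≤ Real.exp L) (hU : ∀ i ∈ U, 2 * L * om (P i) ≤ Real.log (P i)) (N : ℕ) :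
    ∑ n ∈ range N, (if ∀ i, ((n + a : ℕ) : ZMod (P i)) ≠ 0 then
      sw P B (fun _ => A) h (yy P g L) n else 0) ≤
      N * (Vp P B * (ws (vA P A) (fun T => g T ^ 2) ^ Fintype.card K *
        (8 * Real.exp 13 / (L * Vp P Uᶜ)))) + 2 * (2 ^ Fintype.card K) ^ 2
        * Real.exp (lp P B + 12 * L + 2 * (Fintype.card K + 1)) := by
  have hL0 : 0 < L := by rw [← Real.one_lt_exp_iff]; linarith
  let G : (K → Finset ι) → ℝ := fun T => ∑ S ∈ Fr T, cut P L S * ∏ i ∈ S, oA P U i
  have hG : ∀ T, 1 ≤ G T := fun T => le_trans (by simp [cut, lp, hL0.le])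
    (Finset.single_le_sum (f := fun S => cut P L S * ∏ i ∈ S, oA P U i) (fun S _ => mul_nonneg
      (cut_nonneg P L S) (Finset.prod_nonneg fun i _ => oA_nonneg P U i))
      (mem_Fr.2 fun j => disjoint_empty_left (T j)))
  have hV := Vp_pos P Uᶜ
  have hG' : ∀ T, yy P g L T ≠ 0 → L * Vp P Uᶜ / 2 ≤ G T := fun T hT => by
    have h3 : ∑ j, lp P (T j) ≤ L := by by_contra h1; exact hT (if_neg h1)
    have h4 : 2 * L * ∑ j, ∑ i ∈ T j, oA P U i ≤ ∑ j, lp P (T j) := by
      simp only [Finset.mul_sum, lp]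
      refine Finset.sum_le_sum fun j _ => Finset.sum_le_sum fun i _ => ?_
      unfold oA; split_ifs with h5
      · exact hU i h5
      · simpa using Real.log_natCast_nonneg _
    have h5 : ∑ j, ∑ i ∈ T j, oA P U i ≤ 1 / 2 := by nlinarith
    have h6 := ws_low P hinj hs U
    refine le_trans ?_ (ws_free (oA_nonneg P U) (cut_nonneg P L) (cut_anti P L) T)
    nlinarith [mul_pos hL0 hV]
  let y : (Option K → Finset ι) → ℝ := fun T =>
    yy P g L (fun j => T (some j)) * cut P L (T none) / G fun j => T (some j)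
  let A' : Option K → Finset ι := fun o => o.elim U fun _ => A
  let h' : Option K → ℕ := fun o => o.elim a h
  have := sw_sum P hinj B A' h' (by rintro (_ | j); exacts [hUB, hAB]) (by
      rintro i (_ | j) (_ | j') h1 h2 h3
      · rfl
      · exact absurd h3 (ha i h1 j')
      · exact absurd h3.symm (ha i h2 j)
      · rw [hd i h1 j j' h3]) (y := y) (C := 2 ^ Fintype.card K) (L := 2 * L) (fun T => by
      rw [abs_div, abs_mul, abs_of_nonneg (cut_nonneg P L _), abs_of_pos (zero_lt_one.trans_le (hG _))]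
      exact (div_le_self (mul_nonneg (abs_nonneg _) (cut_nonneg P L _)) (hG _)).trans
        ((mul_le_of_le_one_right (abs_nonneg _) (cut_le P L _)).trans (abs_yy P h0 h2 L _)))
    (fun T hT => by
      simp only [y, yy, cut] at hT
      rw [Fintype.sum_option]
      split_ifs at hT with h1 h2
      · linarith
      all_goals simp at hT) 0 N
  rw [zero_add, ← range_eq_Ico, Fintype.card_option, Nat.cast_add, Nat.cast_one,
    show 6 * (2 * L) = 12 * L by ring] at this
  refine le_trans (Finset.sum_le_sum fun n _ => ?_) (this.trans ?_)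
  · split_ifs with h1
    · refine le_of_eq ?_
      rw [sw, sw, Z_option]
      congr 3
      funext T
      have e : ∀ i, fU P A' h' i n none = oA P U i := fun i => by
        have := h1 i
        push_cast at this
        simp [fU, fv, oA, A', h', this]
      simp only [e, y, Option.elim_some, Option.elim_none, div_mul_eq_mul_div, mul_assoc,
        ← Finset.sum_div, ← Finset.mul_sum]
      exact (mul_div_cancel_right₀ _ (by linarith [hG T])).symm
    · exact sw_nonneg P _ _ _ _ n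
  · have h7 := Vp_pos P B
    gcongr
    rw [sum_Dj_option]
    refine le_trans ?_ (mul_le_mul_of_nonneg_right (quad_yy P h0 L (vA_nonneg P A))
      (by positivity))
    rw [Finset.sum_mul]
    refine Finset.sum_le_sum fun T _ => ?_
    simp only [y, A', Fintype.prod_option, Option.elim_some, Option.elim_none]
    by_cases h3 : yy P g L T = 0
    · simp [h3]
    have h4 := ws_up P hinj U Uᶜ disjoint_compl_right (fun i _ => hPL i) hL
    have h5 : 0 ≤ (∏ j, ∏ i ∈ T j, vA P A i) * yy P g L T ^ 2 := mul_nonneg (Finset.prod_nonneg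
      fun j _ => Finset.prod_nonneg fun i _ => vA_nonneg P A i) (sq_nonneg _)
    calc _ = (∏ j, ∏ i ∈ T j, vA P A i) * yy P g L T ^ 2 *
          ((∑ S ∈ Fr T, cut P L S * ∏ i ∈ S, vA P U i) / G T ^ 2) := by
          rw [Finset.sum_div, Finset.mul_sum]
          refine Finset.sum_congr rfl fun S _ => ?_
          unfold cut; split_ifs <;> ring
      _ ≤ (∏ j, ∏ i ∈ T j, vA P A i) * yy P g L T ^ 2 *
          (L * (2 * Real.exp 13 * Vp P Uᶜ) / (L * Vp P Uᶜ / 2) ^ 2) := by
          gcongr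
          · exact le_trans (Finset.sum_le_sum_of_subset_of_nonneg (subset_univ _) fun S _ _ =>
              mul_nonneg (cut_nonneg P L S) (Finset.prod_nonneg fun i _ => vA_nonneg P U i)) h4
          · exact hG' T h3
      _ = _ := by field_simp; norm_num

end Pool.Agent.Lib.MP_bee098_nt
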