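import Pool.Agent.Lib.MP_bee098_nt.Lower

/-! The error term on average over the shifts. -/

open Finset

namespace Pool.Agent.Lib.MP_bee098_nt

variable {ι K : Type} [Fintype ι] [DecidableEq ι] [Fintype K] [DecidableEq K]
variable (P : ι → ℕ) [hP : ∀ i, Fact (P i).Prime]

/-- Local weights of characters. -/
noncomputable def bl (S : Finset ι) (i : ι) (χ : DirichletCharacter ℂ (P i)) : ℝ :=
  if i ∈ S then (if χ = 1 then 0 else om (P i)) else (if χ = 1 then 1 else 0)

theorem sum_bl (S : Finset ι) (f : Ch P → ℝ) : ∑ χ : Ch P, (∏ i, bl P S i (χ i)) * f χ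
    = (∏ i ∈ S, om (P i)) * ∑ χ ∈ univ.filter (cs P · = S), f χ := by
  rw [Finset.mul_sum, Finset.sum_filter]
  refine Finset.sum_congr rfl fun χ _ => ?_
  split_ifs with h
  · congr 1
    rw [← Finset.prod_subset (subset_univ S) fun i _ hi => by
      have : χ i = 1 := by simpa [← h, cs] using hi
      simp [bl, hi, this]]
    refine Finset.prod_congr rfl fun i hi => ?_
    have : χ i ≠ 1 := by simpa [← h, cs] using hi
    simp [bl, hi, this]
  · obtain ⟨i, hi⟩ : ∃ i, ¬ (χ i ≠ 1 ↔ i ∈ S) := by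
      by_contra h1
      push Not at h1
      exact h (by ext i; simp [cs, h1 i])
    rw [Finset.prod_eq_zero (mem_univ i), zero_mul]
    by_cases h1 : i ∈ S <;> simp_all [bl]

omit [Fintype ι] in
theorem bl_nonneg (S : Finset ι) (i : ι) (χ : DirichletCharacter ℂ (P i)) : 0 ≤ bl P S i χ := by
  have := om_pos P i
  unfold bl; split_ifs <;> linarith

theorem Ec_norm (Ψ : Ch P → ℂ) (S : Finset ι) (α : ∀ i, Option (ZMod (P i)))
    (h : ∀ i, α i ≠ none ↔ i ∈ S) :
    ‖Ec P Ψ α‖ ≤ (∏ i ∈ S, om (P i)) * ∑ χ ∈ univ.filter (cs P · = S), ‖Ψ χ‖ := by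
  rw [← sum_bl]
  refine (norm_sum_le _ _).trans (Finset.sum_le_sum fun χ _ => ?_)
  rw [norm_mul, norm_prod]
  refine mul_le_mul_of_nonneg_right (Finset.prod_le_prod (fun _ _ => norm_nonneg _) fun i _ => ?_)
    (norm_nonneg _)
  have h1 := h i
  cases h2 : α i with
  | none =>
    have : i ∉ S := by simpa [h2] using h1
    simp only [kap, bl, this, if_false]
    split_ifs <;> simp
  | some a =>
    have : i ∈ S := by simpa [h2] using h1
    simp only [kap, bl, this, if_true]
    split_ifs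
    · simp
    · rw [norm_mul, RCLike.norm_conj, Complex.norm_real, Real.norm_of_nonneg (om_pos P i).le]
      exact mul_le_of_le_one_right (om_pos P i).le ((χ i).norm_le_one a)

theorem Ec_parseval (Ψ : Ch P → ℂ) (S : Finset ι) :
    ∑ α ∈ univ.filter (fun α : ∀ i, Option (ZMod (P i)) => ∀ i, α i ≠ none ↔ i ∈ S),
      ‖Ec P Ψ α‖ ^ 2 ≤ (∏ i ∈ S, om (P i)) * ∑ χ ∈ univ.filter (cs P · = S), ‖Ψ χ‖ ^ 2 := by
  rw [← sum_bl]
  have := tensor_le (𝕜 := ℂ) (S := fun i => Option (ZMod (P i)))
    (fun i a => if a ≠ none ↔ i ∈ S then 1 else 0) (fun i χ a => kap a χ) (bl P S)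
    (fun i a => by split_ifs <;> norm_num) (bl_nonneg P S) (fun i c => by
      rw [Fintype.sum_option]
      by_cases h : i ∈ S
      · have := parseval (fun χ => c χ * if χ = 1 then 0 else om (P i))
        simp only [h, ne_eq, not_true, iff_true, if_false, zero_mul, zero_add, reduceCtorEq,
          not_false_eq_true, if_true, one_mul, kap, bl]
        refine le_of_eq (Eq.trans (Finset.sum_congr rfl fun a _ => ?_) (this.trans ?_))
        · congr 2
          refine Finset.sum_congr rfl fun χ _ => ?_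
          split_ifs <;> simp [mul_assoc]
        · rw [Finset.mul_sum]
          refine Finset.sum_congr rfl fun χ _ => ?_
          split_ifs
          · simp
          · rw [norm_mul, Complex.norm_real, Real.norm_of_nonneg (om_pos P i).le]
            linear_combination ‖c χ‖ ^ 2 * om (P i) * om_mul P i
      · simp [h, kap, bl]) Ψ
  refine le_trans (le_of_eq ?_) this
  rw [Finset.sum_filter]
  refine Finset.sum_congr rfl fun α _ => ?_
  rw [Fintype.prod_ite_zero]
  simp [Ec, mul_comm]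

omit [Fintype ι] in
theorem cong_count (hinj : Function.Injective P) (T : Finset ι) {H : ℕ} (A : Finset ℕ)
    (hA : A ⊆ range H) (h : ∀ x ∈ A, ∀ y ∈ A, ∀ i ∈ T, (x : ZMod (P i)) = y) :
    (A.card : ℝ) ≤ H * ∏ i ∈ T, (P i : ℝ)⁻¹ + 1 := by
  have h1 : ∀ x ∈ A, ∀ y ∈ A, x ≡ y [MOD ∏ i ∈ T, P i] := fun x hx y hy => by
    have h2 := h x hx y hy
    clear h
    induction T using Finset.induction_on with
    | empty => simp [Nat.modEq_one]
    | insert j T hj ih =>
      rw [Finset.prod_insert hj, ← Nat.modEq_and_modEq_iff_modEq_mul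
        (Nat.Coprime.prod_right fun i hi => (Nat.coprime_primes (hP j).out (hP i).out).2
          fun h => hj (hinj h ▸ hi))]
      exact ⟨(ZMod.natCast_eq_natCast_iff _ _ _).1 (h2 j (mem_insert_self _ _)),
        ih fun i hi => h2 i (mem_insert_of_mem hi)⟩
  have h2 : A.card ≤ (range (H / (∏ i ∈ T, P i) + 1)).card := by
    refine card_le_card_of_injOn (· / ∏ i ∈ T, P i) (fun x hx => ?_) fun x hx y hy e => ?_
    · exact mem_range.2 (Nat.lt_succ_of_le (Nat.div_le_div_right (mem_range.1 (hA hx)).le))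
    · rw [← Nat.div_add_mod x (∏ i ∈ T, P i), ← Nat.div_add_mod y (∏ i ∈ T, P i), h1 x hx y hy]
      exact congrArg (fun z => _ * z + _) e
  rw [card_range] at h2
  refine (Nat.cast_le.2 h2).trans ?_
  rw [Finset.prod_inv_distrib, ← Nat.cast_prod, ← div_eq_mul_inv, Nat.cast_add, Nat.cast_one]
  exact add_le_add_left (Nat.cast_div_le (α := ℝ)) _

omit [Fintype K] in
theorem prod_max (s : Finset K) {x : K → ℝ} {u : ℝ} (h0 : ∀ j, 0 ≤ x j) (h1 : ∀ j, x j ≤ 1)
    (hu : 0 ≤ u) (hu1 : u ≤ 1) : ∏ j ∈ s, max (x j) u ≤ max (∏ j ∈ s, x j) u := by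
  induction s using Finset.induction_on with
  | empty => simp
  | insert j s hj ih =>
    rw [Finset.prod_insert hj, Finset.prod_insert hj]
    refine (mul_le_mul_of_nonneg_left ih (le_max_of_le_right hu)).trans ?_
    have h2 : ∏ j ∈ s, x j ≤ 1 := Finset.prod_le_one (fun j _ => h0 j) fun j _ => h1 j
    rcases le_total (x j) u with h | h
    · rw [max_eq_right h]
      exact le_max_of_le_right (mul_le_of_le_one_right hu (max_le h2 hu1))
    · rw [max_eq_left h, mul_max_of_nonneg _ _ (h0 j)]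
      exact max_le_max le_rfl (mul_le_of_le_one_left hu (h1 j))

theorem prod_Ts (ρ : ι → Option K) (f : ι → ℝ) :
    ∏ j, ∏ i ∈ Ts ρ j, f i = ∏ i ∈ sp ρ, f i := by
  rw [← prod_psi (Ts ρ) fun i _ => f i, sp, Finset.prod_filter]
  refine Finset.prod_congr rfl fun i _ => ?_
  rw [psi_Ts]
  cases ρ i <;> simp

theorem shift_count (hinj : Function.Injective P) {H : ℕ} (hH : 0 < H) (W : ℕ) (m : K)
    (ρ : ι → Option K) (hm : ∀ i, ρ i ≠ some m) (hW : ∀ i ∈ sp ρ, (W : ZMod (P i)) ≠ 0)
    (α : ∀ i, Option (ZMod (P i))) :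
    (((Fintype.piFinset fun _ : K => range H).filter
      fun t => al P (fun j => W * t j) m ρ = α).card : ℝ) ≤ H ^ Fintype.card K *
        (2 ^ (sp ρ).card * (∏ i ∈ sp ρ, (P i : ℝ)⁻¹ + (H : ℝ)⁻¹)) := by
  have hH' : (1 : ℝ) ≤ H := by exact_mod_cast hH
  let D : ℕ → K → Finset ℕ := fun x j => if j = m then {x} else (range H).filter fun z =>
    ∀ i ∈ Ts ρ j, some ((W * x : ℕ) - (W * z : ℕ) : ZMod (P i)) = α i
  let c : K → ℝ := fun j => (∏ i ∈ Ts ρ j, 2) * max (∏ i ∈ Ts ρ j, (P i : ℝ)⁻¹) (H : ℝ)⁻¹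
  have hD : ∀ x j, ((D x j).card : ℝ) ≤ (if j = m then 1 else H : ℝ) * c j := fun x j => by
    have h1 : Ts ρ j = ∅ → 1 ≤ c j := fun h => by simp [c, h]
    simp only [D]
    split_ifs with h
    · rw [card_singleton, Nat.cast_one, one_mul]
      exact h1 (h ▸ filter_eq_empty_iff.2 fun i _ => hm i)
    rcases (Ts ρ j).eq_empty_or_nonempty with h2 | h2
    · refine le_trans ?_ (le_mul_of_one_le_right (by positivity) (h1 h2))
      exact_mod_cast (card_filter_le _ _).trans (card_range H).le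
    · refine (cong_count P hinj (Ts ρ j) _ (filter_subset _ _) fun a ha b hb i hi => ?_).trans ?_
      · have h3 := Option.some.inj (((mem_filter.1 ha).2 i hi).trans ((mem_filter.1 hb).2 i hi).symm)
        push_cast at h3
        exact mul_left_cancel₀ (hW i (by simp [sp, mem_Ts.1 hi])) (sub_right_injective h3)
      · have h3 : (2 : ℝ) ≤ ∏ i ∈ Ts ρ j, 2 := by
          rw [Finset.prod_const]
          exact le_self_pow₀ one_le_two h2.card_pos.ne'
        have h4 := mul_le_mul_of_nonneg_left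
          (le_max_left (∏ i ∈ Ts ρ j, (P i : ℝ)⁻¹) (H : ℝ)⁻¹) (Nat.cast_nonneg H)
        have h5 := mul_le_mul_of_nonneg_left
          (le_max_right (∏ i ∈ Ts ρ j, (P i : ℝ)⁻¹) (H : ℝ)⁻¹) (Nat.cast_nonneg H)
        rw [mul_inv_cancel₀ (by linarith)] at h5
        simp only [c]
        nlinarith
  calc _ ≤ (((range H).biUnion fun x => Fintype.piFinset (D x)).card : ℝ) := by
        refine Nat.cast_le.2 (card_le_card fun t ht => ?_)
        obtain ⟨h1, h2⟩ := mem_filter.1 ht
        rw [Fintype.mem_piFinset] at h1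
        refine mem_biUnion.2 ⟨t m, h1 m, Fintype.mem_piFinset.2 fun j => ?_⟩
        simp only [D]
        split_ifs with h
        · simp [h]
        · exact mem_filter.2 ⟨h1 j, fun i hi => by simp [← h2, al, mem_Ts.1 hi]⟩
    _ ≤ (range H).card • ∏ j, (if j = m then 1 else H : ℝ) * c j := by
        refine le_trans (Nat.cast_le.2 card_biUnion_le) ?_
        rw [Nat.cast_sum]
        refine Finset.sum_le_card_nsmul _ _ _ fun x _ => ?_
        rw [Fintype.card_piFinset, Nat.cast_prod]
        exact Finset.prod_le_prod (fun _ _ => by positivity) fun j _ => hD x j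
    _ ≤ _ := by
        have e : (H : ℝ) * ∏ j, (if j = m then 1 else H : ℝ) = H ^ Fintype.card K := by
          rw [← Finset.mul_prod_erase univ _ (mem_univ m), if_pos rfl, one_mul, ← card_univ,
            ← Finset.prod_const, ← Finset.mul_prod_erase univ _ (mem_univ m)]
          congr 1
          exact Finset.prod_congr rfl fun j hj => if_neg (ne_of_mem_erase hj)
        rw [card_range, nsmul_eq_mul, Finset.prod_mul_distrib, ← mul_assoc, e,
          Finset.prod_mul_distrib, prod_Ts, Finset.prod_const]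
        gcongr
        refine (prod_max univ (fun j => by positivity) (fun j => Finset.prod_le_one
          (fun _ _ => by positivity) fun i _ => inv_le_one_of_one_le₀ (by linarith [two_le P i]))
          (by positivity) (inv_le_one_of_one_le₀ hH')).trans ?_
        rw [prod_Ts]
        exact max_le_add_of_nonneg (by positivity) (by positivity)

omit hP in
theorem sum_Rs (B : Finset ι) (m : K) (L : ℝ) (Φ : Finset ι → ℝ) (h : ∀ S, 0 ≤ Φ S) :
    ∑ ρ ∈ Rs P B m L, Φ (sp ρ) ≤ ∑ S ∈ univ.filter (fun S => S ≠ ∅ ∧ Disjoint S B ∧ lp P S ≤ L),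
      Fintype.card K ^ S.card * Φ S := by
  rw [← Finset.sum_fiberwise_of_maps_to (g := sp)
    (t := univ.filter (fun S => S ≠ ∅ ∧ Disjoint S B ∧ lp P S ≤ L)) fun ρ hρ => by
      have := (mem_filter.1 hρ).2
      exact mem_filter.2 ⟨mem_univ _, this.1, this.2.1, this.2.2.2⟩]
  refine Finset.sum_le_sum fun S _ => ?_
  rw [Finset.sum_congr rfl fun ρ hρ => by rw [(mem_filter.1 hρ).2], Finset.sum_const, nsmul_eq_mul]
  refine mul_le_mul_of_nonneg_right ?_ (h S)
  have : ((Rs P B m L).filter (sp · = S)).card ≤ (Fintype.piFinset fun i =>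
      if i ∈ S then (univ.erase none : Finset (Option K)) else {none}).card := by
    refine card_le_card fun ρ hρ => Fintype.mem_piFinset.2 fun i => ?_
    rw [← (mem_filter.1 hρ).2]
    by_cases h1 : ρ i = none <;> simp [sp, h1]
  rw [Fintype.card_piFinset] at this
  simp only [apply_ite card, card_singleton, Finset.prod_ite_mem, univ_inter, Finset.prod_const,
    card_erase_of_mem (mem_univ _), card_univ, Fintype.card_option, Nat.add_sub_cancel] at this
  exact_mod_cast this

theorem sum_cs (B : Finset ι) (L : ℝ) (f : Ch P → ℝ) (h : ∀ χ, 0 ≤ f χ) :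
    ∑ S ∈ univ.filter (fun S => S ≠ ∅ ∧ Disjoint S B ∧ lp P S ≤ L),
      ∑ χ ∈ univ.filter (cs P · = S), f χ ≤ ∑ χ ∈ Fc P L, f χ := by
  rw [Finset.sum_fiberwise_eq_sum_filter]
  refine Finset.sum_le_sum_of_subset_of_nonneg (fun χ hχ => ?_) fun χ _ _ => h χ
  simp only [Fc, mem_filter, mem_univ, true_and] at hχ ⊢
  exact ⟨hχ.1, hχ.2.2⟩

theorem small_sum (hinj : Function.Injective P) (B : Finset ι) {w : ℕ} (hw : 1 ≤ w)
    (hB : ∀ i ∉ B, w < P i) (L : ℝ) {F : ℝ} (hF : 3 ≤ Real.exp F) (C : ℕ) {u : ℝ} (hu : 0 ≤ u) :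
    ∑ S ∈ univ.filter (fun S => S ≠ ∅ ∧ Disjoint S B ∧ lp P S ≤ L), (if lp P S ≤ F then
      (∏ i ∈ S, C * om (P i)) * (∏ i ∈ S, (P i : ℝ)⁻¹ + u) else 0)
      ≤ Real.exp (2 * C / w) - 1 + (2 * Real.exp 5 * F) ^ C * u := by
  have ho := om_pos P
  let f : ι → ℝ := fun i => if i ∈ Bᶜ then C * om (P i) * (P i : ℝ)⁻¹ else 0
  have hf : ∀ i, 0 ≤ f i := fun i => by
    have := ho i
    simp only [f]; split_ifs <;> positivity
  have h1 := prod_one_add_sq P hinj Bᶜ hw (c := 2 * C) (by positivity) hf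
    (fun i hi => if_neg hi) (fun i hi => by
      simp only [f, if_pos hi]
      refine le_trans (b := C * (2 * (P i : ℝ)⁻¹) * (P i : ℝ)⁻¹) ?_ (le_of_eq (by ring))
      gcongr
      exact om_le P i) fun i hi => hB i (mem_compl.1 hi)
  rw [Finset.prod_one_add, powerset_univ, ← Finset.add_sum_erase univ _ (mem_univ ∅),
    Finset.prod_empty] at h1
  set n0 := ⌊Real.exp F⌋₊
  have hn : 3 ≤ n0 := Nat.le_floor (by exact_mod_cast hF)
  set T := univ.filter fun i => P i ≤ n0
  have h2 : ∑ S ∈ T.powerset, ∏ i ∈ S, C * om (P i) ≤ (2 * Real.exp 5 * F) ^ C := by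
    rw [← Finset.prod_one_add]
    have h3 := prod_inv_le P hinj T hn fun i hi => (mem_filter.1 hi).2
    have h5 : Real.log n0 ≤ F := by
      rw [Real.log_le_iff_le_exp (by positivity)]
      exact Nat.floor_le (Real.exp_pos F).le
    have e : ∀ i, (1 - (P i : ℝ)⁻¹)⁻¹ = 1 + om (P i) := fun i => by
      have h6 := two_le P i
      have h7 : (P i : ℝ) - 1 ≠ 0 := by linarith
      unfold om
      field_simp
      ring
    simp only [e] at h3
    calc _ ≤ ∏ i ∈ T, (1 + om (P i)) ^ C := Finset.prod_le_prod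
          (fun i _ => by have := ho i; positivity) fun i _ =>
            one_add_mul_le_pow (by linarith [ho i]) C
      _ ≤ _ := by
          rw [Finset.prod_pow]
          exact pow_le_pow_left₀ (Finset.prod_nonneg fun i _ => by linarith [ho i])
            (h3.trans (by gcongr)) C
  have hp : ∀ S : Finset ι, 0 ≤ ∏ i ∈ S, C * om (P i) := fun S =>
    Finset.prod_nonneg fun i _ => by have := ho i; positivity
  calc _ ≤ ∑ S ∈ univ.filter (fun S => S ≠ ∅ ∧ Disjoint S B ∧ lp P S ≤ L), (∏ i ∈ S, f i +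
        (if S ∈ T.powerset then ∏ i ∈ S, C * om (P i) else 0) * u) := by
        refine Finset.sum_le_sum fun S hS => ?_
        have h3 : ∏ i ∈ S, f i = (∏ i ∈ S, C * om (P i)) * ∏ i ∈ S, (P i : ℝ)⁻¹ := by
          rw [← Finset.prod_mul_distrib]
          exact Finset.prod_congr rfl fun i hi => if_pos
            (mem_compl.2 (Finset.disjoint_left.1 (mem_filter.1 hS).2.2.1 hi))
        by_cases h : lp P S ≤ F
        · rw [if_pos h, if_pos, h3, mul_add]
          refine mem_powerset.2 fun i hi => ?_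
          have h2 := (lp_mono P (singleton_subset_iff.2 hi)).trans h
          rw [← Real.exp_le_exp, exp_lp, Finset.prod_singleton] at h2
          simpa [T] using Nat.le_floor h2
        · rw [if_neg h]
          have := hp S
          have := Finset.prod_nonneg (s := S) fun i _ => hf i
          split_ifs <;> positivity
    _ ≤ _ := by
        rw [Finset.sum_add_distrib, ← Finset.sum_mul, Finset.sum_ite_mem]
        refine add_le_add (le_trans (Finset.sum_le_sum_of_subset_of_nonneg (fun S hS => ?_)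
          fun S _ _ => Finset.prod_nonneg fun i _ => hf i) (le_sub_iff_add_le'.2 h1))
          (mul_le_mul_of_nonneg_right (le_trans (Finset.sum_le_sum_of_subset_of_nonneg
            inter_subset_right fun S _ _ => hp S) h2) hu)
        exact mem_erase.2 ⟨(mem_filter.1 hS).2.1, mem_univ _⟩

theorem Er_avg (hinj : Function.Injective P) (B : Finset ι) {w : ℕ} (hB : ∀ i ∉ B, w < P i)
    {H : ℕ} (hH : 0 < H) (W : ℕ) (hW : ∀ i ∉ B, (W : ZMod (P i)) ≠ 0) (m : K) (L : ℝ) {C : ℝ}
    (hC : 0 ≤ C) {C2 : ℕ} (hC2 : 2 * (Fintype.card K * C) ^ 2 ≤ C2) (hw : 2 * C2 + 1 ≤ w)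
    (Ψ : Ch P → ℂ) {F : ℝ} (hF : 3 ≤ Real.exp F) {η : ℝ} (hη : 0 < η) :
    ∑ t ∈ Fintype.piFinset fun _ : K => range H, Er P B (fun j => W * t j) m L C Ψ ≤
      H ^ Fintype.card K * (Real.exp (-(F / 2)) * ∑ χ ∈ Fc P L, ‖Ψ χ‖
        + η * ∑ χ ∈ Fc P L, ‖Ψ χ‖ ^ 2
        + η⁻¹ * (Real.exp (2 * C2 / w) - 1 + (2 * Real.exp 5 * F) ^ C2 * (H : ℝ)⁻¹)) := by
  set k : ℝ := (Fintype.card K : ℝ) with hk
  have hk1 : 0 < k := by rw [hk]; exact_mod_cast Fintype.card_pos_iff.2 ⟨m⟩
  have ho : ∀ S : Finset ι, 0 < ∏ i ∈ S, om (P i) := fun S => Finset.prod_pos fun i _ => om_pos P i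
  have hH' : (0 : ℝ) < H := by exact_mod_cast hH
  let N1 : Finset ι → ℝ := fun S => ∑ χ ∈ univ.filter (cs P · = S), ‖Ψ χ‖
  let N2 : Finset ι → ℝ := fun S => ∑ χ ∈ univ.filter (cs P · = S), ‖Ψ χ‖ ^ 2
  have hN1 : ∀ S, 0 ≤ N1 S := fun S => Finset.sum_nonneg fun _ _ => norm_nonneg _
  have hN2 : ∀ S, 0 ≤ N2 S := fun S => Finset.sum_nonneg fun _ _ => by positivity
  let π : Finset ι → ℝ := fun S => 2 ^ S.card * (∏ i ∈ S, (P i : ℝ)⁻¹ + (H : ℝ)⁻¹)
  have hπ : ∀ S, 0 < π S := fun S => by positivity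
  let Φ : Finset ι → ℝ := fun S => if lp P S ≤ F then η * N2 S / k ^ S.card +
    η⁻¹ * ((C ^ S.card) ^ 2 * (k ^ S.card * π S * ∏ i ∈ S, om (P i)))
    else C ^ S.card * ((∏ i ∈ S, om (P i)) * N1 S)
  have hΦ : ∀ S, 0 ≤ Φ S := fun S => by
    have := ho S
    have := hN1 S
    have := hN2 S
    have := hπ S
    simp only [Φ]; split_ifs <;> positivity
  have hc : ((Fintype.piFinset fun _ : K => range H).card : ℝ) = H ^ Fintype.card K := by simp
  have a1 : ∀ ρ ∈ Rs P B m L, ∑ t ∈ Fintype.piFinset fun _ : K => range H,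
      C ^ (sp ρ).card * ‖Ec P Ψ (al P (fun j => W * t j) m ρ)‖ ≤ H ^ Fintype.card K * Φ (sp ρ) := by
    intro ρ hρ
    obtain ⟨-, h1, h2, -⟩ := (mem_filter.1 hρ).2
    have h3 : ∀ (h : K → ℕ) i, al P h m ρ i ≠ none ↔ i ∈ sp ρ := fun h i => by simp [al, sp]
    simp only [Φ]
    split_ifs
    · have h4 : ∑ t ∈ Fintype.piFinset fun _ : K => range H,
          ‖Ec P Ψ (al P (fun j => W * t j) m ρ)‖ ^ 2
          ≤ H ^ Fintype.card K * π (sp ρ) * ((∏ i ∈ sp ρ, om (P i)) * N2 (sp ρ)) := by
        refine le_trans ?_ (mul_le_mul_of_nonneg_left (Ec_parseval P Ψ (sp ρ))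
          (mul_pos (by positivity) (hπ _)).le)
        rw [← Finset.sum_fiberwise_of_maps_to (g := fun t => al P (fun j => W * t j) m ρ)
          (t := univ.filter fun α : ∀ i, Option (ZMod (P i)) => ∀ i, α i ≠ none ↔ i ∈ sp ρ)
          fun t _ => mem_filter.2 ⟨mem_univ _, h3 _⟩, Finset.mul_sum]
        refine Finset.sum_le_sum fun α _ => ?_
        rw [Finset.sum_congr rfl fun t ht => by rw [(mem_filter.1 ht).2], Finset.sum_const,
          nsmul_eq_mul]
        exact mul_le_mul_of_nonneg_right (shift_count P hinj hH W m ρ h2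
          (fun i hi => hW i (Finset.disjoint_left.1 h1 hi)) α) (by positivity)
      obtain ⟨z, hz⟩ : ∃ z, z = k ^ (sp ρ).card * π (sp ρ) * ∏ i ∈ sp ρ, om (P i) := ⟨_, rfl⟩
      have hz0 : 0 < z := by have := ho (sp ρ); have := hπ (sp ρ); rw [hz]; positivity
      calc _ ≤ ∑ t ∈ Fintype.piFinset fun _ : K => range H,
            (η / z * ‖Ec P Ψ (al P (fun j => W * t j) m ρ)‖ ^ 2
              + η⁻¹ * ((C ^ (sp ρ).card) ^ 2 * z)) := by
            refine Finset.sum_le_sum fun t _ => ?_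
            have : 0 ≤ C ^ (sp ρ).card * ‖Ec P Ψ (al P (fun j => W * t j) m ρ)‖ := by positivity
            generalize ‖Ec P Ψ (al P (fun j => W * t j) m ρ)‖ = a at *
            generalize C ^ (sp ρ).card = b at *
            have e : η / z * a ^ 2 + η⁻¹ * (b ^ 2 * z) - 2 * (b * a)
                = (η * a - b * z) ^ 2 / (η * z) := by field_simp; ring
            have : 0 ≤ (η * a - b * z) ^ 2 / (η * z) := by positivity
            linarith
        _ ≤ _ := by
            rw [Finset.sum_add_distrib, ← Finset.mul_sum, Finset.sum_const, nsmul_eq_mul, hc,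
              mul_add, ← hz]
            refine add_le_add_left ((mul_le_mul_of_nonneg_left h4 (by positivity)).trans
              (le_of_eq ?_)) _
            have := ho (sp ρ)
            have := hπ (sp ρ)
            rw [hz]
            field_simp
    · rw [← hc, ← nsmul_eq_mul]
      exact Finset.sum_le_card_nsmul _ _ _ fun t _ =>
        mul_le_mul_of_nonneg_left (Ec_norm P Ψ _ _ (h3 _)) (by positivity)
  simp only [Er]
  rw [Finset.sum_comm]
  refine (Finset.sum_le_sum a1).trans ?_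
  rw [← Finset.mul_sum]
  refine mul_le_mul_of_nonneg_left ((sum_Rs P B m L Φ hΦ).trans ?_) (by positivity)
  refine le_trans ?_ (add_le_add (add_le_add
    (mul_le_mul_of_nonneg_left (sum_cs P B L _ fun χ => norm_nonneg (Ψ χ)) (Real.exp_pos _).le)
    (mul_le_mul_of_nonneg_left (sum_cs P B L _ fun χ => sq_nonneg ‖Ψ χ‖) hη.le))
    (mul_le_mul_of_nonneg_left (small_sum P hinj B (by omega) hB L hF C2 (inv_pos.2 hH').le)
      (inv_pos.2 hη).le))
  simp only [Finset.mul_sum (s := univ.filter (fun S => S ≠ ∅ ∧ Disjoint S B ∧ lp P S ≤ L)),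
    ← Finset.sum_add_distrib]
  refine Finset.sum_le_sum fun S hS => ?_
  have h1 := hN1 S
  have h2 := hN2 S
  simp only [Φ]
  split_ifs with h
  · rw [mul_add, ← mul_div_assoc, mul_div_cancel_left₀ _ (by positivity), mul_left_comm]
    refine add_le_add (le_add_of_nonneg_left (by positivity))
      (mul_le_mul_of_nonneg_left ?_ (inv_pos.2 hη).le)
    calc _ = (∏ i ∈ S, 2 * (k * C) ^ 2 * om (P i)) * (∏ i ∈ S, (P i : ℝ)⁻¹ + (H : ℝ)⁻¹) := by
          simp only [π, Finset.prod_mul_distrib, Finset.prod_const, mul_pow]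
          ring
      _ ≤ _ := by
          gcongr with i
          · exact fun i _ => mul_nonneg (by positivity) (om_pos P _).le
          · exact (om_pos P _).le
  · rw [mul_zero, add_zero]
    refine le_trans ?_ (le_add_of_nonneg_right (by positivity))
    rw [← mul_assoc, ← mul_assoc]
    refine mul_le_mul_of_nonneg_right ?_ h1
    have h3 : (k ^ S.card * C ^ S.card * ∏ i ∈ S, om (P i)) ^ 2 ≤ Real.exp (-(F / 2)) ^ 2 := by
      calc _ = ∏ i ∈ S, (k * C * om (P i)) ^ 2 := by
            simp only [Finset.prod_pow, Finset.prod_mul_distrib, Finset.prod_const]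
        _ ≤ ∏ i ∈ S, (P i : ℝ)⁻¹ := by
            refine Finset.prod_le_prod (fun _ _ => sq_nonneg _) fun i hi => ?_
            have h4 : (2 * C2 : ℝ) ≤ P i := by
              have := hB i (Finset.disjoint_left.1 (mem_filter.1 hS).2.2.1 hi)
              exact_mod_cast (by omega : 2 * C2 ≤ P i)
            have h5 := pow_le_pow_left₀ (om_pos P i).le (om_le P i) 2
            have h6 := two_le P i
            calc _ = (k * C) ^ 2 * om (P i) ^ 2 := by ring
              _ ≤ (P i / 4) * (2 * (P i : ℝ)⁻¹) ^ 2 := by gcongr; linarith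
              _ = _ := by field_simp; norm_num
        _ ≤ _ := by
            rw [Finset.prod_inv_distrib, ← exp_lp, ← Real.exp_neg, ← Real.exp_nat_mul,
              Real.exp_le_exp]
            push_cast
            linarith
    exact (pow_le_pow_iff_left₀ (by have := ho S; positivity) (Real.exp_pos _).le two_ne_zero).1 h3

end Pool.Agent.Lib.MP_bee098_nt
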