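import Mathlib

/-! A finite form of the Milliken-Taylor theorem with an idempotent ultrafilter. -/

open Filter

namespace Pool.Agent.Lib.MP_bee098_nt

/-- Nonzero finitely supported zero-one sequences. -/
def Nice (a : ℕ → ℕ) : Prop := a ≠ 0 ∧ (∀ i, a i ≤ 1) ∧ ∃ n, ∀ i ≥ n, a i = 0

/-- The support of `a` lies below the support of `b`. -/
def Sep (a b : ℕ → ℕ) : Prop := ∀ i i', a i ≠ 0 → b i' ≠ 0 → i < i'

theorem nice_of_FS {a : Stream' (ℕ → ℕ)} {m : ℕ → ℕ} (h : m ∈ Hindman.FS a) :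
    ∀ n, (∀ k, a.get k = Pi.single (n + k) 1) → Nice m ∧ ∀ i < n, m i = 0 := by
  induction h with
  | head' a =>
    intro n hn
    have e : a.head = Pi.single n 1 := hn 0
    rw [e]
    refine ⟨⟨by simp, fun i => ?_, n + 1, fun i hi => Pi.single_eq_of_ne (by omega) _⟩,
      fun i hi => Pi.single_eq_of_ne hi.ne _⟩
    rw [Pi.single_apply]; split_ifs <;> simp
  | tail' a m _ ih =>
    intro n hn
    obtain ⟨h1, h2⟩ := ih (n + 1) fun k => by rw [Stream'.get_tail, hn]; congr 1; omega
    exact ⟨h1, fun i hi => h2 i (by omega)⟩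
  | cons' a m _ ih =>
    intro n hn
    obtain ⟨⟨-, h1, n', h3⟩, h2⟩ := ih (n + 1) fun k => by
      rw [Stream'.get_tail, hn]; congr 1; omega
    have e : a.head = Pi.single n 1 := hn 0
    rw [e]
    refine ⟨⟨fun h => by simpa using congrFun h n, fun i => ?_, max n' (n + 1), fun i hi => ?_⟩,
      fun i hi => ?_⟩
    · by_cases h : i = n
      · simp [h, h2 n (by omega)]
      · simpa [h] using h1 i
    · rw [Pi.add_apply, Pi.single_eq_of_ne (by omega), h3 i (by omega)]
    · rw [Pi.add_apply, Pi.single_eq_of_ne hi.ne, h2 i (by omega)]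

theorem exists_ultra : ∃ U : Ultrafilter (ℕ → ℕ),
    (∀ p : (ℕ → ℕ) → Prop, (∀ᶠ a in (U : Filter _), p a) →
      ∀ᶠ a in (U : Filter _), ∀ᶠ b in (U : Filter _), p (a + b)) ∧
    ∀ n, ∀ᶠ a in (U : Filter _), Nice a ∧ ∀ i < n, a i = 0 := by
  obtain ⟨U, h1, h2⟩ := Hindman.exists_idempotent_ultrafilter_le_FS
    (fun k => Pi.single k 1 : Stream' (ℕ → ℕ))
  have h3 : ∀ p : (ℕ → ℕ) → Prop, (∀ᶠ a in (U : Filter _), p a) →
      ∀ᶠ a in (U : Filter _), ∀ᶠ b in (U : Filter _), p (a + b) := fun p hp => by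
    rw [← Ultrafilter.eventually_add, h1]; exact hp
  have h4 : ∀ᶠ a in (U : Filter _), Nice a :=
    h2.mono fun a ha => (nice_of_FS ha 0 fun k => by rw [zero_add]; rfl).1
  refine ⟨U, h3, fun n => h4.and ?_⟩
  refine (eventually_all_finite (Set.finite_Iio n)).2 fun i _ => ?_
  by_contra h
  have h5 : ∀ᶠ a in (U : Filter (ℕ → ℕ)), a i = 1 := by
    filter_upwards [Ultrafilter.eventually_not.2 h, h4] with a h6 h7
    have := h7.2.1 i
    omega
  obtain ⟨a, h6, h7⟩ := (h5.and (h3 _ h5)).exists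
  obtain ⟨b, h8, h9⟩ := (h5.and h7).exists
  simp [h6, h8] at h9

variable {M : Type}

/-- The property holds for most lists of length `r`. -/
def Tr (U : Ultrafilter M) : ℕ → (List M → Prop) → Prop
  | 0, A => A []
  | r + 1, A => ∀ᶠ a in (U : Filter M), Tr U r fun l => A (a :: l)

theorem Tr_two {U : Ultrafilter M} {r : ℕ} {A B C : List M → Prop}
    (h : ∀ l, l.length = r → A l → B l → C l) (hA : Tr U r A) (hB : Tr U r B) : Tr U r C := by
  induction r generalizing A B C with
  | zero => exact h [] rfl hA hB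
  | succ r ih =>
    exact (Eventually.and hA hB).mono fun a ha =>
      ih (fun l hl => h (a :: l) (by simp [hl])) ha.1 ha.2

theorem Tr_not {U : Ultrafilter M} {r : ℕ} {A : List M → Prop} (h : ¬ Tr U r A) :
    Tr U r fun l => ¬ A l := by
  induction r generalizing A with
  | zero => exact h
  | succ r ih => exact (Ultrafilter.eventually_not.2 h).mono fun a ha => ih ha

theorem Tr_all {U : Ultrafilter M} {r : ℕ} {A : List M → Prop} (h : ∀ l, l.length = r → A l) :
    Tr U r A := by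
  induction r generalizing A with
  | zero => exact h [] rfl
  | succ r ih => exact Eventually.of_forall fun a => ih fun l hl => h _ (by simp [hl])

theorem Tr_exists {U : Ultrafilter M} {r : ℕ} {A : List M → Prop} (h : Tr U r A) : ∃ l, A l := by
  induction r generalizing A with
  | zero => exact ⟨_, h⟩
  | succ r ih =>
    obtain ⟨a, ha⟩ := Eventually.exists h
    obtain ⟨l, hl⟩ := ih ha
    exact ⟨_, hl⟩

variable [Add M]

/-- Add `a` to the first entry. -/
def mrg (a : M) : List M → List M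
  | [] => []
  | b :: y => (a + b) :: y

/-- Block subsequences. -/
def blk : List M → Set (List M)
  | [] => {[]}
  | a :: z => blk z ∪ (a :: ·) '' blk z ∪ mrg a '' blk z

theorem blk_finite (z : List M) : (blk z).Finite := by
  induction z with
  | nil => simp [blk]
  | cons a z ih => exact (ih.union (ih.image _)).union (ih.image _)

theorem blk_sublist {y z : List M} (h : y.Sublist z) : y ∈ blk z := by
  induction h with
  | slnil => simp [blk]
  | cons a _ ih => exact Or.inl (Or.inl ih)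
  | cons_cons a _ ih => exact Or.inl (Or.inr ⟨_, ih, rfl⟩)

theorem blk_tail {y z : List M} (h : y ∈ blk z) : y.tail ∈ blk z := by
  induction z generalizing y with
  | nil => simp_all [blk]
  | cons a z ih =>
    rcases h with (h | ⟨y, h, rfl⟩) | ⟨y, h, rfl⟩
    · exact Or.inl (Or.inl (ih h))
    · exact Or.inl (Or.inl h)
    · refine Or.inl (Or.inl ?_)
      cases y with
      | nil => exact h
      | cons b y => exact ih (y := b :: y) h

/-- Running sums which start from `b`. -/
def rs (b : M) : List M → List M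
  | [] => []
  | a :: z => (b + a) :: rs (b + a) z

theorem length_rs (b : M) (z : List M) : (rs b z).length = z.length := by
  induction z generalizing b with
  | nil => rfl
  | cons a z ih => simp [rs, ih]

theorem blk_rs (hM : ∀ a b c : M, a + b + c = a + (b + c)) {b : M} {s z : List M}
    (h : s.Sublist (rs b z)) : ∃ y ∈ blk z, s = rs b y := by
  induction z generalizing b s with
  | nil => exact ⟨[], rfl, List.sublist_nil.1 h⟩
  | cons a z ih =>
    rcases List.sublist_cons_iff.1 h with h' | ⟨s, rfl, h'⟩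
    · obtain ⟨y, h1, rfl⟩ := ih h'
      refine ⟨mrg a y, Or.inr ⟨y, h1, rfl⟩, ?_⟩
      cases y with
      | nil => rfl
      | cons c y => simp [rs, mrg, hM]
    · obtain ⟨y, h1, rfl⟩ := ih h'
      exact ⟨a :: y, Or.inl (Or.inr ⟨y, h1, rfl⟩), rfl⟩

theorem taylor {U : Ultrafilter (ℕ → ℕ)}
    (h1 : ∀ p : (ℕ → ℕ) → Prop, (∀ᶠ a in (U : Filter _), p a) →
      ∀ᶠ a in (U : Filter _), ∀ᶠ b in (U : Filter _), p (a + b))
    (h2 : ∀ n, ∀ᶠ a in (U : Filter _), Nice a ∧ ∀ i < n, a i = 0) (L k : ℕ) :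
    ∀ n (A : List (ℕ → ℕ) → Prop), (∀ r ≤ L, Tr U r A) → ∃ z : List (ℕ → ℕ), z.length = k ∧
      z.Pairwise Sep ∧ (∀ a ∈ z, Nice a ∧ ∀ i < n, a i = 0) ∧
        ∀ y ∈ blk z, y.length ≤ L → A y := by
  induction k with
  | zero =>
    intro n A hA
    refine ⟨[], rfl, by simp, by simp, fun y hy _ => ?_⟩
    rw [show y = [] from hy]
    exact hA 0 (Nat.zero_le _)
  | succ k ih =>
    intro n A hA
    have h3 : ∀ᶠ a in (U : Filter _), ∀ r ∈ Set.Iio L, (Tr U r fun l => A (a :: l)) ∧
        ∀ᶠ b in (U : Filter _), Tr U r fun l => A ((a + b) :: l) :=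
      (eventually_all_finite (Set.finite_Iio L)).2 fun r hr =>
        Eventually.and (hA (r + 1) hr) (h1 _ (hA (r + 1) hr))
    obtain ⟨a, ⟨ha, ha'⟩, h4⟩ := ((h2 n).and h3).exists
    obtain ⟨n', hn'⟩ := ha.2.2
    obtain ⟨z, z1, z2, z3, z4⟩ := ih (max n n')
      (fun l => (A l ∧ (l.length < L → A (a :: l))) ∧ A (mrg a l)) fun r hr => by
        refine Tr_two (fun l _ h h' => ⟨h, h'⟩) (Tr_two (fun l _ h h' => ⟨h, h'⟩) (hA r hr) ?_) ?_
        · rcases hr.lt_or_eq with h | h
          · exact Tr_two (fun l _ h _ _ => h) (h4 r h).1 (h4 r h).1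
          · exact Tr_all fun l hl h5 => absurd h5 (by omega)
        · cases r with
          | zero => exact hA 0 hr
          | succ r => exact (h4 r hr).2
    refine ⟨a :: z, by simp [z1], List.pairwise_cons.2 ⟨fun b hb i i' h5 h6 => ?_, z2⟩, ?_, ?_⟩
    · by_contra h7
      have h8 : i < n' := not_le.1 fun h => h5 (hn' i h)
      exact h6 ((z3 b hb).2 i' (by omega))
    · rintro b (_ | ⟨_, hb⟩)
      · exact ⟨ha, ha'⟩
      · exact ⟨(z3 b hb).1, fun i hi => (z3 b hb).2 i (by omega)⟩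
    · rintro y ((h | ⟨y, h, rfl⟩) | ⟨y, h, rfl⟩) hy
      · exact (z4 y h hy).1.1
      · simp only [List.length_cons] at hy
        exact (z4 y h (by omega)).1.2 (by omega)
      · exact (z4 y h (by cases y; exacts [hy, hy])).2

theorem two_colourings (L k : ℕ) (Q : Bool → ℕ → List (ℕ → ℕ) → Prop)
    (h : ∀ s N (z : List (ℕ → ℕ)), z.length = k → z.Pairwise Sep →
      (∀ a ∈ z, Nice a ∧ ∀ i ≥ N, a i = 0) → ∃ y ∈ blk z, y.length = L ∧ Q s N y) :
    ∃ N y, y.length = L ∧ ∀ s, Q s N y := by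
  obtain ⟨U, h1, h2⟩ := exists_ultra
  have key : ∀ s, Tr U L fun y => ∀ᶠ N in (hyperfilter ℕ : Filter ℕ), Q s N y := by
    intro s
    by_contra h3
    obtain ⟨z, z1, z2, z3, z4⟩ := taylor h1 h2 L k 0
      (fun y => y.length = L → ¬ ∀ᶠ N in (hyperfilter ℕ : Filter ℕ), Q s N y) fun r hr => by
        rcases hr.lt_or_eq with h | h
        · exact Tr_all fun l hl h5 => absurd h5 (by omega)
        · subst h
          exact Tr_two (fun l _ h _ _ => h) (Tr_not h3) (Tr_not h3)
    have h4 : ∀ᶠ N in atTop, ∀ a ∈ {a | a ∈ z}, ∀ i ≥ N, a i = 0 :=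
      (eventually_all_finite z.finite_toSet).2 fun a ha => by
        obtain ⟨n, hn⟩ := (z3 a ha).1.2.2
        exact (eventually_ge_atTop n).mono fun N hN i hi => hn i (hN.trans hi)
    obtain ⟨y, h5, h6⟩ := (Ultrafilter.eventually_exists_mem_iff (f := hyperfilter ℕ)
      (P := fun y N => y.length = L ∧ Q s N y) (blk_finite z)).1
      ((h4.filter_mono Nat.hyperfilter_le_atTop).mono fun N hN =>
        h s N z z1 z2 fun a ha => ⟨(z3 a ha).1, hN a ha⟩)
    have h7 := h6.exists.choose_spec.1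
    exact z4 y h5 h7.le h7 (h6.mono fun N hN => hN.2)
  obtain ⟨y, h3, h4⟩ := Tr_exists (Tr_two (C := fun y => y.length = L ∧
    ∀ᶠ N in (hyperfilter ℕ : Filter ℕ), Q true N y ∧ Q false N y)
    (fun l hl h h' => ⟨hl, h.and h'⟩) (key true) (key false))
  obtain ⟨N, hN⟩ := h4.exists
  exact ⟨N, y, h3, fun s => by cases s; exacts [hN.2, hN.1]⟩

end Pool.Agent.Lib.MP_bee098_nt
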