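import Pool.Agent.Lib.MP_bee098_nt.Average
import Pool.Agent.Lib.MP_bee098_nt.Ramsey

/-! Consecutive primes in one range whose sizes match consecutive gaps in another range. -/

open Finset Filter

namespace Pool.Agent.Lib.MP_bee098_nt

/-- Value of a sequence of coefficients. -/
def val (N : ℕ) (x u : ℕ → ℕ) : ℕ := ∑ i ∈ range N, u i * x i

/-- The top of the support of `b` is above the support of `a`. -/
def Top (a b : ℕ → ℕ) : Prop := ∃ i, b i ≠ 0 ∧ ∀ i' ≥ i, a i' = 0

/-- Nonzero zero-one sequences supported below `N`. -/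
def Ok (N : ℕ) (a : ℕ → ℕ) : Prop := a ≠ 0 ∧ (∀ i, a i ≤ 1) ∧ ∀ i ≥ N, a i = 0

theorem val_add (N : ℕ) (x u v : ℕ → ℕ) : val N x (u + v) = val N x u + val N x v := by
  simp [val, add_mul, Finset.sum_add_distrib]

theorem val_lt {N H : ℕ} (hH : 0 < H) {x u : ℕ → ℕ} (hx : ∀ i, x i ≤ 2 * 3 ^ i * H)
    (hu : ∀ i, u i ≤ 1) {n : ℕ} (hn : ∀ i ≥ n, u i = 0) : val N x u < 3 ^ n * H := by
  have h1 : ∀ n, ∑ i ∈ range n, 2 * 3 ^ i * H + H = 3 ^ n * H := fun n => by
    induction n with
    | zero => simp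
    | succ n ih => rw [Finset.sum_range_succ, add_right_comm, ih]; ring
  have h2 : val N x u ≤ ∑ i ∈ range n, 2 * 3 ^ i * H := by
    refine le_trans (Finset.sum_le_sum_of_ne_zero (t := range n) fun i _ hi => ?_)
      (Finset.sum_le_sum fun i _ => (Nat.mul_le_mul (hu i) (hx i)).trans (by simp))
    exact mem_range.2 (not_le.1 fun h => hi (by simp [hn i h]))
  have := h1 n
  omega

theorem val_top {N H : ℕ} (hH : 0 < H) {x a b : ℕ → ℕ}
    (hx : ∀ i, 3 ^ i * H ≤ x i ∧ x i ≤ 2 * 3 ^ i * H) (ha : Ok N a) (hb : Ok N b) (h : Top a b) :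
    val N x a < val N x b := by
  obtain ⟨i, h1, h2⟩ := h
  refine (val_lt hH (fun i => (hx i).2) ha.2.1 h2).trans_le ((hx i).1.trans (le_trans
    (Nat.le_mul_of_pos_left _ (Nat.pos_of_ne_zero h1)) (Finset.single_le_sum
      (f := fun i => b i * x i) (fun _ _ => Nat.zero_le _) (mem_range.2 ?_))))
  exact not_le.1 fun h => h1 (hb.2.2 i h)

open Classical in
theorem stage (k N : ℕ) {H : ℕ} (hH : 0 < H) (G : (Fin k → ℕ) → Prop)
    (hG : 2 ^ (N * k) * ((Fintype.piFinset fun _ : Fin k => range (3 ^ N * H)).filter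
      fun t => ¬ G t).card < H ^ k) :
    ∃ x : ℕ → ℕ, (∀ i, 3 ^ i * H ≤ x i ∧ x i ≤ 2 * 3 ^ i * H) ∧ ∀ u : Fin k → ℕ → ℕ,
      (∀ j, Ok N (u j)) → (∀ j j', j < j' → Top (u j) (u j')) → G fun j => val N x (u j) := by
  set B := (Fintype.piFinset fun _ : Fin k => range (3 ^ N * H)).filter fun t => ¬ G t
  let X : (Fin N → Fin H) → ℕ → ℕ := fun ξ i => 3 ^ i * H + if h : i < N then (ξ ⟨i, h⟩ : ℕ) else 0
  have hX : ∀ ξ i, 3 ^ i * H ≤ X ξ i ∧ X ξ i ≤ 2 * 3 ^ i * H := fun ξ i => by
    refine ⟨Nat.le_add_right _ _, ?_⟩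
    have : H ≤ 3 ^ i * H := Nat.le_mul_of_pos_left _ (by positivity)
    simp only [X, mul_assoc]
    split_ifs with h
    · have := (ξ ⟨i, h⟩).2; omega
    · omega
  let t : (Fin k → Fin N → Fin 2) → (Fin N → Fin H) → Fin k → ℕ := fun v ξ j =>
    ∑ i, v j i * (3 ^ (i : ℕ) * H + ξ i)
  let S : (Fin k → Fin N → Fin 2) → Finset (Fin N → Fin H) := fun v => univ.filter fun ξ =>
    (∃ a : Fin k → Fin N, (∀ j, v j (a j) = 1) ∧ ∀ j j', j < j' → v j (a j') = 0) ∧ t v ξ ∈ B
  have hS : ∀ v, (S v).card * H ^ k ≤ B.card * H ^ N := fun v => by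
    rcases (S v).eq_empty_or_nonempty with h | ⟨ξ0, h⟩
    · simp [h]
    obtain ⟨a, a1, a2⟩ := (mem_filter.1 h).2.1
    have ha : Function.Injective a := fun j j' e => by
      rcases lt_trichotomy j j' with h | h | h
      · have := a2 j j' h; rw [← e, a1] at this; simp at this
      · exact h
      · have := a2 j' j h; rw [e, a1] at this; simp at this
    have := card_le_card_of_injOn (s := S v ×ˢ (univ : Finset (Fin k → Fin H)))
      (t := B ×ˢ (univ : Finset (Fin N → Fin H)))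
      (fun x => (t v x.1, Function.extend a x.2 x.1))
      (fun x hx => mem_product.2 ⟨(mem_filter.1 (mem_product.1 hx).1).2.2, mem_univ _⟩) (by
        rintro ⟨ξ, s⟩ - ⟨ξ', s'⟩ - e
        simp only [Prod.mk.injEq] at e ⊢
        have e1 : ∀ i, (¬ ∃ j, a j = i) → ξ i = ξ' i := fun i hi => by
          simpa [Function.extend_apply' _ _ _ hi] using congrFun e.2 i
        have e2 : ∀ j, ξ (a j) = ξ' (a j) := fun j => by
          induction j using WellFoundedLT.induction with
          | ind j ih =>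
            have e3 := congrFun e.1 j
            simp only [t] at e3
            rw [← Finset.add_sum_erase univ _ (mem_univ (a j)),
              ← Finset.add_sum_erase univ _ (mem_univ (a j)), a1,
              Finset.sum_congr rfl fun i hi => show _ = v j i * (3 ^ (i : ℕ) * H + ξ' i) by
                by_cases h : ∃ j', a j' = i
                · obtain ⟨j', rfl⟩ := h
                  rcases lt_trichotomy j j' with h | h | h
                  · simp [a2 j j' h]
                  · exact absurd (congrArg a h.symm) (ne_of_mem_erase hi)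
                  · rw [ih j' h]
                · rw [e1 i h]] at e3
            exact Fin.ext (by simpa using e3)
        refine ⟨funext fun i => ?_, funext fun j => by
          simpa [ha.extend_apply] using congrFun e.2 (a j)⟩
        by_cases h : ∃ j, a j = i
        · obtain ⟨j, rfl⟩ := h; exact e2 j
        · exact e1 i h)
    simpa using this
  obtain ⟨ξ, -, hξ⟩ : ∃ ξ ∈ univ, ξ ∉ univ.biUnion S := by
    refine exists_mem_notMem_of_card_lt_card (lt_of_mul_lt_mul_right (a := H ^ k) ?_ (Nat.zero_le _))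
    refine (Nat.mul_le_mul_right _ card_biUnion_le).trans_lt ?_
    rw [Finset.sum_mul]
    refine (Finset.sum_le_card_nsmul _ _ _ fun v _ => hS v).trans_lt ?_
    simp only [card_univ, Fintype.card_pi, Fintype.card_fin, Finset.prod_const, smul_eq_mul]
    rw [← pow_mul, ← mul_assoc, mul_comm (H ^ N)]
    exact Nat.mul_lt_mul_of_pos_right hG (by positivity)
  refine ⟨X ξ, hX ξ, fun u h1 h2 => ?_⟩
  by_contra h3
  let v : Fin k → Fin N → Fin 2 := fun j i => ⟨u j i, Nat.lt_succ_of_le ((h1 j).2.1 i)⟩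
  have e : t v ξ = fun j => val N (X ξ) (u j) := funext fun j => by
    simp [t, v, val, X, Finset.sum_range]
  have h4 : ∀ j, ∃ a : Fin N, u j a ≠ 0 ∧ ∀ i, u j i ≠ 0 → i ≤ a := fun j => by
    have h5 : ∀ i, u j i ≠ 0 → i ≤ N := fun i hi =>
      (not_le.1 fun h => hi ((h1 j).2.2 i h)).le
    obtain ⟨i, hi⟩ := Function.ne_iff.1 (h1 j).1
    have h6 := Nat.findGreatest_spec (P := fun i => u j i ≠ 0) (h5 i hi) hi
    exact ⟨⟨_, not_le.1 fun h => h6 ((h1 j).2.2 _ h)⟩, h6,
      fun i hi => Nat.le_findGreatest (h5 i hi) hi⟩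
  choose a a1 a2 using h4
  refine hξ (mem_biUnion.2 ⟨v, mem_univ _, mem_filter.2 ⟨mem_univ _, ⟨a, fun j => Fin.ext ?_,
    fun j j' h => Fin.ext ?_⟩, e ▸ mem_filter.2 ⟨Fintype.mem_piFinset.2 fun j => mem_range.2
      (val_lt hH (fun i => (hX ξ i).2) (h1 j).2.1 (h1 j).2.2), h3⟩⟩⟩)
  · have := a1 j
    have := (h1 j).2.1 (a j)
    simp only [v, Fin.val_one]
    omega
  · obtain ⟨i, h5, h6⟩ := h2 j j' h
    exact h6 _ (a2 j' i h5)

theorem rs_top {N : ℕ} {z : List (ℕ → ℕ)} {b : ℕ → ℕ} (h1 : z.Pairwise Sep) (h2 : ∀ a ∈ z, Ok N a)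
    (h3 : ∀ a ∈ z, Sep b a) (h4 : ∀ i, b i ≤ 1) (h5 : ∀ i ≥ N, b i = 0) :
    (rs b z).Pairwise Top ∧ ∀ e ∈ rs b z, Ok N e ∧ Top b e := by
  induction z generalizing b with
  | nil => simp [rs]
  | cons a z ih =>
    obtain ⟨a1, a2, a3⟩ := h2 a List.mem_cons_self
    have s := h3 a List.mem_cons_self
    rw [List.pairwise_cons] at h1
    have b1 : ∀ i, (b + a) i ≤ 1 := fun i => by
      have := s i i
      have := h4 i
      have := a2 i
      simp only [Pi.add_apply]
      omega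
    have b2 : ∀ i ≥ N, (b + a) i = 0 := fun i hi => by simp [h5 i hi, a3 i hi]
    obtain ⟨i1, i2⟩ := ih (b := b + a) h1.2 (fun c hc => h2 c (List.mem_cons_of_mem _ hc))
      (fun c hc i i' h h' => by
        by_cases h6 : b i = 0
        · exact h1.1 c hc i i' (by simpa [h6] using h) h'
        · exact h3 c (List.mem_cons_of_mem _ hc) i i' h6 h') b1 b2
    obtain ⟨i, hi⟩ := Function.ne_iff.1 a1
    have hi' : a i ≠ 0 := hi
    refine ⟨List.pairwise_cons.2 ⟨fun e he => (i2 e he).2, i1⟩, ?_⟩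
    rintro e (_ | ⟨_, he⟩)
    · refine ⟨⟨fun h => hi' (by simpa using (Nat.add_eq_zero_iff.1 (congrFun h i)).2), b1, b2⟩, i,
        fun h => hi' (Nat.add_eq_zero_iff.1 h).2, fun i' h => ?_⟩
      by_contra h6
      exact absurd (s i' i h6 hi') (not_lt.2 h)
    · obtain ⟨j, h6, h7⟩ := (i2 e he).2
      exact ⟨(i2 e he).1, j, h6, fun i' h => (Nat.add_eq_zero_iff.1 (h7 i' h)).1⟩

variable {M : Type}

/-- The values of `f` along the list are consecutive primes. -/
def Cs (f : M → ℕ) : ℕ → List M → Prop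
  | _, [] => True
  | i, a :: l => f a = Nat.nth Nat.Prime i ∧ Cs f (i + 1) l

/-- The values of `g` along the list are consecutive prime gaps. -/
def Gp (g : M → ℕ) : ℕ → List M → Prop
  | _, [] => True
  | i, a :: l => Nat.nth Nat.Prime (i + 1) = Nat.nth Nat.Prime i + g a ∧ Gp g (i + 1) l

theorem Cs_take {f : M → ℕ} {i : ℕ} {l : List M} (h : Cs f i l) (n : ℕ) : Cs f i (l.take n) := by
  induction l generalizing i n with
  | nil => simp [Cs]
  | cons a l ih =>
    cases n with
    | zero => trivial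
    | succ n => exact ⟨h.1, ih h.2 n⟩

theorem Cs_closed {f : M → ℕ} {a : M} {l : List M} (h1 : (a :: l).Pairwise fun a b => f a < f b)
    (h2 : ∀ b ∈ a :: l, (f b).Prime)
    (h3 : ∀ q, q.Prime → f a < q → ∀ b ∈ l, q < f b → ∃ c ∈ l, f c = q) :
    Cs f (Nat.count Nat.Prime (f a)) (a :: l) := by
  induction l generalizing a with
  | nil => exact ⟨(Nat.nth_count (h2 a List.mem_cons_self)).symm, trivial⟩
  | cons b l ih =>
    have ha := h2 a List.mem_cons_self
    have hb := h2 b (List.mem_cons_of_mem _ List.mem_cons_self)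
    rw [List.pairwise_cons] at h1
    have hab := h1.1 b List.mem_cons_self
    have h4 := ih h1.2 (fun c hc => h2 c (List.mem_cons_of_mem _ hc)) fun q hq h c hc h' => by
      obtain ⟨d, hd, e⟩ := h3 q hq (hab.trans h) c (List.mem_cons_of_mem _ hc) h'
      rcases List.mem_cons.1 hd with rfl | hd
      · omega
      · exact ⟨d, hd, e⟩
    refine ⟨(Nat.nth_count ha).symm, ?_⟩
    have hm : StrictMono (Nat.nth Nat.Prime) := Nat.nth_strictMono Nat.infinite_setOfPred_prime
    have h5 : Nat.count Nat.Prime (f a) < Nat.count Nat.Prime (f b) := by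
      rw [← hm.lt_iff_lt, Nat.nth_count ha, Nat.nth_count hb]; exact hab
    rcases (Nat.succ_le_of_lt h5).lt_or_eq with h | h
    · have h6 := hm h
      rw [Nat.nth_count hb] at h6
      obtain ⟨c, hc, e⟩ := h3 _ (Nat.prime_nth_prime _) (by
        simpa [Nat.nth_count ha] using hm (Nat.lt_succ_self (Nat.count Nat.Prime (f a)))) b
        List.mem_cons_self h6
      rcases List.mem_cons.1 hc with rfl | hc
      · omega
      · have := (List.pairwise_cons.1 h1.2).1 c hc
        omega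
    · rw [show Nat.count Nat.Prime (f a) + 1 = _ from h]; exact h4

theorem Gp_rs [Add M] {g : M → ℕ} (hg : ∀ a b, g (a + b) = g a + g b) {n i : ℕ} {b : M}
    {y : List M} (h1 : n + g b = Nat.nth Nat.Prime i) (h2 : Cs (fun a => n + g a) (i + 1) (rs b y)) :
    Gp g i y := by
  induction y generalizing b i with
  | nil => trivial
  | cons a y ih => exact ⟨by rw [← h2.1, ← h1, add_assoc, ← hg], ih h2.1 h2.2⟩

theorem Cs_Gp {g : M → ℕ} {n i i' : ℕ} {y : List M} (h1 : Cs (fun a => n + g a) i y)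
    (h2 : Gp g i' y) : ∀ j < y.length, Nat.nth Nat.Prime (i + j) + Nat.nth Nat.Prime (i' + j)
      = n + Nat.nth Nat.Prime (i' + j + 1) := by
  induction y generalizing i i' with
  | nil => simp
  | cons a y ih =>
    rintro (_ | j) hj
    · have := h1.1
      have := h2.1
      simp only [add_zero] at *
      omega
    · simpa [add_assoc, add_comm 1] using ih h1.2 h2.2 j (by simpa using hj)

theorem length_filter (p : M → Prop) [DecidablePred p] (l : List M) :
    (l.filter p).length = (univ.filter fun j : Fin l.length => p l[j]).card := by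
  rw [card_filter]
  induction l with
  | nil => simp
  | cons a l ih =>
    simp only [List.length_cons, Fin.sum_univ_succ, List.filter_cons]
    by_cases h : p a <;> simp [h, ih, add_comm]

theorem good_chain {m X D : ℕ} {g : M → ℕ} {u : List M} (h1 : u.Pairwise fun a b => g a < g b)
    (h2 : ∀ a ∈ u, g a < D) (h : Good m X D fun j : Fin u.length => g u[j]) {m' : ℕ}
    (hm : m' ≤ m) (hm0 : 0 < m) : ∃ n i, ∃ s : List M, s.Sublist u ∧ s.length = m' ∧
      Cs (fun a => n + g a) i s ∧ X ≤ Nat.nth Nat.Prime i + D ∧ Nat.nth Nat.Prime i ≤ 16 * X + D := by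
  obtain ⟨n, g1, g2, g3, g4⟩ := h
  rw [← length_filter (fun a => (n + g a).Prime)] at g3
  have s1 := List.filter_sublist (p := fun a => decide (n + g a).Prime) (l := u)
  have s2 := fun a => List.mem_filter (p := fun a => decide (n + g a).Prime) (as := u) (x := a)
  generalize u.filter (fun a => decide (n + g a).Prime) = s at *
  cases s with
  | nil => simp at g3; omega
  | cons a l =>
    have h3 := (h1.sublist s1).imp (S := fun a b => n + g a < n + g b) fun h => by omega
    have h4 : ∀ b ∈ a :: l, b ∈ u ∧ (n + g b).Prime := fun b hb => by simpa using (s2 b).1 hb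
    have h5 := Cs_closed (f := fun a => n + g a) h3 (fun b hb => (h4 b hb).2) fun q hq h b hb h' => by
      have h6 := h2 b (h4 b (List.mem_cons_of_mem _ hb)).1
      have e : n + (q - n) = q := by omega
      obtain ⟨j, hj⟩ := g4 (q - n) (by omega) (e.symm ▸ hq)
      simp only at hj
      rcases List.mem_cons.1 ((s2 u[j]).2 ⟨List.getElem_mem _, by rw [← hj, e]; simpa using hq⟩)
        with h7 | h7
      · rw [h7] at hj; omega
      · exact ⟨_, h7, by omega⟩
    have h6 := h2 a (h4 a List.mem_cons_self).1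
    refine ⟨n, _, (a :: l).take m', (List.take_sublist _ _).trans s1,
      List.length_take_of_le (hm.trans g3), Cs_take h5 m', ?_⟩
    rw [← h5.1]
    constructor <;> simp only <;> omega

theorem nth_add_le (i c : ℕ) : Nat.nth Nat.Prime (i + c) ≤ 2 ^ c * Nat.nth Nat.Prime i := by
  induction c with
  | zero => simp
  | succ c ih =>
    obtain ⟨p, hp, h1, h2⟩ := Nat.exists_prime_lt_and_le_two_mul _
      (Nat.prime_nth_prime (i + c)).ne_zero
    have : Nat.nth Nat.Prime (i + c + 1) ≤ p := not_lt.1 fun h =>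
      absurd (Nat.le_nth_of_lt_nth_succ h hp) (not_le.2 h1)
    rw [← add_assoc, pow_succ', mul_assoc]
    omega

theorem stage_data (m c : ℕ) : ∃ k, ∀ N, ∃ (x : ℕ → ℕ) (W X X' D : ℕ),
    2 ^ c * (16 * X + D) + D < X' ∧ ∀ u : List (ℕ → ℕ), u.length = k → u.Pairwise Top →
      (∀ a ∈ u, Ok N a) → (u.Pairwise fun a b => W * val N x a < W * val N x b) ∧
        (∀ a ∈ u, W * val N x a < D) ∧ (Good m X D fun j : Fin u.length => W * val N x u[j]) ∧
          Good m X' D fun j : Fin u.length => W * val N x u[j] := by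
  classical
  obtain ⟨k, hk⟩ := thmA m
  refine ⟨k, fun N => ?_⟩
  obtain ⟨W, hW, h⟩ := hk (1 / (4 * 2 ^ (N * k) * (3 ^ N) ^ k)) (by positivity)
  obtain ⟨H0, h⟩ := eventually_atTop.1 h
  obtain ⟨H, hH⟩ : ∃ H, H = H0 + W + c + 3 := ⟨_, rfl⟩
  have hH0 : 0 < H := by omega
  obtain ⟨H', hH'⟩ : ∃ H', H' = 3 ^ N * H := ⟨_, rfl⟩
  have hHH : H ≤ H' := hH' ▸ Nat.le_mul_of_pos_left _ (by positivity)
  have h1 : (c + 3 : ℝ) ≤ H' := by exact_mod_cast (by omega : c + 3 ≤ H')
  have l3 : 1 ≤ Real.log 3 := by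
    rw [Real.le_log_iff_exp_le (by norm_num)]; exact Real.exp_one_lt_three.le
  have l3' : Real.log 3 ≤ 2 := by linarith [Real.log_le_sub_one_of_pos (show (0 : ℝ) < 3 by norm_num)]
  have l2 : Real.log 2 ≤ 1 := by linarith [Real.log_two_lt_d9]
  have l2' : 0 ≤ Real.log 2 := Real.log_nonneg one_le_two
  have hc : (0 : ℝ) ≤ c := Nat.cast_nonneg c
  have hp : (1 : ℝ) ≤ H' ^ 3 := one_le_pow₀ (by linarith)
  have b1 := h H' (by omega) (3 ^ H' ^ 3) (by push_cast; rw [Real.log_pow]; push_cast; nlinarith)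
    (by push_cast; rw [Real.log_pow, pow_succ _ 3]; push_cast; nlinarith)
  have e : Real.log (2 ^ (c + 1) * 3 ^ H' ^ 3 : ℕ) = (c + 1) * Real.log 2 + H' ^ 3 * Real.log 3 := by
    push_cast
    rw [Real.log_mul (by positivity) (by positivity), Real.log_pow, Real.log_pow]
    push_cast; rfl
  have b2 := h H' (by omega) (2 ^ (c + 1) * 3 ^ H' ^ 3) (by rw [e]; nlinarith)
    (by rw [e, pow_succ _ 3]; nlinarith)
  obtain ⟨x, x1, x2⟩ := stage k N hH0 (fun t => Good m ((3 ^ H' ^ 3) ^ 40) (W * H') (fun j => W * t j)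
    ∧ Good m ((2 ^ (c + 1) * 3 ^ H' ^ 3) ^ 40) (W * H') fun j => W * t j) (by
      rw [← hH']
      simp only [not_and_or, filter_or]
      refine (Nat.mul_le_mul_left _ (card_union_le _ _)).trans_lt (Nat.cast_lt (α := ℝ).1 ?_)
      push_cast
      refine (mul_le_mul_of_nonneg_left (add_le_add b1 b2) (by positivity)).trans_lt ?_
      rw [hH']
      push_cast
      rw [mul_pow]
      field_simp
      norm_num)
  refine ⟨x, W, (3 ^ H' ^ 3) ^ 40, (2 ^ (c + 1) * 3 ^ H' ^ 3) ^ 40, W * H', ?_, fun u u1 u2 u3 =>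
    ⟨List.Pairwise.imp_of_mem (fun ha hb h => Nat.mul_lt_mul_of_pos_left
      (val_top hH0 x1 (u3 _ ha) (u3 _ hb) h) hW) u2, fun a ha => Nat.mul_lt_mul_of_pos_left
      (hH' ▸ val_lt hH0 (fun i => (x1 i).2) (u3 a ha).2.1 (u3 a ha).2.2) hW, ?_⟩⟩
  · have h2 : W * H' ≤ (3 ^ H' ^ 3) ^ 40 := by
      calc W * H' ≤ H' ^ 2 := by rw [sq]; exact Nat.mul_le_mul_right _ (by omega)
        _ ≤ H' ^ 3 := Nat.pow_le_pow_right (by omega) (by norm_num)
        _ ≤ 3 ^ H' ^ 3 := (Nat.lt_pow_self (by norm_num)).le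
        _ ≤ _ := Nat.le_self_pow (by norm_num) _
    have h3 : 32 * 2 ^ c ≤ (2 ^ (c + 1)) ^ 40 := by
      rw [← pow_mul, show 32 * 2 ^ c = 2 ^ (c + 5) by ring]
      exact Nat.pow_le_pow_right (by norm_num) (by omega)
    have h4 : 0 < (3 ^ H' ^ 3) ^ 40 := by positivity
    have h5 : 0 < 2 ^ c := by positivity
    rw [mul_pow]
    generalize (3 ^ H' ^ 3) ^ 40 = X at *
    nlinarith [Nat.mul_le_mul_right X h3, Nat.mul_le_mul_left (2 ^ c) h2,
      Nat.mul_le_mul_right X h5]
  · subst u1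
    exact x2 (fun j => u[j]) (fun j => u3 _ (List.getElem_mem _))
      fun j j' h => List.pairwise_iff_getElem.1 u2 j j' j.2 j'.2 h

theorem runs (L c : ℕ) : ∃ i i' n, i + c < i' ∧ ∀ j < L,
    Nat.nth Nat.Prime (i + j) + Nat.nth Nat.Prime (i' + j) = n + Nat.nth Nat.Prime (i' + j + 1) := by
  obtain ⟨k, hk⟩ := stage_data (L + 1) c
  choose x W X X' D h1 h2 using hk
  obtain ⟨N, y, y1, y2⟩ := two_colourings L k (fun s N y => if s then
      ∃ n i, Cs (fun a => n + W N * val N (x N) a) i y ∧ Nat.nth Nat.Prime i ≤ 16 * X N + D N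
      else ∃ i, Gp (fun a => W N * val N (x N) a) i y ∧ X' N ≤ Nat.nth Nat.Prime i + D N) (by
    intro s N z z1 z2 z3
    have z4 : ∀ a ∈ z, Ok N a := fun a ha => ⟨(z3 a ha).1.1, (z3 a ha).1.2.1, (z3 a ha).2⟩
    cases s with
    | true =>
      obtain ⟨g1, g2, g3, -⟩ := h2 N z z1 (List.Pairwise.imp_of_mem (fun {a b} _ hb h => by
        obtain ⟨i, hi⟩ := Function.ne_iff.1 (z4 b hb).1
        exact ⟨i, hi, fun i' h' => by_contra fun h3 => absurd (h i' i h3 hi) (not_lt.2 h')⟩) z2) z4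
      obtain ⟨n, i, s, s1, s2, s3, -, s4⟩ := good_chain g1 g2 g3 (Nat.le_succ L) (Nat.succ_pos L)
      exact ⟨s, blk_sublist s1, s2, n, i, s3, s4⟩
    | false =>
      obtain ⟨r1, r2⟩ := rs_top (b := 0) z2 z4 (fun a _ i i' h => absurd rfl h) (by simp) (by simp)
      obtain ⟨g1, g2, -, g3⟩ := h2 N (rs 0 z) ((length_rs 0 z).trans z1) r1 fun a ha => (r2 a ha).1
      obtain ⟨n, i, s, s1, s2, s3, s4, -⟩ := good_chain g1 g2 g3 le_rfl (Nat.succ_pos L)
      obtain ⟨y, y1, rfl⟩ := blk_rs add_assoc s1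
      rw [length_rs] at s2
      cases y with
      | nil => simp at s2
      | cons a y =>
        exact ⟨y, blk_tail y1, by simpa using s2, i,
          Gp_rs (fun a b => by rw [val_add, mul_add]) s3.1 s3.2, s4⟩)
  obtain ⟨n, i, c1, c2⟩ := y2 true
  obtain ⟨i', c3, c4⟩ := y2 false
  refine ⟨i, i', n, not_le.1 fun h => ?_, y1 ▸ Cs_Gp c1 c3⟩
  have hm : StrictMono (Nat.nth Nat.Prime) := Nat.nth_strictMono Nat.infinite_setOfPred_prime
  have h3 := (hm.monotone h).trans (nth_add_le i c)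
  have h4 := Nat.mul_le_mul_left (2 ^ c) c2
  have h5 := h1 N
  omega

end Pool.Agent.Lib.MP_bee098_nt
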