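import Pool.Agent.Lib.MP_bee098_nt.Chars

/-! The lower bound for the sieve weight on shifted primes. -/

open Finset

namespace Pool.Agent.Lib.MP_bee098_nt

variable {ι K : Type} [Fintype ι] [DecidableEq ι] [Fintype K] [DecidableEq K]
variable (P : ι → ℕ) [hP : ∀ i, Fact (P i).Prime]

/-- Discrepancy of the function with Fourier coefficients `Ψ`. -/
noncomputable def Ec (Ψ : Ch P → ℂ) (α : ∀ i, Option (ZMod (P i))) : ℂ :=
  ∑ χ : Ch P, (∏ i, kap (α i) (χ i)) * Ψ χ

/-- The residue vector attached to a class vector. -/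
def al (h : K → ℕ) (m : K) (ρ : ι → Option K) (i : ι) : Option (ZMod (P i)) :=
  (ρ i).map fun j => (h m : ZMod (P i)) - h j

/-- Class vectors which occur in the error term. -/
noncomputable def Rs (B : Finset ι) (m : K) (L : ℝ) : Finset (ι → Option K) :=
  univ.filter fun ρ => sp ρ ≠ ∅ ∧ Disjoint (sp ρ) B ∧ (∀ i, ρ i ≠ some m) ∧ lp P (sp ρ) ≤ L

/-- The error term. -/
noncomputable def Er (B : Finset ι) (h : K → ℕ) (m : K) (L C : ℝ) (Ψ : Ch P → ℂ) : ℝ :=
  ∑ ρ ∈ Rs P B m L, C ^ (sp ρ).card * ‖Ec P Ψ (al P h m ρ)‖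

open Classical in
/-- The class of `n`. -/
noncomputable def cls (A : K → Finset ι) (a : ∀ i, K → ZMod (P i)) (n : ℕ) (i : ι) : Option K :=
  if h : ∃ j, i ∈ A j ∧ (n : ZMod (P i)) = a i j then some h.choose else none

omit [Fintype ι] [DecidableEq K] in
theorem cls_eq {A : K → Finset ι} {a : ∀ i, K → ZMod (P i)}
    (ha : ∀ i j j', i ∈ A j → i ∈ A j' → a i j = a i j' → j = j') (n : ℕ) (i : ι) (j : K) :
    cls P A a n i = some j ↔ i ∈ A j ∧ (n : ZMod (P i)) = a i j := by
  unfold cls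
  split_ifs with h
  · rw [Option.some.injEq]
    exact ⟨fun h1 => h1 ▸ h.choose_spec, fun h1 => ha i _ _ h.choose_spec.1 h1.1
      (h.choose_spec.2.symm.trans h1.2)⟩
  · simpa using fun h1 h2 => h ⟨j, h1, h2⟩

theorem et_eq {A : K → Finset ι} {a : ∀ i, K → ZMod (P i)}
    (ha : ∀ i j j', i ∈ A j → i ∈ A j' → a i j = a i j' → j = j')
    (h0 : ∀ i j, i ∈ A j → a i j ≠ 0) {n : ℕ} (hn : ∀ i, (n : ZMod (P i)) ≠ 0)
    {ρ : ι → Option K} (hρ : ∀ i j, ρ i = some j → i ∈ A j) :
    ((∏ i, et P i (ρ i) (cls P A a n i) : ℝ) : ℂ)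
      = ∑ χ : Ch P, (∏ i, kap ((ρ i).map (a i)) (χ i)) * Xc P χ n := by
  simp only [Xc, ← Finset.prod_mul_distrib]
  rw [← Fintype.prod_sum (fun i χ => kap ((ρ i).map (a i)) χ * loc χ (n : ZMod (P i))),
    Complex.ofReal_prod]
  refine Finset.prod_congr rfl fun i _ => ?_
  cases h : ρ i with
  | none =>
    rw [Finset.sum_eq_single 1 (fun χ _ h1 => by simp [kap, h1]) (by simp)]
    simp [et, kap, loc]
  | some j =>
    rw [Option.map_some, kap_sum (h0 i j (hρ i j h)) (hn i)]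
    simp only [et, cls_eq P ha, hρ i j h, true_and]
    split_ifs <;> simp

omit [Fintype ι] [DecidableEq ι] in
theorem om_le (i : ι) : om (P i) ≤ 2 * (P i : ℝ)⁻¹ := by
  have := two_le P i
  rw [om, ← div_eq_mul_inv, inv_eq_one_div, div_le_div_iff₀ (by linarith) (by linarith)]
  linarith

omit [Fintype ι] in
theorem oA_le (A : Finset ι) (i : ι) : oA P A i ≤ if i ∈ A then 2 * (P i : ℝ)⁻¹ else 0 := by
  unfold oA; split_ifs
  · exact om_le P i
  · rfl

omit [Fintype ι] in
theorem vA_le (A : Finset ι) (i : ι) : vA P A i ≤ if i ∈ A then 8 * (P i : ℝ)⁻¹ else 0 := by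
  unfold vA; split_ifs
  · have := two_le P i
    have h := pow_le_pow_left₀ (om_pos P i).le (om_le P i) 3
    refine (mul_le_mul_of_nonneg_left h (by positivity)).trans (le_of_eq ?_)
    field_simp
    norm_num
  · rfl

theorem s2_lower (hinj : Function.Injective P) (A B : Finset ι) (hAB : Disjoint A B) {w : ℕ}
    (hw : ∀ i ∈ A, w < P i) (hwk : 1536 * Fintype.card K ^ 2 ≤ w) (h : K → ℕ) (m : K)
    (hd : ∀ i ∈ A, ∀ j j', (h j : ZMod (P i)) = h j' → j = j')
    (hB : ∀ i ∈ B, (h m : ZMod (P i)) = 0) {g : Finset ι → ℝ} (h0 : ∀ T, 0 ≤ g T)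
    (hg : Antitone g) {L : ℝ} (hL : 0 < L) (hs : ∀ T, g T ≠ 0 → lp P T ≤ L / 2) {x : ℝ}
    (hx : 0 ≤ x) (hxL : 12 * Fintype.card K * x ≤ L)
    (hl : ws (vA P A) (fun T => g T ^ 2 * lp P T) ≤ x * ws (vA P A) (fun T => g T ^ 2))
    {X : ℝ} (hX : 1 < X) (hXP : ∀ i, P i < X) (hXh : h m ≤ X) (Y : ℕ) :
    (ws (oA P A) g ^ 2 * ∏ j, ws (vA P A) fun T => gm g m j T ^ 2) *
      ((∑ n ∈ Ioc 0 Y, aw X n) / 2 - 3 * Er P B h m (2 * L)
        (2 * (Fintype.card K + 1) * 2 ^ Fintype.card K) (Ps P X Y))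
      ≤ ∑ n ∈ range (Y + 1), aw X (n + h m) * sw P B (fun _ => A) h (yy P g L) n := by
  set k : ℝ := (Fintype.card K : ℝ) with hk
  have hk1 : 1 ≤ Fintype.card K := Fintype.card_pos_iff.2 ⟨m⟩
  have hk1' : 1 ≤ k := by rw [hk]; exact_mod_cast hk1
  have hw' : 1536 * k ^ 2 ≤ w := by rw [hk]; exact_mod_cast hwk
  have hw1 : 1 ≤ w := by nlinarith
  have hw0 : (0 : ℝ) < w := by nlinarith
  let A' : K → Finset ι := fun j => if j = m then ∅ else A
  have hA' : ∀ j, A' j ⊆ A := fun j => by simp only [A']; split_ifs <;> simp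
  have hA'' : ∀ i j, i ∈ A' j → j ≠ m := fun i j h1 h2 => by simp [A', h2] at h1
  let a : ∀ i, K → ZMod (P i) := fun i j => (h m : ZMod (P i)) - h j
  have ha : ∀ i j j', i ∈ A' j → i ∈ A' j' → a i j = a i j' → j = j' :=
    fun i j j' h1 _ h2 => hd i (hA' j h1) j j' (sub_right_injective h2)
  have ha0 : ∀ i j, i ∈ A' j → a i j ≠ 0 := fun i j h1 h2 =>
    hA'' i j h1 (hd i (hA' j h1) _ _ (sub_eq_zero.1 h2)).symm
  have hom : ∀ i ∈ A, 2 * k * om (P i) ≤ 1 := fun i hi => by
    have h1 : (w : ℝ) + 1 ≤ P i := by exact_mod_cast hw i hi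
    nlinarith [om_mul P i, om_pos P i, mul_nonneg (om_pos P i).le
      (show 0 ≤ (P i : ℝ) - 1 - 2 * k by nlinarith)]
  set y := yh (yy P g L) m (oA P A) with hy
  set M := ws (oA P A) g ^ 2 * ∏ j, ws (vA P A) fun T => gm g m j T ^ 2 with hM
  have hM0 : 0 ≤ M := mul_nonneg (sq_nonneg _) (Finset.prod_nonneg fun j _ =>
    ws_nonneg (vA_nonneg P A) fun _ => sq_nonneg _)
  have hunit : ∀ n, aw X n ≠ 0 → ∀ i, (n : ZMod (P i)) ≠ 0 := fun n hn i h1 => by
    obtain ⟨h2, h3, -⟩ := aw_support hX hn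
    have h4 := (Nat.prime_dvd_prime_iff_eq (hP i).out h2).1 ((ZMod.natCast_eq_zero_iff _ _).1 h1)
    have := hXP i
    rw [h4] at this
    linarith
  have s1 : ∑ n ∈ Ioc 0 Y, aw X n * Zf y (fun i => fC P A' i (cls P A' a n i)) ^ 2
      ≤ ∑ n ∈ range (Y + 1), aw X (n + h m) * sw P B (fun _ => A) h (yy P g L) n := by
    rw [← Finset.sum_filter_of_ne (p := fun n => aw X n ≠ 0) fun n _ h1 => left_ne_zero_of_mul h1]
    have hle : ∀ n, aw X n ≠ 0 → h m ≤ n := fun n hn => by
      exact_mod_cast hXh.trans (aw_support hX hn).2.1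
    rw [Finset.sum_congr rfl fun n hn => show _ = aw X (n - h m + h m) *
      sw P B (fun _ => A) h (yy P g L) (n - h m) by
        have h1 := (mem_filter.1 hn).2
        have e1 : ∀ i, ((n - h m : ℕ) : ZMod (P i)) = n - h m := fun i => Nat.cast_sub (hle n h1)
        have e2 : ∀ i, cB P B i (n - h m : ℕ) = 1 := fun i => if_neg fun h2 =>
          hunit n h1 i (by rw [← h2.2, e1, hB i h2.1, sub_zero])
        rw [Nat.sub_add_cancel (hle n h1), sw, Finset.prod_eq_one fun i _ => e2 i, one_mul,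
          Z_collapse (yy P g L) m _ (fun i => fC P A' i (cls P A' a n i)) fun i j hj => ?_]
        · rw [show (fun i => fU P (fun _ => A) h i (n - h m : ℕ) m) = oA P A from
            funext fun i => by simp [fU, fv, oA, e1, hunit n h1 i]]
        · simp only [fC, fU, fv, cls_eq P ha, A', if_neg hj, e1, a]
          split_ifs with h2 h3 h4 h4
          · rfl
          · exact absurd (by rw [h3.2]; ring) h4
          · exact absurd ⟨h2, by linear_combination h4⟩ h3
          all_goals rfl]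
    rw [← Finset.sum_image (g := fun n => n - h m)
      (f := fun n => aw X (n + h m) * sw P B (fun _ => A) h (yy P g L) n) fun n hn n' hn' e => by
        have h1 := hle n (mem_filter.1 hn).2
        have h2 := hle n' (mem_filter.1 hn').2
        simp only at e
        omega]
    refine Finset.sum_le_sum_of_subset_of_nonneg (fun n hn => ?_) fun n _ _ =>
      mul_nonneg (aw_nonneg X _) (sw_nonneg P B _ h _ n)
    obtain ⟨n', hn', rfl⟩ := mem_image.1 hn
    have := (mem_Ioc.1 (mem_filter.1 hn').1).2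
    rw [mem_range]; omega
  have s2 : ∑ n ∈ Ioc 0 Y, aw X n * Zf y (fun i => fC P A' i (cls P A' a n i)) ^ 2
      = ∑ ρ, Dc P A' y ρ * ∑ n ∈ Ioc 0 Y, aw X n * ∏ i, et P i (ρ i) (cls P A' a n i) := by
    simp only [Finset.mul_sum]
    rw [Finset.sum_comm]
    refine Finset.sum_congr rfl fun n _ => ?_
    rw [class_expand P A' y _ fun i j h1 => ((cls_eq P ha n i j).1 h1).1, Finset.mul_sum]
    exact Finset.sum_congr rfl fun ρ _ => by ring
  have s3 : M / 2 ≤ Dc P A' y fun _ => none := by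
    refine le_trans ?_ (Dc_ge P A' A hA' hom y)
    have q := quad_ge P h0 hg hL hs m (oA_nonneg P A) (vA_nonneg P A)
      (e := fun i => 2 * k * oA P A i) (fun i => mul_nonneg (by positivity) (oA_nonneg P A i))
      (fun i => by
        unfold oA; split_ifs with h1
        · exact hom i h1
        · simp) hx hl
    have q1 := sum_sq_inv P hinj A hw1 hw
    have q2 : ∑ i, vA P A i ^ 2 ≤ 64 * ∑ i ∈ A, ((P i : ℝ) ^ 2)⁻¹ := by
      refine (Finset.sum_le_sum fun i _ => pow_le_pow_left₀ (vA_nonneg P A i) (vA_le P A i) 2).trans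
        (le_of_eq ?_)
      simp only [ite_pow, Finset.mul_sum, mul_pow, inv_pow]
      norm_num
    have q3 : ∑ i, (2 * oA P A i + 2 * k * oA P A i) * vA P A i
        ≤ 64 * k * ∑ i ∈ A, ((P i : ℝ) ^ 2)⁻¹ := by
      calc _ ≤ ∑ i, 4 * k * (if i ∈ A then 2 * (P i : ℝ)⁻¹ else 0) *
            (if i ∈ A then 8 * (P i : ℝ)⁻¹ else 0) := by
            refine Finset.sum_le_sum fun i _ => mul_le_mul ?_ (vA_le P A i) (vA_nonneg P A i)
              (by split_ifs <;> positivity)
            nlinarith [oA_le P A i, oA_nonneg P A i]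
        _ = _ := by
            simp only [mul_ite, mul_zero, Finset.sum_ite_mem, univ_inter, Finset.mul_sum]
            refine Finset.sum_congr rfl fun i hi => ?_
            rw [if_pos hi, ← inv_pow]; ring
    have q4 : k ^ 2 * (w : ℝ)⁻¹ ≤ 1 / 1536 := by
      rw [← div_eq_mul_inv, div_le_div_iff₀ hw0 (by norm_num)]; linarith
    have q5 : k * (2 * x / L) ≤ 1 / 6 := by
      rw [← mul_div_assoc, div_le_div_iff₀ hL (by norm_num)]; linarith
    have q6 : 2 / 3 ≤ ∏ i ∈ A, (1 - ((P i : ℝ) ^ 2)⁻¹) := by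
      refine le_trans ?_ (one_sub_sum_le_prod A _ (fun i _ => by positivity) fun i _ =>
        inv_le_one_of_one_le₀ (by nlinarith [two_le P i]))
      nlinarith [inv_pos.2 hw0]
    have q7 : 3 / 4 * M ≤ ∑ T ∈ Dj ι K,
        (∏ j, ∏ i ∈ T j, vA P (A' j) i * (1 - 2 * k * oA P A i)) * y T ^ 2 := by
      refine le_trans (mul_le_mul_of_nonneg_right ?_ hM0) (q.trans (le_of_eq
        (Finset.sum_congr rfl fun T _ => ?_)))
      · rw [← hk]
        nlinarith [mul_le_mul_of_nonneg_left q1 (sq_nonneg k),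
          mul_le_mul_of_nonneg_left q2 (sq_nonneg k),
          mul_le_mul_of_nonneg_left q3 (show 0 ≤ k by linarith)]
      · by_cases h1 : T m = ∅
        · congr 1
          refine Finset.prod_congr rfl fun j _ => ?_
          by_cases h2 : j = m
          · simp [h2, h1]
          · simp [A', h2]
        · simp [hy, yh, h1]
    nlinarith [mul_le_mul q6 q7 (by positivity) (by linarith)]
  have s4 : ∀ ρ, |Dc P A' y ρ| ≤ 3 * M * (2 * (k + 1) * 2 ^ Fintype.card K) ^ (sp ρ).card := by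
    intro ρ
    refine (Dc_le P A' A hA' hom y ρ).trans ?_
    have q1 := prod_one_add_sq P hinj A hw1 zero_le_two
      (f := fun i => if i ∈ A then 2 * ((P i : ℝ) ^ 2)⁻¹ else 0)
      (fun i => by split_ifs <;> positivity) (fun i hi => if_neg hi) (fun i hi => (if_pos hi).le) hw
    have q2 : ∏ i ∈ A, (1 + 2 * ((P i : ℝ) ^ 2)⁻¹) ≤ 3 := by
      refine le_trans (le_of_eq ?_) (q1.trans ((Real.exp_le_exp.2 ?_).trans
        Real.exp_one_lt_three.le))
      · rw [← Finset.prod_subset (subset_univ A) fun i _ hi => by simp [hi]]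
        exact Finset.prod_congr rfl fun i hi => by rw [if_pos hi]
      · rw [div_le_one hw0]; nlinarith
    have hb : ∀ i, 0 ≤ if i ∈ sp ρ then 1 else vA P A i := fun i => by
      split_ifs; exacts [zero_le_one, vA_nonneg P A i]
    have q3 := quad_le (b := fun i (_ : K) => if i ∈ sp ρ then 1 else vA P A i) (fun i _ => hb i)
      (yh_nonneg P h0 L m (oA_nonneg P A)) (yh_le P h0 L m (oA_nonneg P A))
    have q4 : ∏ j, ws (fun i => if i ∈ sp ρ then 1 else vA P A i) (fun T => gm g m j T ^ 2)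
        ≤ ∏ j, (2 ^ (sp ρ).card * ws (vA P A) fun T => gm g m j T ^ 2) := by
      refine Finset.prod_le_prod (fun j _ => ws_nonneg hb fun _ => sq_nonneg _) fun j _ => ?_
      have := ws_change (b := fun _ => 1) (sp ρ) (vA_nonneg P A) hb (fun _ => sq_nonneg _)
        (gm_sq_anti h0 hg m j) (fun i hi => (if_neg hi).le) fun i hi => (if_pos hi).le
      rwa [Finset.prod_const, one_add_one_eq_two] at this
    rw [Finset.prod_mul_distrib, Finset.prod_const, card_univ] at q4
    calc _ ≤ 3 * (2 * (k + 1)) ^ (sp ρ).card * (ws (oA P A) g ^ 2 * ((2 ^ (sp ρ).card) ^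
          Fintype.card K * ∏ j, ws (vA P A) fun T => gm g m j T ^ 2)) :=
          mul_le_mul (by gcongr) (q3.trans (by gcongr)) (Finset.sum_nonneg fun T _ => mul_nonneg
            (Finset.prod_nonneg fun j _ => Finset.prod_nonneg fun i _ => hb i) (sq_nonneg _))
            (by positivity)
      _ = _ := by rw [hM, mul_pow (2 * (k + 1)), ← pow_mul, ← pow_mul, mul_comm (sp ρ).card]; ring
  have s5 : ∀ ρ ∈ univ.erase (fun _ => none), -(if ρ ∈ Rs P B m (2 * L) then 3 * M *
      ((2 * (k + 1) * 2 ^ Fintype.card K) ^ (sp ρ).card * ‖Ec P (Ps P X Y) (al P h m ρ)‖) else 0)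
      ≤ Dc P A' y ρ * ∑ n ∈ Ioc 0 Y, aw X n * ∏ i, et P i (ρ i) (cls P A' a n i) := by
    intro ρ hρ
    by_cases h1 : Dc P A' y ρ = 0
    · rw [h1, zero_mul, neg_nonpos]
      split_ifs <;> positivity
    obtain ⟨h2, h3⟩ := Dc_support P A' (yh_support P L m (oA P A)) ρ h1
    have h4 : ρ ∈ Rs P B m (2 * L) := by
      refine mem_filter.2 ⟨mem_univ _, fun h5 => ne_of_mem_erase hρ (funext fun i => ?_),
        Finset.disjoint_left.2 fun i hi => ?_, fun i hi => hA'' i m (h2 i m hi) rfl, h3⟩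
      · simpa using filter_eq_empty_iff.1 h5 (mem_univ i)
      · obtain ⟨j, hj⟩ := Option.ne_none_iff_exists'.1 (mem_filter.1 hi).2
        exact Finset.disjoint_left.1 hAB (hA' j (h2 i j hj))
    have h5 : ((∑ n ∈ Ioc 0 Y, aw X n * ∏ i, et P i (ρ i) (cls P A' a n i) : ℝ) : ℂ)
        = Ec P (Ps P X Y) (al P h m ρ) := by
      simp only [Ec, Ps, Finset.mul_sum]
      rw [Finset.sum_comm, Complex.ofReal_sum]
      refine Finset.sum_congr rfl fun n _ => ?_
      by_cases h6 : aw X n = 0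
      · simp [h6]
      · rw [Complex.ofReal_mul, et_eq P ha ha0 (hunit n h6) h2, Finset.mul_sum]
        exact Finset.sum_congr rfl fun χ _ => by simp only [al, a]; ring
    rw [if_pos h4, ← h5, Complex.norm_real, Real.norm_eq_abs, ← mul_assoc]
    refine le_trans ?_ (neg_abs_le _)
    rw [abs_mul, neg_le_neg_iff]
    exact mul_le_mul_of_nonneg_right (s4 ρ) (abs_nonneg _)
  refine le_trans ?_ s1
  rw [s2, ← Finset.add_sum_erase univ _ (mem_univ fun _ => none), mul_sub, sub_eq_add_neg]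
  refine add_le_add ?_ (le_trans ?_ (Finset.sum_le_sum s5))
  · simp only [et, Finset.prod_const_one, mul_one]
    rw [← mul_div_assoc, mul_div_right_comm]
    exact mul_le_mul_of_nonneg_right s3 (Finset.sum_nonneg fun n _ => aw_nonneg X n)
  · rw [Finset.sum_neg_distrib, neg_le_neg_iff, Finset.sum_ite_mem, ← Finset.mul_sum, Er,
      ← mul_assoc M, mul_comm M]
    refine mul_le_mul_of_nonneg_left (Finset.sum_le_sum_of_subset_of_nonneg inter_subset_right
      fun _ _ _ => ?_) ?_ <;> positivity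

end Pool.Agent.Lib.MP_bee098_nt
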