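import Pool.Agent.Lib.MP_bee098_nt.Tensor

/-! Sums of products of periodic functions over intervals. -/

open Finset

namespace Pool.Agent.Lib.MP_bee098_nt

variable {𝕜 : Type} [RCLike 𝕜]

/-- `F` has period `q`, mean `μ` and is bounded by one. -/
def Per (q : ℕ) (F : ℕ → 𝕜) (μ : 𝕜) : Prop :=
  Function.Periodic F q ∧ ∑ n ∈ range q, F n = q * μ ∧ ∀ n, ‖F n‖ ≤ 1

theorem Per.mul {q q' : ℕ} (hq : 0 < q) (hq' : 0 < q') (h : q.Coprime q') {F G : ℕ → 𝕜}
    {μ ν : 𝕜} (hF : Per q F μ) (hG : Per q' G ν) : Per (q * q') (fun n => F n * G n) (μ * ν) := by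
  refine ⟨fun n => ?_, ?_, fun n => ?_⟩
  · have h1 := hF.1.nat_mul q' n
    have h2 := hG.1.nat_mul q n
    simp only [Nat.cast_id] at h1 h2
    simp only
    rw [h2, mul_comm q q', h1]
  · have : ∑ n ∈ range (q * q'), F n * G n = ∑ x ∈ range q ×ˢ range q', F x.1 * G x.2 := by
      refine Finset.sum_nbij' (fun n => (n % q, n % q'))
        (fun x => (Nat.chineseRemainder h x.1 x.2 : ℕ)) ?_ ?_ ?_ ?_ ?_
      · intro n _
        simp [Nat.mod_lt _ hq, Nat.mod_lt _ hq']
      · intro x _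
        simpa using Nat.chineseRemainder_lt_mul h x.1 x.2 hq.ne' hq'.ne'
      · intro n hn
        have h1 := Nat.chineseRemainder_modEq_unique h (a := n % q) (b := n % q') (z := n)
          (Nat.mod_modEq n q).symm (Nat.mod_modEq n q').symm
        exact (Nat.ModEq.eq_of_lt_of_lt h1 (by simpa using hn)
          (Nat.chineseRemainder_lt_mul h _ _ hq.ne' hq'.ne')).symm
      · intro x hx
        simp only [mem_product, mem_range] at hx
        have h1 := (Nat.chineseRemainder h x.1 x.2).2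
        refine Prod.ext ?_ ?_
        · exact Eq.trans h1.1 (Nat.mod_eq_of_lt hx.1)
        · exact Eq.trans h1.2 (Nat.mod_eq_of_lt hx.2)
      · intro n _
        simp only [hF.1.map_mod_nat, hG.1.map_mod_nat]
    rw [this, Finset.sum_product, ← Finset.sum_mul_sum, hF.2.1, hG.2.1]
    push_cast; ring
  · rw [norm_mul]; exact mul_le_one₀ (hF.2.2 n) (norm_nonneg _) (hG.2.2 n)

theorem Per.block {q : ℕ} {F : ℕ → 𝕜} {μ : 𝕜} (hF : Per q F μ) (a : ℕ) :
    ∑ n ∈ Ico a (a + q), F n = q * μ := by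
  induction a with
  | zero => rw [zero_add, ← range_eq_Ico]; exact hF.2.1
  | succ a ih =>
    have h1 := Finset.sum_Ico_succ_top (by omega : a ≤ a + q) F
    have h2 := Finset.sum_eq_sum_Ico_succ_bot (by omega : a < a + q + 1) F
    rw [h1, ih, hF.1 a] at h2
    rw [show a + 1 + q = a + q + 1 by ring]
    linear_combination -h2

theorem Per.interval {q : ℕ} (hq : 0 < q) {F : ℕ → 𝕜} {μ : 𝕜} (hF : Per q F μ) (a N : ℕ) :
    ‖∑ n ∈ Ico a (a + N), F n - N * μ‖ ≤ 2 * q := by
  have hμ : ‖μ‖ ≤ 1 := by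
    have h1 : ‖(q : 𝕜) * μ‖ ≤ q := by
      rw [← hF.2.1]
      refine (norm_sum_le _ _).trans ((Finset.sum_le_sum fun n _ => hF.2.2 n).trans ?_)
      simp
    rw [norm_mul, RCLike.norm_natCast] at h1
    have : (0 : ℝ) < q := by exact_mod_cast hq
    nlinarith
  induction N using Nat.strong_induction_on with
  | _ N ih =>
    rcases lt_or_ge N q with h | h
    · have h1 : ‖∑ n ∈ Ico a (a + N), F n‖ ≤ N := by
        refine (norm_sum_le _ _).trans ((Finset.sum_le_sum fun n _ => hF.2.2 n).trans ?_)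
        simp
      have h2 : ‖(N : 𝕜) * μ‖ ≤ N := by
        rw [norm_mul, RCLike.norm_natCast]
        exact mul_le_of_le_one_right (by positivity) hμ
      have h3 : (N : ℝ) ≤ q := by exact_mod_cast h.le
      linarith [norm_sub_le (∑ n ∈ Ico a (a + N), F n) ((N : 𝕜) * μ)]
    · obtain ⟨M, rfl⟩ := Nat.exists_eq_add_of_le' h
      rw [← add_assoc, ← Finset.sum_Ico_consecutive F (by omega : a ≤ a + M)
        (by omega : a + M ≤ a + M + q), hF.block]
      convert ih M (by omega) using 2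
      push_cast; ring

theorem sum_range_zmod (p : ℕ) [NeZero p] (ψ : ZMod p → 𝕜) :
    ∑ n ∈ range p, ψ n = ∑ s, ψ s := by
  refine Finset.sum_nbij' (fun n => (n : ZMod p)) (fun s => s.val) ?_ ?_ ?_ ?_ ?_
  · simp
  · intro s _; simpa using ZMod.val_lt s
  · intro n hn; exact ZMod.val_cast_of_lt (by simpa using hn)
  · intro s _; simp
  · simp

variable {ι : Type} [Fintype ι] [DecidableEq ι] (P : ι → ℕ) [hP : ∀ i, Fact (P i).Prime]

omit [Fintype ι] in
theorem per_finset (hinj : Function.Injective P) (ψ : ∀ i, ZMod (P i) → 𝕜)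
    (hψ : ∀ i s, ‖ψ i s‖ ≤ 1) (T : Finset ι) :
    Per (∏ i ∈ T, P i) (fun n => ∏ i ∈ T, ψ i n) (∏ i ∈ T, (∑ s, ψ i s) / P i) := by
  induction T using Finset.induction_on with
  | empty => exact ⟨fun _ => rfl, by simp, by simp⟩
  | insert j T hj ih =>
    simp only [Finset.prod_insert hj]
    refine Per.mul (hP j).out.pos (Finset.prod_pos fun i _ => (hP i).out.pos) ?_ ?_ ih
    · refine Nat.Coprime.prod_right fun i hi => ?_
      rw [Nat.coprime_primes (hP j).out (hP i).out]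
      intro h
      exact hj (hinj h ▸ hi)
    · refine ⟨fun n => by simp, ?_, fun n => hψ _ _⟩
      rw [sum_range_zmod, mul_div_cancel₀]
      exact_mod_cast (hP j).out.ne_zero

theorem per_prod (hinj : Function.Injective P) (ψ : ∀ i, ZMod (P i) → 𝕜)
    (hψ : ∀ i s, ‖ψ i s‖ ≤ 1) (T : Finset ι) (hT : ∀ i ∉ T, ∀ s, ψ i s = 1) (a N : ℕ) :
    ‖∑ n ∈ Ico a (a + N), ∏ i, ψ i n - N * ∏ i, (∑ s, ψ i s) / P i‖
      ≤ 2 * ∏ i ∈ T, (P i : ℝ) := by
  have h := (per_finset P hinj ψ hψ T).interval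
    (Finset.prod_pos fun i _ => (hP i).out.pos) a N
  have e1 : ∀ n : ℕ, ∏ i, ψ i n = ∏ i ∈ T, ψ i n := fun n =>
    (Finset.prod_subset (subset_univ T) fun i _ hi => hT i hi _).symm
  have e2 : ∏ i, (∑ s, ψ i s) / P i = ∏ i ∈ T, (∑ s, ψ i s) / P i := by
    refine (Finset.prod_subset (subset_univ T) fun i _ hi => ?_).symm
    simp only [hT i hi, Finset.sum_const, Finset.card_univ, ZMod.card, nsmul_eq_mul, mul_one]
    exact div_self (by exact_mod_cast (hP i).out.ne_zero)
  simp only [e1, e2]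
  simpa using h

end Pool.Agent.Lib.MP_bee098_nt
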