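import Pool.Agent.Lib.MP_bee098_nt.Sums

/-! The quadratic forms of the multidimensional sieve. -/

open Finset

namespace Pool.Agent.Lib.MP_bee098_nt

variable {ι K : Type} [Fintype ι] [DecidableEq ι] [Fintype K] [DecidableEq K]

theorem sum_Dj_le (f : K → Finset ι → ℝ) (hf : ∀ j T, 0 ≤ f j T) :
    ∑ T ∈ Dj ι K, ∏ j, f j (T j) ≤ ∏ j, ∑ T, f j T := by
  rw [Fintype.prod_sum]
  exact Finset.sum_le_sum_of_subset_of_nonneg (subset_univ _) fun T _ _ =>
    Finset.prod_nonneg fun j _ => hf j _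

theorem quad_le {b : ι → K → ℝ} (hb : ∀ i j, 0 ≤ b i j) {y : (K → Finset ι) → ℝ} {G : ℝ}
    {γ : K → Finset ι → ℝ} (h0 : ∀ T, 0 ≤ y T) (h : ∀ T, y T ≤ G * ∏ j, γ j (T j)) :
    ∑ T ∈ Dj ι K, (∏ j, ∏ i ∈ T j, b i j) * y T ^ 2
      ≤ G ^ 2 * ∏ j, ws (fun i => b i j) (fun T => γ j T ^ 2) := by
  refine le_trans ?_ (mul_le_mul_of_nonneg_left (sum_Dj_le
    (fun j T => γ j T ^ 2 * ∏ i ∈ T, b i j) fun j T => mul_nonneg (sq_nonneg _)
      (Finset.prod_nonneg fun i _ => hb i j)) (sq_nonneg G))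
  rw [Finset.mul_sum]
  refine Finset.sum_le_sum fun T _ => ?_
  rw [Finset.prod_mul_distrib, Finset.prod_pow, ← mul_assoc, ← mul_pow, mul_comm]
  exact mul_le_mul_of_nonneg_right (pow_le_pow_left₀ (h0 T) (h T) 2)
    (Finset.prod_nonneg fun j _ => Finset.prod_nonneg fun i _ => hb i j)

omit [DecidableEq ι] in
theorem expect_le (f ξ : K → Finset ι → ℝ) (x : K → ℝ) (hf : ∀ j T, 0 ≤ f j T)
    (hξ : ∀ j T, 0 ≤ ξ j T) (h : ∀ j, ∑ T, f j T * ξ j T ≤ x j * ∑ T, f j T) :
    ∑ T : K → Finset ι, (∏ j, f j (T j)) * ∏ j, ξ j (T j) ≤ (∏ j, x j) * ∏ j, ∑ T, f j T := by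
  simp only [← Finset.prod_mul_distrib]
  rw [← Fintype.prod_sum (fun j T => f j T * ξ j T)]
  exact Finset.prod_le_prod (fun j _ => Finset.sum_nonneg fun T _ => mul_nonneg (hf j T) (hξ j T))
    fun j _ => h j

omit [DecidableEq ι] in
theorem expect_one (f : K → Finset ι → ℝ) (hf : ∀ j T, 0 ≤ f j T) (ξ : Finset ι → ℝ) (x : ℝ)
    (hξ : ∀ T, 0 ≤ ξ T) (h : ∀ j, ∑ T, f j T * ξ T ≤ x * ∑ T, f j T) :
    ∑ T : K → Finset ι, (∏ j, f j (T j)) * ∑ j, ξ (T j)
      ≤ Fintype.card K * x * ∏ j, ∑ T, f j T := by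
  simp only [Finset.mul_sum]
  rw [Finset.sum_comm, mul_assoc, ← nsmul_eq_mul]
  refine Finset.sum_le_card_nsmul _ _ _ fun j0 _ => ?_
  have := expect_le f (fun j T => if j = j0 then ξ T else 1) (fun j => if j = j0 then x else 1) hf
    (fun j T => by split_ifs; exacts [hξ T, zero_le_one]) fun j => by
      split_ifs
      · exact h j
      · simp
  simpa using this

theorem expect_two (f : K → Finset ι → ℝ) (hf : ∀ j T, 0 ≤ f j T) (v : ι → ℝ)
    (h : ∀ j i, ∑ T, f j T * (if i ∈ T then 1 else 0) ≤ v i * ∑ T, f j T) :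
    ∑ T : K → Finset ι, (∏ j, f j (T j)) * (if T ∈ Dj ι K then 0 else 1)
      ≤ Fintype.card K ^ 2 * (∑ i, v i ^ 2) * ∏ j, ∑ T, f j T := by
  have h1 : ∀ T : K → Finset ι, (if T ∈ Dj ι K then (0 : ℝ) else 1) ≤
      ∑ x : K × K, ∑ i, if x.1 ≠ x.2 ∧ i ∈ T x.1 ∧ i ∈ T x.2 then 1 else 0 := by
    intro T
    have h2 : ∀ (x : K × K) i, (0 : ℝ) ≤ if x.1 ≠ x.2 ∧ i ∈ T x.1 ∧ i ∈ T x.2 then 1 else 0 :=
      fun x i => by split_ifs <;> norm_num
    split_ifs with h3
    · exact Finset.sum_nonneg fun x _ => Finset.sum_nonneg fun i _ => h2 x i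
    · rw [mem_Dj] at h3
      push Not at h3
      obtain ⟨j, j', h4, h5⟩ := h3
      obtain ⟨i, hi, hi'⟩ := Finset.not_disjoint_iff.1 h5
      exact le_trans (le_trans (by simp [h4, hi, hi'])
        (Finset.single_le_sum (fun i _ => h2 (j, j') i) (mem_univ i)))
        (Finset.single_le_sum (fun x _ => Finset.sum_nonneg fun i _ => h2 x i) (mem_univ (j, j')))
  have hp : ∀ T : K → Finset ι, 0 ≤ ∏ j, f j (T j) := fun T =>
    Finset.prod_nonneg fun j _ => hf j _
  refine (Finset.sum_le_sum fun T _ => mul_le_mul_of_nonneg_left (h1 T) (hp T)).trans ?_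
  rw [mul_assoc, sq, ← Nat.cast_mul, ← Fintype.card_prod, ← nsmul_eq_mul]
  simp only [Finset.mul_sum]
  rw [Finset.sum_comm]
  refine Finset.sum_le_card_nsmul _ _ _ fun x _ => ?_
  rw [Finset.sum_comm, Finset.sum_mul]
  refine Finset.sum_le_sum fun i _ => ?_
  by_cases hx : x.1 = x.2
  · simp only [hx, ne_eq, not_true, false_and, if_false, mul_zero, Finset.sum_const_zero]
    exact mul_nonneg (sq_nonneg _)
      (Finset.prod_nonneg fun j _ => Finset.sum_nonneg fun T _ => hf j T)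
  have := expect_le f (fun j T => if j ∈ ({x.1, x.2} : Finset K) then
      (if i ∈ T then 1 else 0) else 1) (fun j => if j ∈ ({x.1, x.2} : Finset K) then v i else 1) hf
    (fun j T => by split_ifs <;> norm_num) fun j => by
      split_ifs
      · exact h j i
      · simp
  simp only [Finset.prod_ite_mem, univ_inter, Finset.prod_pair hx] at this
  rw [sq]
  refine le_trans (le_of_eq (Finset.sum_congr rfl fun T _ => ?_)) this
  by_cases h1 : i ∈ T x.1 <;> simp [hx, h1]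

variable (P : ι → ℕ)

/-- The coefficients of the sieve. -/
noncomputable def yy (g : Finset ι → ℝ) (L : ℝ) (T : K → Finset ι) : ℝ :=
  if ∑ j, lp P (T j) ≤ L then ∏ j, g (T j) else 0

/-- The factors after the coordinate `m` has been collapsed. -/
def gm (g : Finset ι → ℝ) (m j : K) (T : Finset ι) : ℝ :=
  if j = m then (if T = ∅ then 1 else 0) else g T

variable {g : Finset ι → ℝ}

omit [Fintype ι] [DecidableEq ι] [DecidableEq K] in
theorem yy_nonneg (h0 : ∀ T, 0 ≤ g T) (L : ℝ) (T : K → Finset ι) : 0 ≤ yy P g L T := by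
  unfold yy; split_ifs
  · exact Finset.prod_nonneg fun j _ => h0 _
  · rfl

omit [Fintype ι] [DecidableEq ι] [DecidableEq K] in
theorem yy_le (h0 : ∀ T, 0 ≤ g T) (L : ℝ) (T : K → Finset ι) : yy P g L T ≤ ∏ j, g (T j) := by
  unfold yy; split_ifs
  · rfl
  · exact Finset.prod_nonneg fun j _ => h0 _

omit [Fintype ι] [Fintype K] in
theorem gm_nonneg (h0 : ∀ T, 0 ≤ g T) (m j : K) (T : Finset ι) : 0 ≤ gm g m j T := by
  unfold gm; split_ifs <;> simp [h0]

omit [Fintype ι] [Fintype K] in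
theorem gm_sq_anti (h0 : ∀ T, 0 ≤ g T) (hg : Antitone g) (m j : K) :
    Antitone fun T => gm g m j T ^ 2 := fun T T' h => by
  refine pow_le_pow_left₀ (gm_nonneg h0 m j T') ?_ 2
  unfold gm
  split_ifs with h1 h2 h3
  · rfl
  · exact absurd (subset_empty.1 (h2 ▸ h)) h3
  · norm_num
  · rfl
  · exact hg h

omit [Fintype ι] in
theorem prod_update (m : K) {T : K → Finset ι} (h : T m = ∅) (U : Finset ι) :
    ∏ j, g (Function.update T m U j) = (∏ j, gm g m j (T j)) * g U := by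
  rw [← Finset.mul_prod_erase univ _ (mem_univ m),
    ← Finset.mul_prod_erase univ (fun j => gm g m j (T j)) (mem_univ m), Function.update_self,
    mul_comm]
  congr 1
  simp only [gm, h, if_true, one_mul]
  refine Finset.prod_congr rfl fun j hj => ?_
  rw [Function.update_of_ne (ne_of_mem_erase hj), if_neg (ne_of_mem_erase hj)]

omit [Fintype ι] [DecidableEq ι] in
theorem sum_lp_update (m : K) {T : K → Finset ι} (h : T m = ∅) (U : Finset ι) :
    ∑ j, lp P (Function.update T m U j) = ∑ j, lp P (T j) + lp P U := by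
  rw [← Finset.add_sum_erase univ _ (mem_univ m),
    ← Finset.add_sum_erase univ (fun j => lp P (T j)) (mem_univ m), Function.update_self,
    add_comm, h]
  congr 1
  simp only [lp, Finset.sum_empty, zero_add]
  refine Finset.sum_congr rfl fun j hj => ?_
  rw [Function.update_of_ne (ne_of_mem_erase hj)]

theorem yh_nonneg (h0 : ∀ T, 0 ≤ g T) (L : ℝ) (m : K) {o : ι → ℝ} (ho : ∀ i, 0 ≤ o i)
    (T : K → Finset ι) : 0 ≤ yh (yy P g L) m o T := by
  unfold yh; split_ifs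
  · exact Finset.sum_nonneg fun U _ => mul_nonneg (yy_nonneg P h0 L _)
      (Finset.prod_nonneg fun i _ => ho i)
  · rfl

theorem yh_le (h0 : ∀ T, 0 ≤ g T) (L : ℝ) (m : K) {o : ι → ℝ} (ho : ∀ i, 0 ≤ o i)
    (T : K → Finset ι) : yh (yy P g L) m o T ≤ ws o g * ∏ j, gm g m j (T j) := by
  have hp : 0 ≤ ∏ j, gm g m j (T j) := Finset.prod_nonneg fun j _ => gm_nonneg h0 m j _
  unfold yh; split_ifs with h
  · rw [ws, Finset.sum_mul]
    refine (Finset.sum_le_sum fun U _ => ?_).trans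
      (Finset.sum_le_sum_of_subset_of_nonneg (subset_univ _) fun U _ _ =>
        mul_nonneg (mul_nonneg (h0 U) (Finset.prod_nonneg fun i _ => ho i)) hp)
    refine (mul_le_mul_of_nonneg_right (yy_le P h0 L _)
      (Finset.prod_nonneg fun i _ => ho i)).trans (le_of_eq ?_)
    rw [prod_update m h]; ring
  · exact mul_nonneg (ws_nonneg ho h0) hp

theorem yh_support (L : ℝ) (m : K) (o : ι → ℝ) (T : K → Finset ι)
    (h : yh (yy P g L) m o T ≠ 0) : ∑ j, lp P (T j) ≤ L := by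
  unfold yh at h
  split_ifs at h with h1
  · obtain ⟨U, _, h2⟩ := Finset.exists_ne_zero_of_sum_ne_zero h
    unfold yy at h2
    split_ifs at h2 with h3
    · rw [sum_lp_update P m h1] at h3
      linarith [lp_nonneg P U]
    · simp at h2
  · simp at h

theorem yh_ge (h0 : ∀ T, 0 ≤ g T) (hg : Antitone g) {L : ℝ} (hs : ∀ T, g T ≠ 0 → lp P T ≤ L / 2)
    (m : K) {o : ι → ℝ} (ho : ∀ i, 0 ≤ o i) (T : K → Finset ι) (hT : ∑ j, lp P (T j) ≤ L / 2) :
    (∏ j, gm g m j (T j)) * ((1 - ∑ j, ∑ i ∈ T j, o i) * ws o g) ≤ yh (yy P g L) m o T := by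
  have hp : 0 ≤ ∏ j, gm g m j (T j) := Finset.prod_nonneg fun j _ => gm_nonneg h0 m j _
  unfold yh; split_ifs with h
  · refine (mul_le_mul_of_nonneg_left (ws_free ho h0 hg T) hp).trans (le_of_eq ?_)
    rw [Finset.mul_sum]
    refine Finset.sum_congr rfl fun U _ => ?_
    rw [yy, prod_update m h, sum_lp_update P m h]
    by_cases h1 : g U = 0
    · simp [h1]
    · rw [if_pos (by linarith [hs U h1]), mul_assoc]
  · rw [Finset.prod_eq_zero (mem_univ m) (by simp [gm, h]), zero_mul]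

theorem quad_ge (h0 : ∀ T, 0 ≤ g T) (hg : Antitone g) {L : ℝ} (hL : 0 < L)
    (hs : ∀ T, g T ≠ 0 → lp P T ≤ L / 2) (m : K) {o v e : ι → ℝ} (ho : ∀ i, 0 ≤ o i)
    (hv : ∀ i, 0 ≤ v i) (he : ∀ i, 0 ≤ e i) (he1 : ∀ i, e i ≤ 1) {x : ℝ} (hx : 0 ≤ x)
    (hl : ws v (fun T => g T ^ 2 * lp P T) ≤ x * ws v (fun T => g T ^ 2)) :
    (1 - (Fintype.card K ^ 2 * ∑ i, v i ^ 2 + Fintype.card K * (2 * x / L)
      + Fintype.card K * ∑ i, (2 * o i + e i) * v i)) *
        (ws o g ^ 2 * ∏ j, ws v fun T => gm g m j T ^ 2) ≤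
      ∑ T ∈ Dj ι K, (∏ j, ∏ i ∈ T j, (v i * (1 - e i))) * yh (yy P g L) m o T ^ 2 := by
  set f : K → Finset ι → ℝ := fun j T => gm g m j T ^ 2 * ∏ i ∈ T, v i with hf
  have hf0 : ∀ j T, 0 ≤ f j T := fun j T =>
    mul_nonneg (sq_nonneg _) (Finset.prod_nonneg fun i _ => hv i)
  have hc : ∀ i, 0 ≤ 2 * o i + e i := fun i => by linarith [ho i, he i]
  have a1 := expect_two f hf0 v fun j i => marg hv (fun _ => sq_nonneg _) (gm_sq_anti h0 hg m j) i
  have a2 := expect_one f hf0 (fun T => 2 / L * lp P T) (2 * x / L)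
    (fun T => mul_nonneg (by positivity) (lp_nonneg P T)) fun j => by
      have : ∑ T, f j T * lp P T ≤ x * ∑ T, f j T := by
        by_cases h : j = m
        · rw [Finset.sum_eq_zero fun T _ => by
            by_cases h1 : T = ∅ <;> simp [hf, gm, h, h1, lp]]
          exact mul_nonneg hx (Finset.sum_nonneg fun T _ => hf0 j T)
        · simpa only [hf, gm, if_neg h, ws, mul_right_comm] using hl
      calc _ = 2 / L * ∑ T, f j T * lp P T := by
            rw [Finset.mul_sum]; exact Finset.sum_congr rfl fun T _ => by ring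
        _ ≤ 2 / L * (x * ∑ T, f j T) := by gcongr
        _ = _ := by ring
  have a3 := expect_one f hf0 (fun T => ∑ i ∈ T, (2 * o i + e i)) _
    (fun T => Finset.sum_nonneg fun i _ => hc i)
    fun j => marg_sum hv (fun _ => sq_nonneg _) (gm_sq_anti h0 hg m j) hc
  have key : ∀ T : K → Finset ι, ws o g ^ 2 * ((∏ j, f j (T j)) -
      ((∏ j, f j (T j)) * (if T ∈ Dj ι K then 0 else 1) + (∏ j, f j (T j)) * ∑ j, 2 / L * lp P (T j)
        + (∏ j, f j (T j)) * ∑ j, ∑ i ∈ T j, (2 * o i + e i))) ≤ if T ∈ Dj ι K then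
        (∏ j, ∏ i ∈ T j, (v i * (1 - e i))) * yh (yy P g L) m o T ^ 2 else 0 := by
    intro T
    have hp : 0 ≤ ∏ j, f j (T j) := Finset.prod_nonneg fun j _ => hf0 j _
    have b2 : 0 ≤ ∑ j, 2 / L * lp P (T j) :=
      Finset.sum_nonneg fun j _ => mul_nonneg (by positivity) (lp_nonneg P _)
    obtain ⟨a, ha⟩ : ∃ a, a = ∑ j, ∑ i ∈ T j, o i := ⟨_, rfl⟩
    obtain ⟨b, hb⟩ : ∃ b, b = ∑ j, ∑ i ∈ T j, e i := ⟨_, rfl⟩
    have ha0 : 0 ≤ a := ha ▸ Finset.sum_nonneg fun j _ => Finset.sum_nonneg fun i _ => ho i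
    have hb0 : 0 ≤ b := hb ▸ Finset.sum_nonneg fun j _ => Finset.sum_nonneg fun i _ => he i
    have b3 : ∑ j, ∑ i ∈ T j, (2 * o i + e i) = 2 * a + b := by
      simp only [ha, hb, Finset.sum_add_distrib, Finset.mul_sum]
    have b4 : 0 ≤ (∏ j, ∏ i ∈ T j, (v i * (1 - e i))) :=
      Finset.prod_nonneg fun j _ => Finset.prod_nonneg fun i _ =>
        mul_nonneg (hv i) (by linarith [he1 i])
    rw [b3, ← mul_add, ← mul_add, ← mul_one_sub, ← mul_assoc]
    have hq : 0 ≤ ws o g ^ 2 * ∏ j, f j (T j) := by positivity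
    split_ifs with h
    · by_cases h1 : 1 ≤ ∑ j, 2 / L * lp P (T j) + (2 * a + b)
      · exact (mul_nonpos_of_nonneg_of_nonpos hq (by linarith)).trans (by positivity)
      have h2 : ∑ j, lp P (T j) ≤ L / 2 := by
        rw [← Finset.mul_sum] at h1
        have : 2 / L * ∑ j, lp P (T j) ≤ 1 := by linarith
        rw [div_mul_eq_mul_div, div_le_one hL] at this
        linarith
      have h3 := yh_ge P h0 hg hs m ho T h2
      rw [← ha] at h3
      have hgm : 0 ≤ ∏ j, gm g m j (T j) := Finset.prod_nonneg fun j _ => gm_nonneg h0 m j _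
      have h4 := pow_le_pow_left₀ (mul_nonneg hgm (mul_nonneg (by linarith) (ws_nonneg ho h0)))
        h3 2
      have h5 : 1 - b ≤ ∏ j, ∏ i ∈ T j, (1 - e i) := by
        rw [hb, Finset.sum_sigma', Finset.prod_sigma']
        exact one_sub_sum_le_prod _ _ (fun _ _ => he _) fun _ _ => he1 _
      have h6 : 0 ≤ ∏ j, ∏ i ∈ T j, v i :=
        Finset.prod_nonneg fun j _ => Finset.prod_nonneg fun i _ => hv i
      refine le_trans ?_ (mul_le_mul_of_nonneg_left h4 b4)
      simp only [hf, Finset.prod_mul_distrib, Finset.prod_pow]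
      have h7 : 1 - (0 + ∑ j, 2 / L * lp P (T j) + (2 * a + b))
          ≤ (∏ j, ∏ i ∈ T j, (1 - e i)) * (1 - a) ^ 2 := by
        have : 0 ≤ 1 - b := by linarith
        nlinarith [mul_le_mul_of_nonneg_right h5 (sq_nonneg (1 - a)), mul_nonneg ha0 hb0,
          mul_nonneg this (sq_nonneg a)]
      calc _ ≤ ws o g ^ 2 * ((∏ j, gm g m j (T j)) ^ 2 * ∏ j, ∏ i ∈ T j, v i) *
            ((∏ j, ∏ i ∈ T j, (1 - e i)) * (1 - a) ^ 2) := by gcongr
        _ = _ := by ring
    · exact mul_nonpos_of_nonneg_of_nonpos hq (by linarith)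
  have := Finset.sum_le_sum fun T (_ : T ∈ univ) => key T
  rw [Finset.sum_ite_mem, univ_inter, ← Finset.mul_sum, Finset.sum_sub_distrib,
    Finset.sum_add_distrib, Finset.sum_add_distrib, ← Fintype.prod_sum] at this
  refine le_trans ?_ this
  change _ * (_ * ∏ j, ∑ T, f j T) ≤ _
  nlinarith [mul_le_mul_of_nonneg_left (add_le_add (add_le_add a1 a2) a3) (sq_nonneg (ws o g))]

theorem ws_gm (v : ι → ℝ) (m : K) : ws v (fun T => g T ^ 2) * ∏ j, ws v (fun T => gm g m j T ^ 2)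
    = ws v (fun T => g T ^ 2) ^ Fintype.card K := by
  rw [← Finset.mul_prod_erase univ _ (mem_univ m), ← Finset.card_univ, ← Finset.prod_const,
    ← Finset.mul_prod_erase univ (fun _ => ws v fun T => g T ^ 2) (mem_univ m)]
  congr 1
  have : ws v (fun T => gm g m m T ^ 2) = 1 := by
    simp [ws, gm]
  rw [this, one_mul]
  refine Finset.prod_congr rfl fun j hj => ?_
  simp only [gm, if_neg (ne_of_mem_erase hj)]

end Pool.Agent.Lib.MP_bee098_nt
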