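import Pool.Agent.Lib.MP_bee098_nt.Per

/-! Multidimensional sieve weights in product form. -/

open Finset

namespace Pool.Agent.Lib.MP_bee098_nt

variable {ι K : Type} [Fintype ι] [DecidableEq ι] [Fintype K] [DecidableEq K]

/-- Families of pairwise disjoint sets. -/
def Dj (ι K : Type) [Fintype ι] [DecidableEq ι] [Fintype K] [DecidableEq K] :
    Finset (K → Finset ι) :=
  univ.filter fun T => ∀ j j', j ≠ j' → Disjoint (T j) (T j')

/-- The family of fibres of `σ`. -/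
def Ts (σ : ι → Option K) (j : K) : Finset ι := univ.filter fun i => σ i = some j

theorem mem_Dj {T : K → Finset ι} : T ∈ Dj ι K ↔ ∀ j j', j ≠ j' → Disjoint (T j) (T j') := by
  simp [Dj]

omit [DecidableEq ι] [Fintype K] in
theorem mem_Ts {σ : ι → Option K} {j : K} {i : ι} : i ∈ Ts σ j ↔ σ i = some j := by simp [Ts]

theorem sum_Dj {M : Type} [AddCommMonoid M] (F : (K → Finset ι) → M) :
    ∑ σ : ι → Option K, F (Ts σ) = ∑ T ∈ Dj ι K, F T := by
  refine Finset.sum_bij (fun σ _ => Ts σ) ?_ ?_ ?_ fun _ _ => rfl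
  · intro σ _
    refine mem_Dj.2 fun j j' h => Finset.disjoint_left.2 fun i h1 h2 => h ?_
    rw [mem_Ts] at h1 h2
    exact Option.some.inj (h1.symm.trans h2)
  · intro σ _ τ _ h
    funext i
    refine Option.ext fun j => ?_
    rw [← mem_Ts, ← mem_Ts, h]
  · intro T hT
    refine ⟨fun i => if h : ∃ j, i ∈ T j then some h.choose else none, mem_univ _, ?_⟩
    funext j
    ext i
    rw [mem_Ts]
    constructor
    · intro h
      split_ifs at h with h1
      exact Option.some.inj h ▸ h1.choose_spec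
    · intro h
      have h1 : ∃ j, i ∈ T j := ⟨j, h⟩
      rw [dif_pos h1]
      congr 1
      by_contra h2
      exact Finset.disjoint_left.1 (mem_Dj.1 hT _ _ h2) h1.choose_spec h

/-- Local factor of the family `T` at the index `i`. -/
def psi (T : K → Finset ι) (i : ι) (f : K → ℝ) : ℝ := ∏ j, if i ∈ T j then f j else 1

omit [DecidableEq K] in
theorem prod_psi (T : K → Finset ι) (f : ι → K → ℝ) :
    ∏ i, psi T i (f i) = ∏ j, ∏ i ∈ T j, f i j := by
  unfold psi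
  rw [Finset.prod_comm]
  refine Finset.prod_congr rfl fun j _ => ?_
  rw [← Finset.prod_filter]
  simp

theorem psi_Ts (σ : ι → Option K) (i : ι) (f : K → ℝ) :
    psi (Ts σ) i f = (σ i).elim 1 f := by
  unfold psi
  simp only [mem_Ts]
  cases h : σ i with
  | none => simp
  | some j => simp

omit [Fintype ι] [DecidableEq K] in
theorem abs_psi_le (T : K → Finset ι) (i : ι) {f : K → ℝ} (hf : ∀ j, |f j| ≤ 1) :
    |psi T i f| ≤ 1 := by
  unfold psi
  rw [Finset.abs_prod]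
  refine Finset.prod_le_one (fun _ _ => abs_nonneg _) fun j _ => ?_
  split_ifs
  · exact hf j
  · simp

omit [Fintype ι] [DecidableEq K] in
theorem psi_eq_one {T : K → Finset ι} {i : ι} (h : i ∉ univ.biUnion T) (f : K → ℝ) :
    psi T i f = 1 := by
  refine Finset.prod_eq_one fun j _ => if_neg fun h1 => h ?_
  exact mem_biUnion.2 ⟨j, mem_univ _, h1⟩

/-- The sieve sum with coefficients `y` and local values `f`. -/
def Zf (y : (K → Finset ι) → ℝ) (f : ι → K → ℝ) : ℝ := ∑ T ∈ Dj ι K, y T * ∏ i, psi T i (f i)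

theorem Zf_eq (y : (K → Finset ι) → ℝ) (f : ι → K → ℝ) :
    Zf y f = ∑ σ : ι → Option K, y (Ts σ) * ∏ i, (σ i).elim 1 (f i) := by
  rw [Zf, ← sum_Dj]
  simp only [psi_Ts]

theorem Z_sign (ε : ℝ) {S : ι → Type} [∀ i, Fintype (S i)] (μ : ∀ i, S i → ℝ)
    (φ : ∀ i, S i → K → ℝ) (b0 : ι → ℝ) (b : ι → K → ℝ) (hμ : ∀ i s, 0 ≤ μ i s)
    (hb0 : ∀ i, 0 ≤ b0 i) (hb : ∀ i j, 0 ≤ b i j)
    (h : ∀ i (c0 : ℝ) (c : K → ℝ), ε * ∑ s, μ i s * (c0 + ∑ j, c j * φ i s j) ^ 2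
      ≤ ε * (b0 i * (c0 ^ 2 + ∑ j, b i j * c j ^ 2))) (y : (K → Finset ι) → ℝ) :
    ε * ∑ s : ∀ i, S i, (∏ i, μ i (s i)) * Zf y (fun i => φ i (s i)) ^ 2
      ≤ ε * ((∏ i, b0 i) * ∑ T ∈ Dj ι K, (∏ j, ∏ i ∈ T j, b i j) * y T ^ 2) := by
  have := tensor_sign (𝕜 := ℝ) ε (A := fun _ => Option K) μ
    (fun i a s => a.elim 1 (φ i s)) (fun i a => b0 i * a.elim 1 (b i)) hμ
    (fun i a => mul_nonneg (hb0 i) (by cases a <;> simp [hb])) (fun i c => by
      simp only [Real.norm_eq_abs, sq_abs, Fintype.sum_option, Option.elim_none, Option.elim_some,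
        mul_one]
      convert h i (c none) (fun j => c (some j)) using 2
      rw [mul_add, Finset.mul_sum]
      simp only [mul_assoc]) (fun σ => y (Ts σ))
  simp only [Real.norm_eq_abs, sq_abs] at this
  simp only [Zf_eq]
  convert this using 2
  rw [← sum_Dj, Finset.mul_sum]
  refine Finset.sum_congr rfl fun σ _ => ?_
  rw [← prod_psi, Finset.prod_mul_distrib, mul_assoc]
  simp only [psi_Ts]

theorem Z_le {S : ι → Type} [∀ i, Fintype (S i)] (μ : ∀ i, S i → ℝ)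
    (φ : ∀ i, S i → K → ℝ) (b0 : ι → ℝ) (b : ι → K → ℝ) (hμ : ∀ i s, 0 ≤ μ i s)
    (hb0 : ∀ i, 0 ≤ b0 i) (hb : ∀ i j, 0 ≤ b i j)
    (h : ∀ i (c0 : ℝ) (c : K → ℝ), ∑ s, μ i s * (c0 + ∑ j, c j * φ i s j) ^ 2
      ≤ b0 i * (c0 ^ 2 + ∑ j, b i j * c j ^ 2)) (y : (K → Finset ι) → ℝ) :
    ∑ s : ∀ i, S i, (∏ i, μ i (s i)) * Zf y (fun i => φ i (s i)) ^ 2
      ≤ (∏ i, b0 i) * ∑ T ∈ Dj ι K, (∏ j, ∏ i ∈ T j, b i j) * y T ^ 2 := by
  simpa using Z_sign 1 μ φ b0 b hμ hb0 hb (by simpa using h) y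

theorem Z_ge {S : ι → Type} [∀ i, Fintype (S i)] (μ : ∀ i, S i → ℝ)
    (φ : ∀ i, S i → K → ℝ) (b0 : ι → ℝ) (b : ι → K → ℝ) (hμ : ∀ i s, 0 ≤ μ i s)
    (hb0 : ∀ i, 0 ≤ b0 i) (hb : ∀ i j, 0 ≤ b i j)
    (h : ∀ i (c0 : ℝ) (c : K → ℝ), b0 i * (c0 ^ 2 + ∑ j, b i j * c j ^ 2)
      ≤ ∑ s, μ i s * (c0 + ∑ j, c j * φ i s j) ^ 2) (y : (K → Finset ι) → ℝ) :
    (∏ i, b0 i) * ∑ T ∈ Dj ι K, (∏ j, ∏ i ∈ T j, b i j) * y T ^ 2 ≤
      ∑ s : ∀ i, S i, (∏ i, μ i (s i)) * Zf y (fun i => φ i (s i)) ^ 2 := by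
  simpa using Z_sign (-1) μ φ b0 b hμ hb0 hb (by simpa using h) y

theorem Z_sq {𝕜 : Type} [RCLike 𝕜] (y : (K → Finset ι) → ℝ) (f : ι → K → ℝ) (c : ι → 𝕜) :
    (∏ i, c i) * ((Zf y f ^ 2 : ℝ) : 𝕜) = ∑ T ∈ Dj ι K, ∑ T' ∈ Dj ι K, ((y T * y T' : ℝ) : 𝕜) *
      ∏ i, (c i * ((psi T i (f i) * psi T' i (f i) : ℝ) : 𝕜)) := by
  rw [sq, Zf, Finset.sum_mul_sum]
  push_cast
  rw [Finset.mul_sum]
  refine Finset.sum_congr rfl fun T _ => ?_
  rw [Finset.mul_sum]
  refine Finset.sum_congr rfl fun T' _ => ?_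
  simp only [Finset.prod_mul_distrib]
  ring

theorem pair_expand {𝕜 : Type} [RCLike 𝕜] {S : ι → Type} [∀ i, Fintype (S i)] (μ : ∀ i, S i → 𝕜)
    (φ : ∀ i, S i → K → ℝ) (y : (K → Finset ι) → ℝ) :
    ∑ s : ∀ i, S i, (∏ i, μ i (s i)) * ((Zf y (fun i => φ i (s i)) ^ 2 : ℝ) : 𝕜)
      = ∑ T ∈ Dj ι K, ∑ T' ∈ Dj ι K, ((y T * y T' : ℝ) : 𝕜) *
        ∏ i, ∑ s, μ i s * ((psi T i (φ i s) * psi T' i (φ i s) : ℝ) : 𝕜) := by
  simp only [Z_sq]
  rw [Finset.sum_comm]
  refine Finset.sum_congr rfl fun T _ => ?_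
  rw [Finset.sum_comm]
  refine Finset.sum_congr rfl fun T' _ => ?_
  rw [← Finset.mul_sum, Fintype.prod_sum]

/-- Sets disjoint from all members of a family. -/
def Fr (T : K → Finset ι) : Finset (Finset ι) := univ.filter fun U => ∀ j, Disjoint U (T j)

omit [DecidableEq K] in
theorem mem_Fr {T : K → Finset ι} {U : Finset ι} : U ∈ Fr T ↔ ∀ j, Disjoint U (T j) := by
  simp [Fr]

theorem sum_Dj_update (m : K) (F : (K → Finset ι) → ℝ) :
    ∑ T ∈ Dj ι K, F T = ∑ T ∈ Dj ι K, if T m = ∅ then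
      ∑ U ∈ Fr T, F (Function.update T m U) else 0 := by
  rw [← Finset.sum_filter, Finset.sum_sigma']
  symm
  refine Finset.sum_bij' (fun x _ => Function.update x.1 m x.2)
    (fun T _ => ⟨Function.update T m ∅, T m⟩) ?_ ?_ ?_ ?_ fun _ _ => rfl
  · rintro ⟨T, U⟩ hx
    simp only [mem_sigma, mem_filter, mem_Dj, mem_Fr] at hx ⊢
    intro j j' h
    by_cases h1 : j = m
    · subst h1
      rw [Function.update_self, Function.update_of_ne (Ne.symm h)]
      exact hx.2 _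
    · by_cases h2 : j' = m
      · subst h2
        rw [Function.update_self, Function.update_of_ne h]
        exact (hx.2 _).symm
      · rw [Function.update_of_ne h1, Function.update_of_ne h2]
        exact hx.1.1 _ _ h
  · intro T hT
    simp only [mem_sigma, mem_filter, mem_Dj, mem_Fr] at hT ⊢
    refine ⟨⟨fun j j' h => ?_, Function.update_self ..⟩, fun j => ?_⟩
    · by_cases h1 : j = m
      · subst h1; simp
      · by_cases h2 : j' = m
        · subst h2; simp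
        · rw [Function.update_of_ne h1, Function.update_of_ne h2]
          exact hT _ _ h
    · by_cases h1 : j = m
      · subst h1; simp
      · rw [Function.update_of_ne h1]
        exact hT _ _ (Ne.symm h1)
  · rintro ⟨T, U⟩ hx
    simp only [mem_sigma, mem_filter] at hx
    simp only [Function.update_idem, Function.update_self]
    rw [← hx.1.2, Function.update_eq_self]
  · intro T _
    simp

theorem sum_Dj_option (F : (Option K → Finset ι) → ℝ) :
    ∑ T ∈ Dj ι (Option K), F T = ∑ T ∈ Dj ι K, ∑ U ∈ Fr T, F (fun o => o.elim U T) := by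
  rw [Finset.sum_sigma']
  symm
  refine Finset.sum_bij' (fun x _ o => o.elim x.2 x.1)
    (fun T _ => ⟨fun j => T (some j), T none⟩) ?_ ?_ ?_ ?_ fun _ _ => rfl
  · rintro ⟨T, U⟩ hx
    simp only [mem_sigma, mem_Dj, mem_Fr] at hx ⊢
    rintro (_ | j) (_ | j') h
    · exact absurd rfl h
    · exact hx.2 _
    · exact (hx.2 _).symm
    · exact hx.1 _ _ fun h1 => h (by rw [h1])
  · intro T hT
    simp only [mem_sigma, mem_Dj, mem_Fr] at hT ⊢
    exact ⟨fun j j' h => hT _ _ (by simpa using h), fun j => hT _ _ (by simp)⟩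
  · rintro ⟨T, U⟩ _
    rfl
  · intro T _
    funext o
    cases o <;> rfl

/-- Collapsed coefficients. -/
def yh (y : (K → Finset ι) → ℝ) (m : K) (o : ι → ℝ) (T : K → Finset ι) : ℝ :=
  if T m = ∅ then ∑ U ∈ Fr T, y (Function.update T m U) * ∏ i ∈ U, o i else 0

theorem Z_collapse (y : (K → Finset ι) → ℝ) (m : K) (f f' : ι → K → ℝ)
    (h : ∀ i j, j ≠ m → f' i j = f i j) : Zf y f = Zf (yh y m fun i => f i m) f' := by
  unfold Zf
  rw [sum_Dj_update m]
  refine Finset.sum_congr rfl fun T _ => ?_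
  unfold yh
  split_ifs with h0
  · rw [Finset.sum_mul]
    refine Finset.sum_congr rfl fun U _ => ?_
    rw [prod_psi, prod_psi, ← Finset.mul_prod_erase univ _ (mem_univ m),
      ← Finset.mul_prod_erase univ (fun j => ∏ i ∈ T j, f' i j) (mem_univ m), h0,
      Function.update_self, Finset.prod_empty, one_mul, mul_assoc]
    congr 2
    refine Finset.prod_congr rfl fun j hj => ?_
    rw [Function.update_of_ne (ne_of_mem_erase hj)]
    exact Finset.prod_congr rfl fun i _ => (h i j (ne_of_mem_erase hj)).symm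
  · simp

theorem Z_option (y : (Option K → Finset ι) → ℝ) (f : ι → Option K → ℝ) :
    Zf y f = Zf (fun T => ∑ U ∈ Fr T, y (fun o => o.elim U T) * ∏ i ∈ U, f i none)
      fun i j => f i (some j) := by
  unfold Zf
  rw [sum_Dj_option]
  refine Finset.sum_congr rfl fun T _ => ?_
  rw [Finset.sum_mul]
  refine Finset.sum_congr rfl fun U _ => ?_
  rw [prod_psi, prod_psi, Fintype.prod_option, mul_assoc]
  rfl

omit [Fintype K] in
theorem gram {S : Type} [Fintype S] (μ : S → ℝ) (A : Finset K) (e : S → K → ℝ) (α : ℝ)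
    (hμ : ∑ s, μ s = 1) (he : ∀ j ∈ A, ∑ s, μ s * e s j = α)
    (hee : ∀ s, ∀ j ∈ A, ∀ j' ∈ A, e s j * e s j' = if j = j' then e s j else 0)
    (a b : ℝ) (c : K → ℝ) :
    ∑ s, μ s * (a - b * ∑ j ∈ A, c j * e s j) ^ 2
      = a ^ 2 - 2 * a * b * α * ∑ j ∈ A, c j + b ^ 2 * α * ∑ j ∈ A, c j ^ 2 := by
  have h1 : ∀ s, (∑ j ∈ A, c j * e s j) ^ 2 = ∑ j ∈ A, c j ^ 2 * e s j := by
    intro s
    rw [sq, Finset.sum_mul_sum]
    refine Finset.sum_congr rfl fun j hj => ?_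
    rw [Finset.sum_congr rfl fun j' hj' => show c j * e s j * (c j' * e s j')
      = if j = j' then c j * c j' * e s j else 0 by
        rw [mul_mul_mul_comm, hee s j hj j' hj']; split_ifs <;> simp]
    rw [Finset.sum_ite_eq, if_pos hj, sq]
  have h2 : ∀ d : K → ℝ, ∑ s, μ s * ∑ j ∈ A, d j * e s j = α * ∑ j ∈ A, d j := by
    intro d
    simp only [Finset.mul_sum]
    rw [Finset.sum_comm]
    refine Finset.sum_congr rfl fun j hj => ?_
    rw [← he j hj, Finset.sum_mul]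
    exact Finset.sum_congr rfl fun s _ => by ring
  calc _ = ∑ s, (a ^ 2 * μ s - 2 * a * b * (μ s * ∑ j ∈ A, c j * e s j)
        + b ^ 2 * (μ s * ∑ j ∈ A, c j ^ 2 * e s j)) :=
        Finset.sum_congr rfl fun s _ => by rw [← h1]; ring
    _ = _ := by
        rw [Finset.sum_add_distrib, Finset.sum_sub_distrib, ← Finset.mul_sum, ← Finset.mul_sum,
          ← Finset.mul_sum, hμ, h2, h2]
        ring

end Pool.Agent.Lib.MP_bee098_nt
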