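import Pool.Agent.Lib.MP_bee098_nt.Sieve
import Pool.Agent.Lib.MP_bee098_nt.Mertens

/-! Weighted sums over finite sets of primes. -/

open Finset

namespace Pool.Agent.Lib.MP_bee098_nt

variable {ι K : Type} [Fintype ι] [DecidableEq ι] [Fintype K] [DecidableEq K]

/-- Weighted sum of a set function. -/
def ws (v : ι → ℝ) (γ : Finset ι → ℝ) : ℝ := ∑ T, γ T * ∏ i ∈ T, v i

omit [DecidableEq ι] in
theorem ws_mono {v v' : ι → ℝ} {γ γ' : Finset ι → ℝ} (hv : ∀ i, 0 ≤ v i) (hv' : ∀ i, v i ≤ v' i)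
    (hγ : ∀ T, 0 ≤ γ' T) (h : ∀ T, γ T ≤ γ' T) : ws v γ ≤ ws v' γ' :=
  Finset.sum_le_sum fun T _ => mul_le_mul (h T)
    (Finset.prod_le_prod (fun i _ => hv i) fun i _ => hv' i)
    (Finset.prod_nonneg fun i _ => hv i) (hγ T)

omit [DecidableEq ι] in
theorem ws_nonneg {v : ι → ℝ} {γ : Finset ι → ℝ} (hv : ∀ i, 0 ≤ v i) (hγ : ∀ T, 0 ≤ γ T) :
    0 ≤ ws v γ :=
  Finset.sum_nonneg fun T _ => mul_nonneg (hγ T) (Finset.prod_nonneg fun i _ => hv i)

omit [DecidableEq ι] in
theorem ws_empty {v : ι → ℝ} {γ : Finset ι → ℝ} (hv : ∀ i, 0 ≤ v i) (hγ : ∀ T, 0 ≤ γ T) :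
    γ ∅ ≤ ws v γ := by
  have := Finset.single_le_sum (f := fun T => γ T * ∏ i ∈ T, v i)
    (fun T _ => mul_nonneg (hγ T) (Finset.prod_nonneg fun i _ => hv i)) (mem_univ ∅)
  simpa [ws] using this

omit [DecidableEq ι] in
theorem ws_sum (v : ι → ℝ) (s : Finset ℕ) (a : ℕ → ℝ) (γ : ℕ → Finset ι → ℝ) :
    ws v (fun T => ∑ j ∈ s, a j * γ j T) = ∑ j ∈ s, a j * ws v (γ j) := by
  simp only [ws, Finset.sum_mul, Finset.mul_sum, mul_assoc]
  exact Finset.sum_comm

theorem marg {v : ι → ℝ} {γ : Finset ι → ℝ} (hv : ∀ i, 0 ≤ v i) (h0 : ∀ T, 0 ≤ γ T)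
    (hγ : Antitone γ) (i : ι) :
    ∑ T, (γ T * ∏ i ∈ T, v i) * (if i ∈ T then 1 else 0) ≤ v i * ws v γ := by
  simp only [mul_ite, mul_one, mul_zero]
  rw [← Finset.sum_filter]
  calc _ ≤ ∑ T ∈ univ.filter (fun T : Finset ι => i ∈ T), v i * (γ (T.erase i) * ∏ i ∈ T.erase i, v i) := by
        refine Finset.sum_le_sum fun T hT => ?_
        rw [← Finset.mul_prod_erase T v (mem_filter.1 hT).2, mul_left_comm]
        exact mul_le_mul_of_nonneg_left (mul_le_mul_of_nonneg_right (hγ (erase_subset _ _))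
          (Finset.prod_nonneg fun i _ => hv i)) (hv i)
    _ ≤ _ := by
        rw [← Finset.mul_sum]
        refine mul_le_mul_of_nonneg_left ?_ (hv i)
        rw [← Finset.sum_image (f := fun T => γ T * ∏ i ∈ T, v i)
          (g := fun T : Finset ι => T.erase i)]
        · exact Finset.sum_le_sum_of_subset_of_nonneg (subset_univ _) fun T _ _ =>
            mul_nonneg (h0 T) (Finset.prod_nonneg fun i _ => hv i)
        · intro T hT T' hT' h
          simp only [coe_filter, mem_univ, true_and, Set.mem_ofPred_eq] at hT hT'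
          rw [← insert_erase hT, ← insert_erase hT']
          exact congrArg _ h

theorem marg_sum {v : ι → ℝ} {γ : Finset ι → ℝ} (hv : ∀ i, 0 ≤ v i) (h0 : ∀ T, 0 ≤ γ T)
    (hγ : Antitone γ) {c : ι → ℝ} (hc : ∀ i, 0 ≤ c i) :
    ∑ T, (γ T * ∏ i ∈ T, v i) * ∑ i ∈ T, c i ≤ (∑ i, c i * v i) * ws v γ := by
  calc _ = ∑ i, c i * ∑ T, (γ T * ∏ i ∈ T, v i) * (if i ∈ T then 1 else 0) := by
        simp only [Finset.mul_sum]
        rw [Finset.sum_comm]
        refine Finset.sum_congr rfl fun T _ => ?_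
        simp only [mul_ite, mul_one, mul_zero]
        rw [← Finset.sum_filter]
        simp [mul_comm]
    _ ≤ _ := by
        rw [Finset.sum_mul]
        refine Finset.sum_le_sum fun i _ => ?_
        rw [mul_assoc]
        exact mul_le_mul_of_nonneg_left (marg hv h0 hγ i) (hc i)

omit [DecidableEq K] in
theorem ws_free {v : ι → ℝ} {γ : Finset ι → ℝ} (hv : ∀ i, 0 ≤ v i) (h0 : ∀ T, 0 ≤ γ T)
    (hγ : Antitone γ) (T : K → Finset ι) :
    (1 - ∑ j, ∑ i ∈ T j, v i) * ws v γ ≤ ∑ U ∈ Fr T, γ U * ∏ i ∈ U, v i := by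
  have h := marg_sum hv h0 hγ (c := fun i => ∑ j, if i ∈ T j then 1 else 0)
    fun i => Finset.sum_nonneg fun j _ => by split_ifs <;> norm_num
  have e : ∑ i, (∑ j, if i ∈ T j then (1 : ℝ) else 0) * v i = ∑ j, ∑ i ∈ T j, v i := by
    simp only [Finset.sum_mul, ite_mul, one_mul, zero_mul]
    rw [Finset.sum_comm]
    refine Finset.sum_congr rfl fun j _ => ?_
    rw [← Finset.sum_filter]; simp
  rw [e] at h
  rw [sub_mul, one_mul, Fr, Finset.sum_filter]
  refine le_trans (sub_le_sub_left h _) ?_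
  rw [ws, ← Finset.sum_sub_distrib]
  refine Finset.sum_le_sum fun U _ => ?_
  have h1 : 0 ≤ γ U * ∏ i ∈ U, v i := mul_nonneg (h0 U) (Finset.prod_nonneg fun i _ => hv i)
  have h2 : ∀ i j, (0 : ℝ) ≤ if i ∈ T j then 1 else 0 := fun i j => by split_ifs <;> norm_num
  split_ifs with h3
  · have : 0 ≤ ∑ i ∈ U, ∑ j, if i ∈ T j then (1 : ℝ) else 0 :=
      Finset.sum_nonneg fun i _ => Finset.sum_nonneg fun j _ => h2 i j
    nlinarith
  · push Not at h3
    obtain ⟨j, hj⟩ := h3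
    obtain ⟨i, hi, hi'⟩ := Finset.not_disjoint_iff.1 hj
    have : 1 ≤ ∑ i ∈ U, ∑ j, if i ∈ T j then (1 : ℝ) else 0 :=
      le_trans (le_trans (by simp [hi']) (Finset.single_le_sum (fun j _ => h2 i j) (mem_univ j)))
        (Finset.single_le_sum (fun i _ => Finset.sum_nonneg fun j _ => h2 i j) hi)
    nlinarith

theorem ws_change {v v' b : ι → ℝ} {γ : Finset ι → ℝ} (S : Finset ι) (hv : ∀ i, 0 ≤ v i)
    (hv' : ∀ i, 0 ≤ v' i) (h0 : ∀ T, 0 ≤ γ T) (hγ : Antitone γ) (h1 : ∀ i ∉ S, v' i ≤ v i)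
    (h2 : ∀ i ∈ S, v' i ≤ b i) : ws v' γ ≤ (∏ i ∈ S, (1 + b i)) * ws v γ := by
  rw [Finset.prod_one_add, ws, ws, Finset.sum_mul_sum, ← Finset.sum_product']
  have hb : ∀ U ⊆ S, 0 ≤ ∏ i ∈ U, b i := fun U hU =>
    Finset.prod_nonneg fun i hi => (hv' i).trans (h2 i (hU hi))
  calc _ ≤ ∑ T : Finset ι, (∏ i ∈ T ∩ S, b i) * (γ (T \ S) * ∏ i ∈ T \ S, v i) := by
        refine Finset.sum_le_sum fun T _ => ?_
        rw [← Finset.prod_inter_mul_prod_sdiff T S v', mul_left_comm]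
        refine mul_le_mul (Finset.prod_le_prod (fun i _ => hv' i) fun i hi => h2 i (mem_inter.1 hi).2)
          (mul_le_mul (hγ sdiff_subset) (Finset.prod_le_prod (fun i _ => hv' i)
            fun i hi => h1 i (mem_sdiff.1 hi).2) (Finset.prod_nonneg fun i _ => hv' i) (h0 _))
          (mul_nonneg (h0 _) (Finset.prod_nonneg fun i _ => hv' i)) (hb _ inter_subset_right)
    _ ≤ _ := by
        rw [← Finset.sum_image (s := univ) (g := fun T => (T ∩ S, T \ S))
          (f := fun x : Finset ι × Finset ι => (∏ i ∈ x.1, b i) * (γ x.2 * ∏ i ∈ x.2, v i))]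
        · refine Finset.sum_le_sum_of_subset_of_nonneg (fun x hx => ?_) fun x hx _ =>
            mul_nonneg (hb _ (mem_powerset.1 (mem_product.1 hx).1))
              (mul_nonneg (h0 _) (Finset.prod_nonneg fun i _ => hv i))
          obtain ⟨T, _, rfl⟩ := mem_image.1 hx
          simp
        · intro T _ T' _ h
          simp only [Prod.mk.injEq] at h
          rw [← sdiff_union_inter T S, ← sdiff_union_inter T' S, h.1, h.2]

variable (P : ι → ℕ)

/-- Logarithm of the product of the primes in `T`. -/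
noncomputable def lp (T : Finset ι) : ℝ := ∑ i ∈ T, Real.log (P i)

/-- Indicator of `lp T ≤ x`. -/
noncomputable def cut (x : ℝ) (T : Finset ι) : ℝ := if lp P T ≤ x then 1 else 0

/-- The number `1 / (p - 1)`. -/
noncomputable def om (p : ℕ) : ℝ := ((p : ℝ) - 1)⁻¹

/-- The product of `1 - 1 / p` over the primes in `A`. -/
noncomputable def Vp (A : Finset ι) : ℝ := ∏ i ∈ A, (1 - (P i : ℝ)⁻¹)

omit [Fintype ι] [DecidableEq ι] in
theorem lp_mono : Monotone (lp P) := fun _ _ h =>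
  Finset.sum_le_sum_of_subset_of_nonneg h fun _ _ _ => Real.log_natCast_nonneg _

omit [Fintype ι] [DecidableEq ι] in
theorem lp_nonneg (T : Finset ι) : 0 ≤ lp P T :=
  Finset.sum_nonneg fun _ _ => Real.log_natCast_nonneg _

omit [Fintype ι] [DecidableEq ι] in
theorem cut_anti (x : ℝ) : Antitone (cut P x) := fun T T' h => by
  unfold cut
  split_ifs with h1 h2
  · rfl
  · exact absurd ((lp_mono P h).trans h1) h2
  all_goals norm_num

omit [Fintype ι] [DecidableEq ι] in
theorem cut_nonneg (x : ℝ) (T : Finset ι) : 0 ≤ cut P x T := by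
  unfold cut; split_ifs <;> norm_num

omit [Fintype ι] [DecidableEq ι] in
theorem cut_le (x : ℝ) (T : Finset ι) : cut P x T ≤ 1 := by
  unfold cut; split_ifs <;> norm_num

variable [hP : ∀ i, Fact (P i).Prime]

omit [Fintype ι] [DecidableEq ι] in
theorem two_le (i : ι) : (2 : ℝ) ≤ P i := by exact_mod_cast (hP i).out.two_le

omit [Fintype ι] [DecidableEq ι] in
theorem om_pos (i : ι) : 0 < om (P i) := inv_pos.2 (by linarith [two_le P i])

omit [Fintype ι] [DecidableEq ι] in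
theorem om_mul (i : ι) : om (P i) * (P i - 1) = 1 := inv_mul_cancel₀ (by linarith [two_le P i])

omit [Fintype ι] [DecidableEq ι] in
theorem exp_lp (T : Finset ι) : Real.exp (lp P T) = ∏ i ∈ T, (P i : ℝ) := by
  rw [lp, Real.exp_sum]
  exact Finset.prod_congr rfl fun i _ => Real.exp_log (by linarith [two_le P i])

omit [Fintype ι] [DecidableEq ι] in
theorem Vp_pos (A : Finset ι) : 0 < Vp P A := Finset.prod_pos fun i _ => by
  have := inv_lt_one_of_one_lt₀ (show (1 : ℝ) < P i by linarith [two_le P i])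
  linarith

omit [Fintype ι] [DecidableEq ι] hP in
theorem sum_sq_inv (hinj : Function.Injective P) (A : Finset ι) {z : ℕ} (hz : 1 ≤ z)
    (hA : ∀ i ∈ A, z < P i) : ∑ i ∈ A, ((P i : ℝ) ^ 2)⁻¹ ≤ (z : ℝ)⁻¹ := by
  have := sum_inv_sq_le (A.image P) hz fun p hp => by
    obtain ⟨i, hi, rfl⟩ := mem_image.1 hp
    exact hA i hi
  rwa [Finset.sum_image hinj.injOn] at this

theorem ws_low_full (hinj : Function.Injective P) {x : ℝ}
    (hs : ∀ p : ℕ, p.Prime → p ≤ Real.exp x → ∃ i, P i = p) :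
    x ≤ ws (fun i => om (P i)) (cut P x) := by
  set n0 := ⌊Real.exp x⌋₊
  have h1 : x ≤ ∑ n ∈ Icc 1 n0, (n : ℝ)⁻¹ := by
    have h2 := log_add_one_le_harmonic n0
    rw [harmonic_eq_sum_Icc] at h2
    push_cast at h2
    refine le_trans ?_ h2
    rw [Real.le_log_iff_exp_le (by positivity)]
    exact (Nat.lt_floor_add_one _).le
  refine h1.trans ?_
  rw [← Finset.sum_fiberwise (Icc 1 n0) (fun n => univ.filter fun i => P i ∣ n)]
  refine Finset.sum_le_sum fun T _ => ?_
  set F := (Icc 1 n0).filter fun n => (univ.filter fun i => P i ∣ n) = T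
  have hq : 0 < ∏ i ∈ T, P i := Finset.prod_pos fun i _ => (hP i).out.pos
  have hd : ∀ n ∈ F, ∏ i ∈ T, P i ∣ n := fun n hn => by
    have := Finset.prod_primes_dvd (s := T.image P) n (fun p hp => by
      obtain ⟨i, _, rfl⟩ := mem_image.1 hp
      exact (hP i).out.prime) fun p hp => by
      obtain ⟨i, hi, rfl⟩ := mem_image.1 hp
      rw [← (mem_filter.1 hn).2] at hi
      exact (mem_filter.1 hi).2
    rwa [Finset.prod_image hinj.injOn] at this
  have hle : ∀ n ∈ F, 1 ≤ n ∧ (n : ℝ) ≤ Real.exp x := fun n hn => by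
    have := mem_Icc.1 (mem_filter.1 hn).1
    exact ⟨this.1, le_trans (by exact_mod_cast this.2) (Nat.floor_le (Real.exp_pos x).le)⟩
  rcases F.eq_empty_or_nonempty with h | ⟨n, hn⟩
  · rw [h, Finset.sum_empty]
    exact mul_nonneg (cut_nonneg P x T) (Finset.prod_nonneg fun i _ => (om_pos P i).le)
  have hc : cut P x T = 1 := if_pos (by
    rw [← Real.exp_le_exp, exp_lp]
    refine le_trans ?_ (hle n hn).2
    exact_mod_cast Nat.le_of_dvd (hle n hn).1 (hd n hn))
  have h3 := euler_ge one_pos (T.image P) (fun p hp => by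
      obtain ⟨i, _, rfl⟩ := mem_image.1 hp
      exact (hP i).out) (F.image (· / ∏ i ∈ T, P i)) fun m hm p hp hpm => by
    obtain ⟨n, hn, rfl⟩ := mem_image.1 hm
    have h4 : p ∣ n := hpm.trans (Nat.div_dvd_of_dvd (hd n hn))
    obtain ⟨i, rfl⟩ := hs p hp (le_trans (by exact_mod_cast Nat.le_of_dvd (hle n hn).1 h4)
      (hle n hn).2)
    refine mem_image_of_mem P ?_
    rw [← (mem_filter.1 hn).2]
    simpa using h4
  simp only [Real.rpow_neg_one] at h3
  rw [Finset.prod_image hinj.injOn, Finset.sum_image (fun a ha b hb h => by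
    rw [← Nat.div_mul_cancel (hd a ha), ← Nat.div_mul_cancel (hd b hb)]
    exact congrArg (· * _) h)] at h3
  calc _ = (∑ n ∈ F, (((n / ∏ i ∈ T, P i : ℕ) : ℝ))⁻¹) * ∏ i ∈ T, (P i : ℝ)⁻¹ := by
        rw [Finset.sum_mul]
        refine Finset.sum_congr rfl fun n hn => ?_
        rw [Finset.prod_inv_distrib, ← mul_inv, ← Nat.cast_prod, ← Nat.cast_mul,
          Nat.div_mul_cancel (hd n hn)]
    _ ≤ (∏ i ∈ T, (1 - (P i : ℝ)⁻¹)⁻¹) * ∏ i ∈ T, (P i : ℝ)⁻¹ := by gcongr
    _ = _ := by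
        rw [hc, one_mul, ← Finset.prod_mul_distrib]
        refine Finset.prod_congr rfl fun i _ => ?_
        have := two_le P i
        unfold om
        rw [← mul_inv]
        congr 1
        field_simp

/-- The weight `1 / (p - 1)` on `A`. -/
noncomputable def oA (A : Finset ι) (i : ι) : ℝ := if i ∈ A then om (P i) else 0

/-- The weight `p ^ 2 / (p - 1) ^ 3` on `A`. -/
noncomputable def vA (A : Finset ι) (i : ι) : ℝ :=
  if i ∈ A then (P i : ℝ) ^ 2 * om (P i) ^ 3 else 0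

omit [Fintype ι] in
theorem oA_nonneg (A : Finset ι) (i : ι) : 0 ≤ oA P A i := by
  unfold oA; split_ifs
  · exact (om_pos P i).le
  · rfl

omit [Fintype ι] in
theorem oA_le_vA (A : Finset ι) (i : ι) : oA P A i ≤ vA P A i := by
  unfold oA vA; split_ifs
  · have h1 := om_mul P i
    have h2 := om_pos P i
    have : 1 ≤ (P i : ℝ) * om (P i) := by nlinarith
    nlinarith [mul_nonneg h2.le (sub_nonneg.2 (one_le_pow₀ (n := 2) this))]
  · rfl

omit [Fintype ι] in
theorem vA_nonneg (A : Finset ι) (i : ι) : 0 ≤ vA P A i :=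
  (oA_nonneg P A i).trans (oA_le_vA P A i)

theorem ws_low (hinj : Function.Injective P) {x : ℝ}
    (hs : ∀ p : ℕ, p.Prime → p ≤ Real.exp x → ∃ i, P i = p) (A : Finset ι) :
    x * Vp P Aᶜ ≤ ws (oA P A) (cut P x) := by
  have h := (ws_low_full P hinj hs).trans (ws_change (v := oA P A) (b := fun i => om (P i)) Aᶜ
    (oA_nonneg P A) (fun i => (om_pos P i).le) (cut_nonneg P x) (cut_anti P x)
    (fun i hi => by simp at hi; simp [oA, hi]) fun i _ => le_rfl)
  have e : (∏ i ∈ Aᶜ, (1 + om (P i))) * Vp P Aᶜ = 1 := by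
    rw [Vp, ← Finset.prod_mul_distrib]
    refine Finset.prod_eq_one fun i _ => ?_
    have h1 := om_mul P i
    have := two_le P i
    field_simp
    linarith
  calc _ ≤ _ := mul_le_mul_of_nonneg_right h (Vp_pos P _).le
    _ = _ := by rw [mul_right_comm, e, one_mul]

omit [Fintype ι] [DecidableEq ι] in
theorem prod_inv_le (hinj : Function.Injective P) (S : Finset ι) {n : ℕ} (hn : 3 ≤ n)
    (hS : ∀ i ∈ S, P i ≤ n) : ∏ i ∈ S, (1 - (P i : ℝ)⁻¹)⁻¹ ≤ 2 * Real.exp 5 * Real.log n := by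
  refine le_trans ?_ (prod_primesLE_le hn)
  rw [← Finset.prod_image (f := fun p : ℕ => (1 - (p : ℝ)⁻¹)⁻¹) hinj.injOn]
  have : ∀ p ∈ n.primesLE, 1 ≤ (1 - (p : ℝ)⁻¹)⁻¹ := fun p hp => by
    have h1 : (1 : ℝ) < p := by exact_mod_cast (Nat.mem_primesLE.1 hp).2.one_lt
    have h2 := inv_lt_one_of_one_lt₀ h1
    have h3 : 0 < (p : ℝ)⁻¹ := by positivity
    exact one_le_inv₀ (by linarith) |>.2 (by linarith)
  have hsub : S.image P ⊆ n.primesLE := fun p hp => by
    obtain ⟨i, hi, rfl⟩ := mem_image.1 hp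
    exact Nat.mem_primesLE.2 ⟨hS i hi, (hP i).out⟩
  exact Finset.prod_le_prod_of_subset_of_one_le hsub
    (fun p hp => zero_le_one.trans (this p (hsub hp))) fun p hp _ => this p hp

theorem ws_up (hinj : Function.Injective P) {x : ℝ} (A B : Finset ι) (hAB : Disjoint A B)
    (hB : ∀ i ∈ B, P i ≤ Real.exp x) (hx : 3 ≤ Real.exp x) :
    ws (vA P A) (cut P x) ≤ x * (2 * Real.exp 13 * Vp P B) := by
  set n0 := ⌊Real.exp x⌋₊
  have hn : 3 ≤ n0 := Nat.le_floor (by exact_mod_cast hx)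
  set S := univ.filter fun i => P i ≤ n0
  have hBS : B ⊆ S := fun i hi => by simpa [S] using Nat.le_floor (hB i hi)
  have h1 : ws (vA P A) (cut P x) ≤ ∏ i ∈ S, (1 + vA P A i) := by
    rw [Finset.prod_one_add, ws]
    simp only [cut, ite_mul, one_mul, zero_mul]
    rw [← Finset.sum_filter]
    refine Finset.sum_le_sum_of_subset_of_nonneg (fun T hT => mem_powerset.2 fun i hi => ?_)
      fun T _ _ => Finset.prod_nonneg fun i _ => vA_nonneg P A i
    have h2 := (lp_mono P (singleton_subset_iff.2 hi)).trans (mem_filter.1 hT).2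
    rw [← Real.exp_le_exp, exp_lp, Finset.prod_singleton] at h2
    simpa [S] using Nat.le_floor h2
  have h2 : ∏ i ∈ S, (1 + vA P A i) ≤ ∏ i ∈ S, ((if i ∈ B then (1 - (P i : ℝ)⁻¹) else 1) *
      (1 - (P i : ℝ)⁻¹)⁻¹ * Real.exp (8 * ((P i : ℝ) ^ 2)⁻¹)) := by
    refine Finset.prod_le_prod (fun i _ => by linarith [vA_nonneg P A i]) fun i _ => ?_
    have h3 := two_le P i
    have h4 := Real.add_one_le_exp (8 * ((P i : ℝ) ^ 2)⁻¹)
    have h5 : 0 < 1 - (P i : ℝ)⁻¹ := by
      have := inv_lt_one_of_one_lt₀ (show (1 : ℝ) < P i by linarith)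
      linarith
    split_ifs with h
    · have : i ∉ A := fun h6 => Finset.disjoint_left.1 hAB h6 h
      rw [mul_inv_cancel₀ h5.ne', vA, if_neg this]
      have : 0 ≤ 8 * ((P i : ℝ) ^ 2)⁻¹ := by positivity
      linarith
    · have h6 : vA P A i ≤ (P i : ℝ) ^ 2 * om (P i) ^ 3 := by
        unfold vA; split_ifs
        · rfl
        · have := om_pos P i; positivity
      rw [one_mul, le_inv_mul_iff₀ h5]
      refine le_trans ?_ h4
      refine le_trans (mul_le_mul_of_nonneg_left (add_le_add_right h6 1) h5.le) ?_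
      obtain ⟨q, hq⟩ : ∃ q : ℝ, q = P i - 1 := ⟨_, rfl⟩
      have hq1 : 1 ≤ q := by linarith
      rw [om, ← hq, show (P i : ℝ) = q + 1 by linarith]
      field_simp
      nlinarith [mul_nonneg (sub_nonneg.2 hq1) (show 0 ≤ q by linarith)]
  have h3 := prod_inv_le P hinj S hn fun i hi => (mem_filter.1 hi).2
  have h4 := sum_sq_inv P hinj S le_rfl fun i _ => (hP i).out.one_lt
  have h5 : Real.log n0 ≤ x := by
    rw [Real.log_le_iff_le_exp (by positivity)]
    exact Nat.floor_le (Real.exp_pos x).le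
  rw [Finset.prod_mul_distrib, Finset.prod_mul_distrib, ← Real.exp_sum, ← Finset.mul_sum,
    ← Finset.prod_filter, Finset.filter_mem_eq_inter, inter_eq_right.2 hBS] at h2
  refine h1.trans (h2.trans ?_)
  have h6 := Vp_pos P B
  have h7 : 0 ≤ Real.log n0 := Real.log_natCast_nonneg _
  calc _ ≤ Vp P B * (2 * Real.exp 5 * x) * Real.exp 8 := by
        have h8 := h3.trans (show _ ≤ 2 * Real.exp 5 * x by gcongr)
        have h9 : 0 ≤ x := h7.trans h5
        simp only [Nat.cast_one, inv_one] at h4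
        refine mul_le_mul (mul_le_mul_of_nonneg_left h8 h6.le) (Real.exp_le_exp.2 (by linarith))
          (Real.exp_pos _).le (by positivity)
    _ = _ := by rw [show (13 : ℝ) = 5 + 8 by norm_num, Real.exp_add]; ring

end Pool.Agent.Lib.MP_bee098_nt
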