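import Mathlib

/-! Tensor products of local quadratic form inequalities; periodic sums; dual large sieve. -/

open Finset

namespace Pool.Agent.Lib.MP_bee098_nt

theorem tensor_fin {𝕜 : Type} [RCLike 𝕜] (ε : ℝ) (n : ℕ) :
    ∀ {S A : Fin n → Type} [∀ i, Fintype (S i)] [∀ i, Fintype (A i)]
      (μ : ∀ i, S i → ℝ) (φ : ∀ i, A i → S i → 𝕜) (β : ∀ i, A i → ℝ)
      (_ : ∀ i s, 0 ≤ μ i s) (_ : ∀ i a, 0 ≤ β i a)
      (_ : ∀ i (c : A i → 𝕜), ε * ∑ s, μ i s * ‖∑ a, c a * φ i a s‖ ^ 2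
        ≤ ε * ∑ a, β i a * ‖c a‖ ^ 2) (y : (∀ i, A i) → 𝕜),
      ε * ∑ s : ∀ i, S i, (∏ i, μ i (s i)) * ‖∑ σ : ∀ i, A i, y σ * ∏ i, φ i (σ i) (s i)‖ ^ 2
        ≤ ε * ∑ σ : ∀ i, A i, (∏ i, β i (σ i)) * ‖y σ‖ ^ 2 := by
  induction n with
  | zero =>
    intro S A _ _ μ φ β _ _ _ y
    simp
  | succ n ih =>
    intro S A _ _ μ φ β hμ hβ h y
    rw [← (Fin.consEquiv S).sum_comp, ← (Fin.consEquiv A).sum_comp, Fintype.sum_prod_type_right,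
      Fintype.sum_prod_type]
    have e1 : ∀ (s0 : S 0) (s : ∀ i : Fin n, S i.succ),
        (∑ σ : ∀ i, A i, y σ * ∏ i, φ i (σ i) (Fin.consEquiv S (s0, s) i))
          = ∑ a, (∑ σ : ∀ i : Fin n, A i.succ,
            y (Fin.consEquiv A (a, σ)) * ∏ i, φ i.succ (σ i) (s i)) * φ 0 a s0 := by
      intro s0 s
      rw [← (Fin.consEquiv A).sum_comp, Fintype.sum_prod_type]
      refine Finset.sum_congr rfl fun a _ => ?_
      rw [Finset.sum_mul]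
      refine Finset.sum_congr rfl fun σ _ => ?_
      simp only [Fin.consEquiv_apply, Fin.prod_univ_succ, Fin.cons_zero, Fin.cons_succ]
      ring
    simp only [e1]
    simp only [Fin.consEquiv_apply, Fin.prod_univ_succ, Fin.cons_zero, Fin.cons_succ]
    calc _ = ∑ s : ∀ i : Fin n, S i.succ, (∏ i, μ i.succ (s i)) * (ε * ∑ s0, μ 0 s0 *
          ‖∑ a, (∑ σ : ∀ i : Fin n, A i.succ,
            y (Fin.consEquiv A (a, σ)) * ∏ i, φ i.succ (σ i) (s i)) * φ 0 a s0‖ ^ 2) := by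
          rw [Finset.mul_sum]
          refine Finset.sum_congr rfl fun s _ => ?_
          simp only [Finset.mul_sum]
          refine Finset.sum_congr rfl fun s0 _ => ?_
          ring
      _ ≤ ∑ s : ∀ i : Fin n, S i.succ, (∏ i, μ i.succ (s i)) * (ε * ∑ a, β 0 a *
          ‖∑ σ : ∀ i : Fin n, A i.succ, y (Fin.consEquiv A (a, σ)) * ∏ i, φ i.succ (σ i) (s i)‖ ^ 2) :=
          Finset.sum_le_sum fun s _ => mul_le_mul_of_nonneg_left (h 0 _)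
            (Finset.prod_nonneg fun i _ => hμ _ _)
      _ = ∑ a, β 0 a * (ε * ∑ s : ∀ i : Fin n, S i.succ, (∏ i, μ i.succ (s i)) *
          ‖∑ σ : ∀ i : Fin n, A i.succ, y (Fin.consEquiv A (a, σ)) * ∏ i, φ i.succ (σ i) (s i)‖ ^ 2) := by
          simp only [Finset.mul_sum]
          rw [Finset.sum_comm]
          refine Finset.sum_congr rfl fun a _ => Finset.sum_congr rfl fun s _ => ?_
          ring
      _ ≤ ∑ a, β 0 a * (ε * ∑ σ : ∀ i : Fin n, A i.succ,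
          (∏ i, β i.succ (σ i)) * ‖y (Fin.consEquiv A (a, σ))‖ ^ 2) :=
          Finset.sum_le_sum fun a _ => mul_le_mul_of_nonneg_left
            (ih (fun i => μ i.succ) (fun i => φ i.succ) (fun i => β i.succ) (fun _ _ => hμ _ _)
              (fun _ _ => hβ _ _) (fun _ => h _) (fun σ => y (Fin.consEquiv A (a, σ)))) (hβ _ _)
      _ = _ := by
          simp only [Finset.mul_sum]
          refine Finset.sum_congr rfl fun a _ => Finset.sum_congr rfl fun σ _ => ?_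
          ring

theorem tensor_sign {𝕜 : Type} [RCLike 𝕜] (ε : ℝ) {ι : Type} [Fintype ι] [DecidableEq ι]
    {S A : ι → Type} [∀ i, Fintype (S i)] [∀ i, Fintype (A i)]
    (μ : ∀ i, S i → ℝ) (φ : ∀ i, A i → S i → 𝕜) (β : ∀ i, A i → ℝ)
    (hμ : ∀ i s, 0 ≤ μ i s) (hβ : ∀ i a, 0 ≤ β i a)
    (h : ∀ i (c : A i → 𝕜), ε * ∑ s, μ i s * ‖∑ a, c a * φ i a s‖ ^ 2
      ≤ ε * ∑ a, β i a * ‖c a‖ ^ 2) (y : (∀ i, A i) → 𝕜) :
    ε * ∑ s : ∀ i, S i, (∏ i, μ i (s i)) * ‖∑ σ : ∀ i, A i, y σ * ∏ i, φ i (σ i) (s i)‖ ^ 2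
      ≤ ε * ∑ σ : ∀ i, A i, (∏ i, β i (σ i)) * ‖y σ‖ ^ 2 := by
  let e := (Fintype.equivFin ι).symm
  have := tensor_fin ε (Fintype.card ι) (S := fun i => S (e i)) (A := fun i => A (e i))
    (fun i => μ (e i)) (fun i => φ (e i)) (fun i => β (e i)) (fun _ _ => hμ _ _)
    (fun _ _ => hβ _ _) (fun _ => h _) (fun σ => y (Equiv.piCongrLeft A e σ))
  rw [← (Equiv.piCongrLeft S e).sum_comp, ← (Equiv.piCongrLeft A e).sum_comp]
  simp only [← (Equiv.piCongrLeft A e).sum_comp, ← e.prod_comp, Equiv.piCongrLeft_apply_apply]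
  exact this

theorem tensor_le {𝕜 : Type} [RCLike 𝕜] {ι : Type} [Fintype ι] [DecidableEq ι]
    {S A : ι → Type} [∀ i, Fintype (S i)] [∀ i, Fintype (A i)]
    (μ : ∀ i, S i → ℝ) (φ : ∀ i, A i → S i → 𝕜) (β : ∀ i, A i → ℝ)
    (hμ : ∀ i s, 0 ≤ μ i s) (hβ : ∀ i a, 0 ≤ β i a)
    (h : ∀ i (c : A i → 𝕜), ∑ s, μ i s * ‖∑ a, c a * φ i a s‖ ^ 2
      ≤ ∑ a, β i a * ‖c a‖ ^ 2) (y : (∀ i, A i) → 𝕜) :
    ∑ s : ∀ i, S i, (∏ i, μ i (s i)) * ‖∑ σ : ∀ i, A i, y σ * ∏ i, φ i (σ i) (s i)‖ ^ 2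
      ≤ ∑ σ : ∀ i, A i, (∏ i, β i (σ i)) * ‖y σ‖ ^ 2 := by
  simpa using tensor_sign 1 μ φ β hμ hβ (by simpa using h) y

theorem tensor_ge {𝕜 : Type} [RCLike 𝕜] {ι : Type} [Fintype ι] [DecidableEq ι]
    {S A : ι → Type} [∀ i, Fintype (S i)] [∀ i, Fintype (A i)]
    (μ : ∀ i, S i → ℝ) (φ : ∀ i, A i → S i → 𝕜) (β : ∀ i, A i → ℝ)
    (hμ : ∀ i s, 0 ≤ μ i s) (hβ : ∀ i a, 0 ≤ β i a)
    (h : ∀ i (c : A i → 𝕜), ∑ a, β i a * ‖c a‖ ^ 2
      ≤ ∑ s, μ i s * ‖∑ a, c a * φ i a s‖ ^ 2) (y : (∀ i, A i) → 𝕜) :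
    ∑ σ : ∀ i, A i, (∏ i, β i (σ i)) * ‖y σ‖ ^ 2 ≤
      ∑ s : ∀ i, S i, (∏ i, μ i (s i)) * ‖∑ σ : ∀ i, A i, y σ * ∏ i, φ i (σ i) (s i)‖ ^ 2 := by
  simpa using tensor_sign (-1) μ φ β hμ hβ (by simpa using h) y

/-- Dual form of the large sieve with a majorant. -/
theorem dual_sieve {Φ : Type} (F : Finset Φ) (I : Finset ℕ) (χ : Φ → ℕ → ℂ) (β : ℕ → ℝ)
    (a : ℕ → ℂ) {B E : ℝ} (hE : 0 ≤ E) (hβ : ∀ n ∈ I, 0 ≤ β n)
    (ha : ∀ n ∈ I, a n ≠ 0 → 1 ≤ β n) (hχ : ∀ x ∈ F, ∀ n, ‖χ x n‖ ≤ 1)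
    (hB : ∑ n ∈ I, β n ≤ B)
    (hoff : ∀ x ∈ F, ∀ x' ∈ F, x ≠ x' →
      ‖∑ n ∈ I, (β n : ℂ) * (χ x n * (starRingEnd ℂ) (χ x' n))‖ ≤ E) :
    ∑ x ∈ F, ‖∑ n ∈ I, a n * χ x n‖ ^ 2 ≤ (B + E * F.card) * ∑ n ∈ I, ‖a n‖ ^ 2 := by
  classical
  obtain ⟨c, hc⟩ : ∃ c : Φ → ℂ, c = fun x => (starRingEnd ℂ) (∑ n ∈ I, a n * χ x n) := ⟨_, rfl⟩
  set S := ∑ x ∈ F, ‖∑ n ∈ I, a n * χ x n‖ ^ 2 with hS
  have hSc : S = ∑ x ∈ F, ‖c x‖ ^ 2 := by simp only [hS, hc, RCLike.norm_conj]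
  have hS0 : 0 ≤ S := Finset.sum_nonneg fun _ _ => by positivity
  have hB0 : 0 ≤ B := (Finset.sum_nonneg hβ).trans hB
  obtain ⟨u, hu⟩ : ∃ u : ℕ → ℂ, u = fun n => ∑ x ∈ F, c x * χ x n := ⟨_, rfl⟩
  have h1 : (S : ℂ) = ∑ n ∈ I, a n * u n := by
    simp only [hu, Finset.mul_sum]
    rw [Finset.sum_comm, hS]
    push_cast
    refine Finset.sum_congr rfl fun x _ => ?_
    rw [← Complex.conj_mul', Finset.mul_sum]
    refine Finset.sum_congr rfl fun n _ => ?_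
    simp only [hc]; ring
  have h2 : S ≤ ∑ n ∈ I, ‖a n‖ * (√(β n) * ‖u n‖) := by
    calc S = ‖(S : ℂ)‖ := by rw [Complex.norm_real, Real.norm_of_nonneg hS0]
      _ ≤ ∑ n ∈ I, ‖a n * u n‖ := h1 ▸ norm_sum_le _ _
      _ ≤ _ := by
        refine Finset.sum_le_sum fun n hn => ?_
        rw [norm_mul]
        by_cases h0 : a n = 0
        · simp [h0]
        · have : 1 ≤ √(β n) := Real.one_le_sqrt.2 (ha n hn h0)
          gcongr
          exact le_mul_of_one_le_left (norm_nonneg _) this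
  have h3 : ∑ n ∈ I, (√(β n) * ‖u n‖) ^ 2 ≤ (B + E * F.card) * S := by
    have e1 : ((∑ n ∈ I, (√(β n) * ‖u n‖) ^ 2 : ℝ) : ℂ) = ∑ x ∈ F, ∑ x' ∈ F,
        c x * (starRingEnd ℂ) (c x') *
          ∑ n ∈ I, (β n : ℂ) * (χ x n * (starRingEnd ℂ) (χ x' n)) := by
      have : ∀ n ∈ I, (((√(β n) * ‖u n‖) ^ 2 : ℝ) : ℂ) = ∑ x ∈ F, ∑ x' ∈ F,
          c x * (starRingEnd ℂ) (c x') * ((β n : ℂ) * (χ x n * (starRingEnd ℂ) (χ x' n))) := by
        intro n hn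
        rw [mul_pow, Real.sq_sqrt (hβ n hn)]
        push_cast
        rw [← Complex.mul_conj', hu]
        simp only [map_sum, map_mul]
        rw [Finset.sum_mul_sum, Finset.mul_sum]
        refine Finset.sum_congr rfl fun x _ => ?_
        rw [Finset.mul_sum]
        refine Finset.sum_congr rfl fun x' _ => ?_
        ring
      rw [Complex.ofReal_sum, Finset.sum_congr rfl this, Finset.sum_comm]
      refine Finset.sum_congr rfl fun x _ => ?_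
      rw [Finset.sum_comm]
      simp only [Finset.mul_sum]
    have e2 : ∀ x ∈ F, ∀ x' ∈ F, ‖c x * (starRingEnd ℂ) (c x') *
          ∑ n ∈ I, (β n : ℂ) * (χ x n * (starRingEnd ℂ) (χ x' n))‖ ≤
          (if x = x' then B * ‖c x‖ ^ 2 else 0) + E / 2 * (‖c x‖ ^ 2 + ‖c x'‖ ^ 2) := by
      intro x hx x' hx'
      rw [norm_mul, norm_mul, RCLike.norm_conj]
      split_ifs with h
      · subst h
        have : ‖∑ n ∈ I, (β n : ℂ) * (χ x n * (starRingEnd ℂ) (χ x n))‖ ≤ B := by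
          refine (norm_sum_le _ _).trans (le_trans (Finset.sum_le_sum fun n hn => ?_) hB)
          rw [norm_mul, norm_mul, RCLike.norm_conj, Complex.norm_real,
            Real.norm_of_nonneg (hβ n hn)]
          exact mul_le_of_le_one_right (hβ n hn)
            (mul_le_one₀ (hχ x hx n) (norm_nonneg _) (hχ x hx n))
        have h5 : ‖c x‖ * ‖c x‖ * _ ≤ ‖c x‖ * ‖c x‖ * B :=
          mul_le_mul_of_nonneg_left this (by positivity)
        have : 0 ≤ E / 2 * (‖c x‖ ^ 2 + ‖c x‖ ^ 2) := by positivity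
        nlinarith
      · have h5 : ‖c x‖ * ‖c x'‖ * _ ≤ ‖c x‖ * ‖c x'‖ * E :=
          mul_le_mul_of_nonneg_left (hoff x hx x' hx' h) (by positivity)
        nlinarith [mul_nonneg hE (sq_nonneg (‖c x‖ - ‖c x'‖))]
    calc _ ≤ ‖((∑ n ∈ I, (√(β n) * ‖u n‖) ^ 2 : ℝ) : ℂ)‖ := by
          rw [Complex.norm_real]; exact le_abs_self _
      _ ≤ ∑ x ∈ F, ∑ x' ∈ F, ((if x = x' then B * ‖c x‖ ^ 2 else 0)
            + E / 2 * (‖c x‖ ^ 2 + ‖c x'‖ ^ 2)) := by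
          rw [e1]
          refine (norm_sum_le _ _).trans (Finset.sum_le_sum fun x hx => ?_)
          exact (norm_sum_le _ _).trans (Finset.sum_le_sum fun x' hx' => e2 x hx x' hx')
      _ = ∑ x ∈ F, (B * ‖c x‖ ^ 2 + E / 2 * (F.card * ‖c x‖ ^ 2 + S)) := by
          refine Finset.sum_congr rfl fun x hx => ?_
          rw [Finset.sum_add_distrib, Finset.sum_ite_eq, if_pos hx, ← Finset.mul_sum,
            Finset.sum_add_distrib, Finset.sum_const, nsmul_eq_mul, hSc]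
      _ = _ := by
          rw [Finset.sum_add_distrib, ← Finset.mul_sum, ← Finset.mul_sum, Finset.sum_add_distrib,
            ← Finset.mul_sum, Finset.sum_const, nsmul_eq_mul, ← hSc]
          ring
  have h4 := Finset.sum_mul_sq_le_sq_mul_sq I (fun n => ‖a n‖) (fun n => √(β n) * ‖u n‖)
  have hA : 0 ≤ ∑ n ∈ I, ‖a n‖ ^ 2 := Finset.sum_nonneg fun _ _ => by positivity
  have h5 : S ^ 2 ≤ (∑ n ∈ I, ‖a n‖ ^ 2) * ((B + E * F.card) * S) :=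
    (pow_le_pow_left₀ hS0 h2 2).trans (h4.trans (mul_le_mul_of_nonneg_left h3 hA))
  rcases hS0.eq_or_lt with h | h
  · rw [← h]; positivity
  · have : S * S ≤ ((B + E * F.card) * ∑ n ∈ I, ‖a n‖ ^ 2) * S := by nlinarith
    exact le_of_mul_le_mul_right this h

end Pool.Agent.Lib.MP_bee098_nt
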