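import Pool.Agent.Lib.MP_bee098_nt.Core

/-! Many primes in a tuple, and no other primes nearby. -/

open Finset

namespace Pool.Agent.Lib.MP_bee098_nt

variable {ι K : Type} [Fintype ι] [DecidableEq ι] [Fintype K] [DecidableEq K]

/-- Some translate of the tuple `h` of size about `X` contains `m` primes and all primes of
the window of length `D`. -/
def Good (m X D : ℕ) (h : K → ℕ) : Prop :=
  ∃ n, X ≤ n + D ∧ n ≤ 16 * X ∧ m ≤ (univ.filter fun j => (n + h j).Prime).card ∧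
    ∀ a < D, (n + a).Prime → ∃ j, a = h j

variable (P : ι → ℕ) [hP : ∀ i, Fact (P i).Prime]

omit [Fintype ι] [DecidableEq ι] in
theorem Vp_ge (B : Finset ι) : Real.exp (-lp P B) ≤ Vp P B := by
  rw [Real.exp_neg, exp_lp, ← Finset.prod_inv_distrib]
  refine Finset.prod_le_prod (fun i _ => by positivity) fun i _ => ?_
  have := inv_anti₀ two_pos (two_le P i)
  linarith

theorem core (hinj : Function.Injective P) {r : ℕ} (hs : ∀ p : ℕ, p.Prime → p ≤ r → ∃ i, P i = p)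
    (hPr : ∀ i, P i ≤ r) (hr : 17 ≤ r) {w : ℕ} (B : Finset ι) (hB : ∀ i, i ∈ B ↔ P i ≤ w)
    (A : Finset ι) (hAB : Disjoint A B) (hV : Vp P B / 2 ≤ Vp P Aᶜ) (h : K → ℕ)
    (hd : ∀ i ∈ A, ∀ j j', (h j : ZMod (P i)) = h j' → j = j')
    (hh : ∀ i ∈ B, ∀ j, (h j : ZMod (P i)) = 0) {D : ℕ} (hD : ∀ j, h j < D) {Y0 : ℕ}
    (hDY : D ≤ Y0) (hwY : w ≤ Y0) (hLY : 2 * Real.log r ≤ Y0) {m J : ℕ}
    (c1 : 1536 * Fintype.card K ^ 2 ≤ w) (c2 : 2 ^ J ≤ Fintype.card K)
    (c3 : 3 * 10 ^ 7 * (2 * Real.exp 13) ^ 2 * (m + 1) < J)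
    (c4 : w ≤ Real.exp (Real.log r / (96 * Fintype.card K * J * (2 * Real.exp 13))))
    (c5 : Fintype.card K * D * (16 * Real.exp 18 * Real.log Y0) ≤ Real.log r)
    (c6 : Fintype.card K * D * (2 * (2 ^ Fintype.card K) ^ 2 *
      Real.exp (2 * lp P B + 12 * Real.log r + 2 * (Fintype.card K + 1))) ≤ (r ^ 40 : ℕ))
    (c7 : ((r ^ 40 : ℕ) : ℝ) ≤ ∑ n ∈ Ioc 0 (16 * r ^ 40), aw (r ^ 40 : ℕ) n)
    (c8 : ∀ j, Er P B h j (2 * Real.log r) (2 * (Fintype.card K + 1) * 2 ^ Fintype.card K)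
      (Ps P (r ^ 40 : ℕ) (16 * r ^ 40)) ≤ (r ^ 40 : ℕ) / 12)
    (c9 : D + r < r ^ 40) : Good m (r ^ 40) D h := by
  by_contra hG
  obtain ⟨X, hX⟩ : ∃ X, X = r ^ 40 := ⟨_, rfl⟩
  rw [← hX] at c6 c7 c8 c9 hG
  obtain ⟨L, hL⟩ : ∃ L, L = Real.log r := ⟨_, rfl⟩
  obtain ⟨C, hC⟩ : ∃ C, C = 2 * Real.exp 13 := ⟨_, rfl⟩
  have hr' : (17 : ℝ) ≤ r := by exact_mod_cast hr
  have eL : Real.exp L = r := by rw [hL, Real.exp_log (by linarith)]
  have lX : Real.log (16 * X : ℕ) ≤ 41 * L := by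
    rw [hX, hL]
    push_cast
    rw [Real.log_mul (by norm_num) (by positivity), Real.log_pow]
    have := Real.log_le_log (by norm_num) (show (16 : ℝ) ≤ r by linarith)
    push_cast
    linarith
  rw [← hL] at hLY c4 c5 c6 c8
  rw [← hC] at c3 c4
  set k : ℝ := (Fintype.card K : ℝ) with hk
  have hk1 : 1 ≤ Fintype.card K := le_trans Nat.one_le_two_pow c2
  have hk1' : 1 ≤ k := by rw [hk]; exact_mod_cast hk1
  have hC1 : 1 ≤ C := by linarith [Real.add_one_le_exp 13]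
  have hL0 : 0 < L := by rw [← Real.one_lt_exp_iff]; linarith
  have hJ : (1 : ℝ) ≤ J := by
    have : (0 : ℝ) < J := lt_of_le_of_lt (by positivity) c3
    exact_mod_cast (by exact_mod_cast this : 0 < J)
  have hw3 : 3 ≤ w := by nlinarith
  have hw3' : (3 : ℝ) ≤ w := by exact_mod_cast hw3
  obtain ⟨l, hl⟩ : ∃ l, l = L / (96 * k * J * C) := ⟨_, rfl⟩
  rw [← hl] at c4
  have hl0 : 0 < l := by rw [hl]; positivity
  have hlL : 96 * k * J * C * l = L := by rw [hl]; field_simp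
  have hJl : 2 ^ J * l ≤ L / 2 := by
    have h1 : (2 : ℝ) ^ J ≤ k := by rw [hk]; exact_mod_cast c2
    have h2 : 1 ≤ J * C := by nlinarith
    nlinarith [mul_le_mul_of_nonneg_right h1 hl0.le, mul_pos (show 0 < k by linarith) hl0,
      mul_le_mul_of_nonneg_left h2 (mul_pos (show 0 < k by linarith) hl0).le]
  have hjl : ∀ j < J, l ≤ 2 ^ j * l ∧ 2 ^ j * l ≤ L := fun j hj =>
    ⟨le_mul_of_one_le_left hl0.le (one_le_pow₀ one_le_two), le_trans (by
      gcongr; norm_num) (hJl.trans (by linarith))⟩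
  have hs' : ∀ x ≤ L, ∀ p : ℕ, p.Prime → p ≤ Real.exp x → ∃ i, P i = p := fun x hx p hp h1 =>
    hs p hp (by exact_mod_cast h1.trans ((Real.exp_le_exp.2 hx).trans eL.le))
  have hPL : ∀ i, P i ≤ Real.exp L := fun i => by rw [eL]; exact_mod_cast hPr i
  have hV0 := Vp_pos P B
  obtain ⟨V, hVB⟩ : ∃ V, V = Vp P B := ⟨_, rfl⟩
  have low : ∀ j < J, 2 ^ j * l * (V / 2) ≤ ws (oA P A) (cut P (2 ^ j * l)) := fun j hj =>
    le_trans (by rw [hVB]; gcongr) (ws_low P hinj (hs' _ (hjl j hj).2) A)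
  have up : ∀ j < J, ws (vA P A) (cut P (2 ^ j * l)) ≤ 2 ^ j * l * (C * V) := fun j hj => by
    have h1 : w ≤ Real.exp (2 ^ j * l) := c4.trans (Real.exp_le_exp.2 (hjl j hj).1)
    rw [hC, hVB]
    exact ws_up P hinj A B hAB (fun i hi => le_trans (by exact_mod_cast (hB i).1 hi) h1)
      (hw3'.trans h1)
  rw [← hVB] at hV0
  have g1 := gf_low P J low
  obtain ⟨g2, g3⟩ := gf_up P J hl0.le (by positivity) (vA_nonneg P A) up
  have hJ0 : 0 < J := by exact_mod_cast (by linarith : (0 : ℝ) < J)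
  have g4 : l * (V / 2) ≤ ws (vA P A) fun T => gf P J l T ^ 2 := by
    simpa using (low 0 hJ0).trans (ws_mono (oA_nonneg P A) (oA_le_vA P A) (fun _ => sq_nonneg _)
      fun T => by simpa using cut_le_gf P hJ0 l T)
  have g5 : 1 ≤ ws (vA P A) fun T => gf P J l T ^ 2 :=
    le_trans (le_trans (by simp [cut, lp, hl0.le]) (cut_le_gf P hJ0 l ∅))
      (ws_empty (vA_nonneg P A) fun _ => sq_nonneg _)
  have hw : ∀ i ∈ A, w < P i := fun i hi => not_le.1 fun h1 =>
    Finset.disjoint_left.1 hAB hi ((hB i).2 h1)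
  have hX1 : (r : ℝ) + D < X := by exact_mod_cast (by omega : r + D < X)
  have hD0 : (0 : ℝ) ≤ D := Nat.cast_nonneg D
  have s2 := fun j => s2_lower P hinj A B hAB hw c1 h j hd (fun i hi => hh i hi j)
    (gf_nonneg P J l) (gf_anti P J l) hL0 (fun T hT => (gf_support P J hl0.le T hT).trans hJl)
    (x := 8 * J * C * l) (by positivity) (by rw [← hk]; linarith) (g3.trans (by
      nlinarith [mul_le_mul_of_nonneg_left g4 (show 0 ≤ 8 * J * C * l by positivity)]))
    (X := X) (by linarith) (fun i => by linarith [hPL i])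
    (by linarith [(Nat.cast_lt (α := ℝ)).2 (hD j)]) (16 * X)
  have s1 := s1_upper P hinj A B hAB h hd (gf_nonneg P J l) (gf_le P J l) L (16 * X + 1)
  let U : Finset ι := univ.filter fun i => Y0 < P i
  have hU : ∀ i, i ∈ U ↔ Y0 < P i := fun i => by simp [U]
  have s3 := fun a (ha : a ∈ (range D).filter fun a => ∀ j, a ≠ h j) =>
    penalty P hinj A B U hAB (Finset.disjoint_left.2 fun i h1 h2 => by
      have := (hU i).1 h1
      have := (hB i).1 h2
      omega) h hd a (fun i hi j e => by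
      have h1 := (hU i).1 hi
      have h2 := mem_range.1 (mem_filter.1 ha).1
      have h3 := hD j
      exact (mem_filter.1 ha).2 j (Nat.ModEq.eq_of_lt_of_lt
        ((ZMod.natCast_eq_natCast_iff _ _ _).1 e) (by omega) (by omega)))
      (gf_nonneg P J l) (gf_le P J l) (hs' L le_rfl) hPL (by linarith) (fun i hi => by
        have h1 : (Y0 : ℝ) + 1 ≤ P i := by exact_mod_cast (hU i).1 hi
        have h2 : (w : ℝ) ≤ Y0 := by exact_mod_cast hwY
        have h3 : 1 ≤ Real.log (P i) := by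
          rw [Real.le_log_iff_exp_le (by linarith)]
          linarith [Real.exp_one_lt_three]
        nlinarith [om_mul P i, om_pos P i, mul_nonneg (om_pos P i).le
          (show 0 ≤ (P i : ℝ) - 1 - 2 * L by linarith)]) (16 * X + 1)
  rw [← hVB] at s1 s3
  obtain ⟨Γ, hΓ⟩ : ∃ Γ, Γ = ws (vA P A) fun T => gf P J l T ^ 2 := ⟨_, rfl⟩
  obtain ⟨G, hG'⟩ : ∃ G, G = ws (oA P A) (gf P J l) := ⟨_, rfl⟩
  have e1 := fun j : K => ws_gm (g := gf P J l) (vA P A) j
  rw [← hΓ] at s1 s3 g2 g4 g5 e1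
  rw [← hG'] at s2 g1
  have hΓk : 1 ≤ Γ ^ Fintype.card K := one_le_pow₀ g5
  obtain ⟨E, hE⟩ : ∃ E, E = 2 * (2 ^ Fintype.card K) ^ 2 *
    Real.exp (lp P B + 12 * L + 2 * (k + 1)) := ⟨_, rfl⟩
  have hE0 : 0 ≤ E := by rw [hE]; positivity
  have hXV : X * V ≤ (16 * X + 1 : ℕ) * (V * Γ ^ Fintype.card K) := by
    exact mul_le_mul (by exact_mod_cast (by omega : X ≤ 16 * X + 1))
      (le_mul_of_one_le_right hV0.le hΓk) hV0.le (by positivity)
  have hE1 : k * D * E ≤ (16 * X + 1 : ℕ) * (V * Γ ^ Fintype.card K) := by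
    refine le_trans ?_ ((mul_le_mul c6 (hVB ▸ Vp_ge P B) (by positivity) (by positivity)).trans hXV)
    rw [hE, show lp P B + 12 * L + 2 * (k + 1) = (2 * lp P B + 12 * L + 2 * (k + 1)) + -lp P B by
      ring, Real.exp_add _ (-lp P B)]
    exact le_of_eq (by ring)
  have hD1 : (1 : ℝ) ≤ D := by
    obtain ⟨j⟩ := Fintype.card_pos_iff.1 hk1
    exact_mod_cast (by have := hD j; omega : 1 ≤ D)
  have hE2 : E ≤ (16 * X + 1 : ℕ) * (V * Γ ^ Fintype.card K) :=
    le_trans (le_mul_of_one_le_left hE0 (one_le_mul_of_one_le_of_one_le hk1' hD1)) hE1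
  obtain ⟨Q, hQ⟩ : ∃ Q : ℝ, Q = (16 * X + 1 : ℕ) * (V * Γ ^ Fintype.card K) := ⟨_, rfl⟩
  have s1' : ∑ n ∈ range (16 * X + 1), sw P B (fun _ => A) h (yy P (gf P J l) L) n ≤ 2 * Q := by
    refine s1.trans ?_
    rw [← hQ, two_mul Q]
    refine add_le_add_right (le_trans ?_ (hQ ▸ hE2)) _
    rw [hE]
    gcongr <;> linarith
  have s3' : k * ∑ a ∈ (range D).filter fun a => ∀ j, a ≠ h j, ∑ n ∈ range (16 * X + 1),
      (if ∀ i, ((n + a : ℕ) : ZMod (P i)) ≠ 0 then
        sw P B (fun _ => A) h (yy P (gf P J l) L) n else 0) ≤ 2 * Q := by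
    have h1 := prod_inv_le P hinj Uᶜ (hw3.trans hwY) fun i hi => not_lt.1 fun h1 =>
      mem_compl.1 hi ((hU i).2 h1)
    rw [Finset.prod_inv_distrib] at h1
    have h2 : k * D * (8 * Real.exp 13 / (L * Vp P Uᶜ)) ≤ 1 := by
      have h3 := Vp_pos P Uᶜ
      rw [← div_div, div_eq_mul_inv _ (Vp P Uᶜ)]
      refine le_trans (b := k * D * (8 * Real.exp 13 / L * (2 * Real.exp 5 * Real.log Y0)))
        (by gcongr; exact h1) ?_
      rw [div_mul_eq_mul_div, ← mul_div_assoc, div_le_one hL0]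
      refine le_trans (le_of_eq ?_) c5
      rw [show (18 : ℝ) = 13 + 5 by norm_num, Real.exp_add]; ring
    have h3 : (((range D).filter fun a => ∀ j, a ≠ h j).card : ℝ) ≤ D := by
      exact_mod_cast (card_filter_le _ _).trans (card_range D).le
    refine (mul_le_mul_of_nonneg_left (Finset.sum_le_card_nsmul _ _ _ s3) (by linarith)).trans ?_
    rw [nsmul_eq_mul, ← hE, ← mul_assoc V, ← mul_assoc _ (V * _), ← hQ]
    have hQ0 : 0 ≤ Q := by rw [hQ]; positivity
    have h4 : 0 ≤ 8 * Real.exp 13 / (L * Vp P Uᶜ) := by have := Vp_pos P Uᶜ; positivity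
    calc _ ≤ k * (D * (Q * (8 * Real.exp 13 / (L * Vp P Uᶜ)) + E)) := by gcongr
      _ = Q * (k * D * (8 * Real.exp 13 / (L * Vp P Uᶜ))) + k * D * E := by ring
      _ ≤ Q * 1 + Q := add_le_add (mul_le_mul_of_nonneg_left h2 hQ0) (hQ ▸ hE1)
      _ = _ := by ring
  have hT0 : 0 ≤ Real.log (16 * X : ℕ) * Real.log 4 :=
    mul_nonneg (Real.log_natCast_nonneg _) log4_pos.le
  have pt : ∀ n, ∑ j, aw X (n + h j) ≤ Real.log (16 * X : ℕ) * Real.log 4 *
      (m + k * ∑ a ∈ (range D).filter fun a => ∀ j, a ≠ h j,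
        if ∀ i, ((n + a : ℕ) : ZMod (P i)) ≠ 0 then 1 else 0) := by
    intro n
    have h1 : 0 ≤ ∑ a ∈ (range D).filter fun a => ∀ j, a ≠ h j,
        if ∀ i, ((n + a : ℕ) : ZMod (P i)) ≠ 0 then (1 : ℝ) else 0 :=
      Finset.sum_nonneg fun _ _ => by split_ifs <;> norm_num
    by_cases h0 : ∀ j, aw X (n + h j) = 0
    · rw [Finset.sum_eq_zero fun j _ => h0 j]; positivity
    push Not at h0
    obtain ⟨j0, h0⟩ := h0
    obtain ⟨-, h2, h3⟩ := aw_support (by linarith) h0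
    have h2' : X ≤ n + h j0 := by exact_mod_cast h2
    have h3' : n + h j0 ≤ 16 * X := by exact_mod_cast h3
    have h4 : ∑ j, aw X (n + h j) ≤ Real.log (16 * X : ℕ) * Real.log 4 *
        (univ.filter fun j => (n + h j).Prime).card := by
      rw [card_filter, Nat.cast_sum, Finset.mul_sum]
      refine Finset.sum_le_sum fun j _ => ?_
      by_cases h5 : aw X (n + h j) = 0
      · rw [h5]; positivity
      · obtain ⟨h6, -, h7⟩ := aw_support (by linarith) h5
        rw [if_pos h6, Nat.cast_one, mul_one]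
        exact aw_le X (by exact_mod_cast h7)
    refine h4.trans (mul_le_mul_of_nonneg_left ?_ hT0)
    have h5 := hD j0
    by_cases h6 : m ≤ (univ.filter fun j => (n + h j).Prime).card
    · obtain ⟨a, ha, h7, h8⟩ : ∃ a < D, (n + a).Prime ∧ ∀ j, a ≠ h j := by
        by_contra h7
        push Not at h7
        exact hG ⟨n, by omega, by omega, h6, h7⟩
      have h9 : (1 : ℝ) ≤ ∑ a ∈ (range D).filter fun a => ∀ j, a ≠ h j,
          if ∀ i, ((n + a : ℕ) : ZMod (P i)) ≠ 0 then (1 : ℝ) else 0 :=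
        le_trans (le_of_eq (if_pos fun i => cast_ne_zero P h7 (by
          have := hPr i; omega)).symm) (Finset.single_le_sum (f := fun a =>
          if ∀ i, ((n + a : ℕ) : ZMod (P i)) ≠ 0 then (1 : ℝ) else 0)
          (fun _ _ => by split_ifs <;> norm_num) (mem_filter.2 ⟨mem_range.2 ha, h8⟩))
      have h10 : ((univ.filter fun j => (n + h j).Prime).card : ℝ) ≤ k := by
        rw [hk]; exact_mod_cast card_le_univ _
      exact (h10.trans (le_mul_of_one_le_right (zero_le_one.trans hk1') h9)).trans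
        (le_add_of_nonneg_left (Nat.cast_nonneg m))
    · have : ((univ.filter fun j => (n + h j).Prime).card : ℝ) ≤ m := by
        exact_mod_cast (not_le.1 h6).le
      exact this.trans (le_add_of_nonneg_right (mul_nonneg (zero_le_one.trans hk1') h1))
  have tot : ∑ j, ∑ n ∈ range (16 * X + 1), aw X (n + h j) *
      sw P B (fun _ => A) h (yy P (gf P J l) L) n
      ≤ Real.log (16 * X : ℕ) * Real.log 4 * (m * (2 * Q) + 2 * Q) := by
    rw [Finset.sum_comm]
    simp only [← Finset.sum_mul]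
    refine (Finset.sum_le_sum fun n _ => mul_le_mul_of_nonneg_right (pt n)
      (sw_nonneg P B _ h _ n)).trans ?_
    simp only [mul_assoc (Real.log (16 * X : ℕ) * Real.log 4), ← Finset.mul_sum, add_mul,
      Finset.sum_add_distrib, mul_assoc k]
    refine mul_le_mul_of_nonneg_left (add_le_add (mul_le_mul_of_nonneg_left s1' (by positivity))
      (le_trans (le_of_eq ?_) s3')) hT0
    simp only [Finset.sum_mul, ite_mul, one_mul, zero_mul]
    rw [Finset.sum_comm]
  have lo : k * (G ^ 2 * Γ ^ Fintype.card K * (X / 4)) ≤ Γ * ∑ j, ∑ n ∈ range (16 * X + 1),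
      aw X (n + h j) * sw P B (fun _ => A) h (yy P (gf P J l) L) n := by
    rw [Finset.mul_sum, hk, ← card_univ, ← nsmul_eq_mul, card_univ]
    refine Finset.card_nsmul_le_sum univ _ _ fun j _ =>
      le_trans ?_ (mul_le_mul_of_nonneg_left (s2 j) (by linarith))
    rw [← mul_assoc, mul_left_comm Γ, e1]
    exact mul_le_mul_of_nonneg_left (by linarith [c8 j]) (by positivity)
  have l4 : Real.log 4 ≤ 1.4 := by
    rw [show (4 : ℝ) = 2 ^ 2 by norm_num, Real.log_pow]
    push_cast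
    linarith [Real.log_two_lt_d9]
  have hX0 : (1 : ℝ) ≤ X := by linarith
  have fin : k * ((J * l * (V / 2)) ^ 2 * Γ ^ Fintype.card K * (X / 4)) ≤ 8 * l * (C * V) *
      (41 * L * 1.4 * ((m + 1) * (2 * (17 * X * (V * Γ ^ Fintype.card K))))) := by
    refine le_trans (by gcongr) (lo.trans ((mul_le_mul_of_nonneg_left tot (by linarith)).trans ?_))
    have hQ1 : Q ≤ 17 * X * (V * Γ ^ Fintype.card K) := by
      rw [hQ]; gcongr; push_cast; linarith
    have hQ0 : 0 ≤ Q := by rw [hQ]; positivity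
    have := log4_pos
    rw [← add_one_mul]
    gcongr
  rw [← hlL] at fin
  have hz : 0 < k * J * l ^ 2 * V ^ 2 * Γ ^ Fintype.card K * X := by positivity
  have f1 := mul_lt_mul_of_pos_left c3 hz
  have f2 := mul_pos hz (show 0 < C ^ 2 * (m + 1) by positivity)
  generalize Γ ^ Fintype.card K = Z at fin f1 f2
  clear * - fin f1 f2
  nlinarith

end Pool.Agent.Lib.MP_bee098_nt
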