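import Pool.Agent.Lib.MP_bee098_nt.Quad

/-! Sums of the sieve weight over intervals. -/

open Finset

namespace Pool.Agent.Lib.MP_bee098_nt

variable {ι K : Type} [Fintype ι] [DecidableEq ι] [Fintype K] [DecidableEq K]
variable (P : ι → ℕ) [hP : ∀ i, Fact (P i).Prime]

omit [Fintype ι] hP in
theorem lp_union (S T : Finset ι) : lp P (S ∪ T) ≤ lp P S + lp P T := by
  have := Finset.sum_union_inter (s₁ := S) (s₂ := T) (f := fun i => Real.log (P i))
  have h := lp_nonneg P (S ∩ T)
  unfold lp at *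
  linarith

omit [Fintype ι] [Fintype K] hP in
theorem lp_biUnion (s : Finset K) (T : K → Finset ι) :
    lp P (s.biUnion T) ≤ ∑ j ∈ s, lp P (T j) := by
  induction s using Finset.induction_on with
  | empty => simp [lp]
  | insert j s hj ih =>
    rw [biUnion_insert, Finset.sum_insert hj]
    linarith [lp_union P (T j) (s.biUnion T)]

omit [DecidableEq ι] hP in
theorem prod_one_add_sq (hinj : Function.Injective P) (A : Finset ι) {z : ℕ} (hz : 1 ≤ z)
    {c : ℝ} (hc : 0 ≤ c) {f : ι → ℝ} (h0 : ∀ i, 0 ≤ f i) (h1 : ∀ i ∉ A, f i = 0)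
    (h2 : ∀ i ∈ A, f i ≤ c * ((P i : ℝ) ^ 2)⁻¹) (hA : ∀ i ∈ A, z < P i) :
    ∏ i, (1 + f i) ≤ Real.exp (c / z) := by
  refine (Real.prod_one_add_le_exp_sum _ h0).trans (Real.exp_le_exp.2 ?_)
  rw [← Finset.sum_subset (subset_univ A) fun i _ hi => h1 i hi]
  refine (Finset.sum_le_sum h2).trans ?_
  rw [← Finset.mul_sum, div_eq_mul_inv]
  exact mul_le_mul_of_nonneg_left (sum_sq_inv P hinj A hz hA) hc

omit [DecidableEq ι] hP in
theorem ws_one (v : ι → ℝ) : ws v (fun _ => 1) = ∏ i, (1 + v i) := by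
  simp [ws, Finset.prod_one_add]

theorem rankin (hinj : Function.Injective P) {y : (K → Finset ι) → ℝ} {B L : ℝ}
    (h1 : ∀ T, |y T| ≤ B) (h2 : ∀ T, y T ≠ 0 → ∑ j, lp P (T j) ≤ L) :
    ∑ T ∈ Dj ι K, |y T| ≤ B * Real.exp (2 * L + Fintype.card K) := by
  have hB : 0 ≤ B := (abs_nonneg _).trans (h1 fun _ => ∅)
  have h3 := sum_Dj_le (K := K) (fun _ T => 1 * ∏ i ∈ T, ((P i : ℝ) ^ 2)⁻¹)
    fun _ T => by positivity
  have h4 := prod_one_add_sq P hinj univ le_rfl zero_le_one (f := fun i => ((P i : ℝ) ^ 2)⁻¹)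
    (fun i => by positivity) (by simp) (by simp) fun i _ => (hP i).out.one_lt
  rw [← ws_one, Nat.cast_one, div_one] at h4
  calc _ ≤ ∑ T ∈ Dj ι K, B * Real.exp (2 * L) * ∏ j, 1 * ∏ i ∈ T j, ((P i : ℝ) ^ 2)⁻¹ := by
        refine Finset.sum_le_sum fun T _ => ?_
        by_cases h : y T = 0
        · rw [h, abs_zero]; positivity
        · have e : ∏ j, 1 * ∏ i ∈ T j, ((P i : ℝ) ^ 2)⁻¹ = Real.exp (-(2 * ∑ j, lp P (T j))) := by
            rw [Real.exp_neg, two_mul, Real.exp_add, Real.exp_sum, ← sq, ← Finset.prod_pow,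
              ← Finset.prod_inv_distrib]
            refine Finset.prod_congr rfl fun j _ => ?_
            rw [one_mul, exp_lp, Finset.prod_inv_distrib, Finset.prod_pow]
          rw [e, mul_assoc, ← Real.exp_add]
          exact (h1 T).trans (le_mul_of_one_le_right hB (Real.one_le_exp (by linarith [h2 T h])))
    _ ≤ B * Real.exp (2 * L) * Real.exp 1 ^ Fintype.card K := by
        rw [← Finset.mul_sum]
        refine mul_le_mul_of_nonneg_left (h3.trans ?_) (by positivity)
        rw [Finset.prod_const, Finset.card_univ]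
        exact pow_le_pow_left₀ (Finset.sum_nonneg fun T _ => by positivity) h4 _
    _ = _ := by rw [Real.exp_add, ← Real.exp_nat_mul, mul_one, mul_assoc]

theorem interval_sum {𝕜 : Type} [RCLike 𝕜] (hinj : Function.Injective P)
    (c : ∀ i, ZMod (P i) → 𝕜) (hc : ∀ i s, ‖c i s‖ ≤ 1) (T0 : Finset ι)
    (hT0 : ∀ i ∉ T0, ∀ s, c i s = 1) (φ : ∀ i, ZMod (P i) → K → ℝ) (hφ : ∀ i s j, |φ i s j| ≤ 1)
    {y : (K → Finset ι) → ℝ} {B L : ℝ}
    (h1 : ∀ T, |y T| ≤ B) (h2 : ∀ T, y T ≠ 0 → ∑ j, lp P (T j) ≤ L) (a N : ℕ) :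
    ‖∑ n ∈ Ico a (a + N), (∏ i, c i n) * ((Zf y (fun i => φ i n) ^ 2 : ℝ) : 𝕜)
      - N * ∑ T ∈ Dj ι K, ∑ T' ∈ Dj ι K, ((y T * y T' : ℝ) : 𝕜) *
        ∏ i, ∑ s, c i s / P i * ((psi T i (φ i s) * psi T' i (φ i s) : ℝ) : 𝕜)‖
      ≤ 2 * B ^ 2 * Real.exp (lp P T0 + 6 * L + 2 * Fintype.card K) := by
  simp only [Z_sq]
  rw [Finset.sum_comm, Finset.mul_sum, ← Finset.sum_sub_distrib]
  have h3 := rankin P hinj h1 h2
  calc _ ≤ ∑ T ∈ Dj ι K, ∑ T' ∈ Dj ι K, |y T| * |y T'| * (2 * Real.exp (lp P T0 + 2 * L)) := by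
        refine (norm_sum_le _ _).trans (Finset.sum_le_sum fun T _ => ?_)
        rw [Finset.sum_comm, Finset.mul_sum, ← Finset.sum_sub_distrib]
        refine (norm_sum_le _ _).trans (Finset.sum_le_sum fun T' _ => ?_)
        rw [← Finset.mul_sum, mul_left_comm, ← mul_sub, norm_mul, RCLike.norm_ofReal, abs_mul]
        by_cases h : y T = 0
        · simp [h]
        by_cases h' : y T' = 0
        · simp [h']
        refine mul_le_mul_of_nonneg_left ?_ (by positivity)
        have := per_prod P hinj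
          (fun i s => c i s * ((psi T i (φ i s) * psi T' i (φ i s) : ℝ) : 𝕜)) (fun i s => by
            rw [norm_mul, RCLike.norm_ofReal, abs_mul]
            exact mul_le_one₀ (hc i s) (by positivity) (mul_le_one₀ (abs_psi_le T i (hφ i s))
              (abs_nonneg _) (abs_psi_le T' i (hφ i s))))
          (T0 ∪ (univ.biUnion T ∪ univ.biUnion T')) (fun i hi s => by
            simp only [mem_union, not_or] at hi
            rw [hT0 i hi.1, psi_eq_one hi.2.1, psi_eq_one hi.2.2]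
            simp) a N
        simp only [Finset.sum_div, mul_div_right_comm] at this
        refine this.trans (mul_le_mul_of_nonneg_left ?_ zero_le_two)
        rw [← exp_lp, Real.exp_le_exp]
        linarith [lp_union P T0 (univ.biUnion T ∪ univ.biUnion T'),
          lp_union P (univ.biUnion T) (univ.biUnion T'), lp_biUnion P univ T,
          lp_biUnion P univ T', h2 T h, h2 T' h']
    _ = (∑ T ∈ Dj ι K, |y T|) ^ 2 * (2 * Real.exp (lp P T0 + 2 * L)) := by
        rw [sq, Finset.sum_mul_sum, Finset.sum_mul]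
        simp only [Finset.sum_mul]
    _ ≤ (B * Real.exp (2 * L + Fintype.card K)) ^ 2 * (2 * Real.exp (lp P T0 + 2 * L)) := by
        gcongr
    _ = _ := by
        rw [show lp P T0 + 6 * L + 2 * Fintype.card K = (2 * L + Fintype.card K)
          + (2 * L + Fintype.card K) + (lp P T0 + 2 * L) by ring]
        simp only [Real.exp_add]
        ring

/-- Local sieve functions. -/
noncomputable def fv (A : K → Finset ι) (i : ι) (e : K → ℝ) (j : K) : ℝ :=
  if i ∈ A j then om (P i) * (1 - P i * e j) else 0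

omit [Fintype ι] [Fintype K] [DecidableEq K] in
theorem abs_fv_le (A : K → Finset ι) (i : ι) {e : K → ℝ} (j : K) (h : e j = 0 ∨ e j = 1) :
    |fv P A i e j| ≤ 1 := by
  have h1 := om_mul P i
  have h2 := om_pos P i
  have h3 := two_le P i
  unfold fv
  split_ifs
  · rw [abs_le]
    rcases h with h | h <;> rw [h] <;> constructor <;> nlinarith
  · simp

omit [Fintype ι] [DecidableEq K] hP in
theorem fv_sum (A : K → Finset ι) (i : ι) (e c : K → ℝ) (c0 : ℝ) :
    c0 + ∑ j, c j * fv P A i e j = (c0 + om (P i) * ∑ j ∈ univ.filter (i ∈ A ·), c j)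
      - P i * om (P i) * ∑ j ∈ univ.filter (i ∈ A ·), c j * e j := by
  simp only [fv, mul_ite, mul_zero]
  rw [← Finset.sum_filter, add_sub_assoc, Finset.mul_sum, Finset.mul_sum, ← Finset.sum_sub_distrib]
  congr 1
  exact Finset.sum_congr rfl fun j _ => by ring

omit [Fintype ι] [DecidableEq K] hP in
theorem vA_sum (A : K → Finset ι) (i : ι) (c : K → ℝ) : ∑ j, vA P (A j) i * c j
    = (P i : ℝ) ^ 2 * om (P i) ^ 3 * ∑ j ∈ univ.filter (i ∈ A ·), c j := by
  simp only [vA, ite_mul, zero_mul]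
  rw [← Finset.sum_filter, Finset.mul_sum]

/-- Local sieve functions on residues. -/
noncomputable def fU (A : K → Finset ι) (h : K → ℕ) (i : ι) (s : ZMod (P i)) : K → ℝ :=
  fv P A i fun j => if s + h j = 0 then 1 else 0

/-- Local indicator of coprimality to the primes in `B`. -/
def cB (B : Finset ι) (i : ι) (s : ZMod (P i)) : ℝ := if i ∈ B ∧ s = 0 then 0 else 1

/-- The sieve weight. -/
noncomputable def sw (B : Finset ι) (A : K → Finset ι) (h : K → ℕ) (y : (K → Finset ι) → ℝ)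
    (n : ℕ) : ℝ := (∏ i, cB P B i n) * Zf y (fun i => fU P A h i n) ^ 2

omit [Fintype ι] [Fintype K] [DecidableEq K] in
theorem abs_fU_le (A : K → Finset ι) (h : K → ℕ) (i : ι) (s : ZMod (P i)) (j : K) :
    |fU P A h i s j| ≤ 1 := abs_fv_le P A i j (by split_ifs <;> simp)

omit [Fintype ι] in
theorem cB_nonneg (B : Finset ι) (i : ι) (s : ZMod (P i)) : 0 ≤ cB P B i s := by
  unfold cB; split_ifs <;> norm_num

omit [Fintype ι] in
theorem cB_le (B : Finset ι) (i : ι) (s : ZMod (P i)) : cB P B i s ≤ 1 := by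
  unfold cB; split_ifs <;> norm_num

theorem sw_nonneg (B : Finset ι) (A : K → Finset ι) (h : K → ℕ) (y : (K → Finset ι) → ℝ)
    (n : ℕ) : 0 ≤ sw P B A h y n :=
  mul_nonneg (Finset.prod_nonneg fun i _ => cB_nonneg P B i _) (sq_nonneg _)

omit [Fintype ι] in
theorem local_upper (B : Finset ι) (A : K → Finset ι) (h : K → ℕ) (hAB : ∀ j, Disjoint (A j) B)
    (hd : ∀ i j j', i ∈ A j → i ∈ A j' → (h j : ZMod (P i)) = h j' → j = j')
    (i : ι) (c0 : ℝ) (c : K → ℝ) :
    ∑ s, cB P B i s / P i * (c0 + ∑ j, c j * fU P A h i s j) ^ 2 ≤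
      (if i ∈ B then 1 - (P i : ℝ)⁻¹ else 1) * (c0 ^ 2 + ∑ j, vA P (A j) i * c j ^ 2) := by
  have h2 := two_le P i
  have hp : (P i : ℝ) ≠ 0 := by linarith
  simp only [fU, fv_sum, vA_sum]
  split_ifs with hi
  · have : univ.filter (i ∈ A ·) = ∅ := filter_eq_empty_iff.2 fun j _ hj =>
      Finset.disjoint_left.1 (hAB j) hj hi
    simp only [this, Finset.sum_empty, mul_zero, add_zero, sub_zero, cB, hi, true_and]
    rw [← Finset.sum_mul, ← Finset.sum_div, Finset.sum_ite, Finset.sum_const_zero, zero_add,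
      Finset.sum_const, filter_ne', card_erase_of_mem (mem_univ _), Finset.card_univ, ZMod.card,
      nsmul_eq_mul, Nat.cast_sub (hP i).out.one_le]
    refine le_of_eq ?_
    push_cast
    field_simp
  · simp only [cB, hi, false_and, if_false]
    rw [gram (fun _ => 1 / (P i : ℝ)) _
      (fun (s : ZMod (P i)) j => if s + h j = 0 then 1 else 0) (1 / P i)
      (by simp [hp]) (fun j _ => by simp [add_eq_zero_iff_eq_neg])
      (fun s j hj j' hj' => by
        by_cases h1 : j = j'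
        · subst h1; rw [if_pos rfl]; split_ifs <;> simp
        · rw [if_neg h1]
          split_ifs with h3 h4
          · exact absurd (hd i j j' (mem_filter.1 hj).2 (mem_filter.1 hj').2
              (add_left_cancel (h3.trans h4.symm))) h1
          all_goals simp)]
    have h3 : 0 ≤ ∑ j ∈ univ.filter (i ∈ A ·), c j ^ 2 := Finset.sum_nonneg fun _ _ => sq_nonneg _
    have h4 := om_mul P i
    have h5 := om_pos P i
    generalize ∑ j ∈ univ.filter (i ∈ A ·), c j ^ 2 = Q at *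
    generalize ∑ j ∈ univ.filter (i ∈ A ·), c j = C
    have h6 : 1 ≤ P i * om (P i) := by nlinarith
    have h7 : 0 ≤ P i * om (P i) ^ 2 * Q * (P i * om (P i) - 1) := by
      have := sub_nonneg.2 h6
      positivity
    field_simp
    nlinarith [sq_nonneg (om (P i) * C)]

theorem sw_sum (hinj : Function.Injective P) (B : Finset ι) (A : K → Finset ι) (h : K → ℕ)
    (hAB : ∀ j, Disjoint (A j) B)
    (hd : ∀ i j j', i ∈ A j → i ∈ A j' → (h j : ZMod (P i)) = h j' → j = j')
    {y : (K → Finset ι) → ℝ} {C L : ℝ}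
    (h1 : ∀ T, |y T| ≤ C) (h2 : ∀ T, y T ≠ 0 → ∑ j, lp P (T j) ≤ L) (a N : ℕ) :
    ∑ n ∈ Ico a (a + N), sw P B A h y n ≤
      N * (Vp P B * ∑ T ∈ Dj ι K, (∏ j, ∏ i ∈ T j, vA P (A j) i) * y T ^ 2)
        + 2 * C ^ 2 * Real.exp (lp P B + 6 * L + 2 * Fintype.card K) := by
  have h3 := interval_sum (𝕜 := ℝ) P hinj (cB P B)
    (fun i s => by rw [Real.norm_of_nonneg (cB_nonneg P B i s)]; exact cB_le P B i s) B
    (fun i hi s => by simp [cB, hi]) (fU P A h) (abs_fU_le P A h) h1 h2 a N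
  rw [← pair_expand (fun i s => cB P B i s / P i)] at h3
  have h4 := Z_le (fun i s => cB P B i s / P i) (fU P A h) _ (fun i j => vA P (A j) i)
    (fun i s => div_nonneg (cB_nonneg P B i s) (by positivity)) (fun i => by
      split_ifs
      · have := inv_le_one_of_one_le₀ (show (1 : ℝ) ≤ P i by linarith [two_le P i])
        linarith
      · norm_num) (fun i j => vA_nonneg P _ i) (local_upper P B A h hAB hd) y
  rw [Finset.prod_ite_mem, univ_inter] at h4
  have h5 := (abs_le.1 h3).2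
  simp only [RCLike.ofReal_real_eq_id, id] at h5
  have h6 := mul_le_mul_of_nonneg_left h4 (Nat.cast_nonneg (α := ℝ) N)
  unfold sw Vp
  linarith

theorem sw_cancel (hinj : Function.Injective P) (B : Finset ι) (A : K → Finset ι)
    (c : ∀ i, ZMod (P i) → ℂ) (hc : ∀ i s, ‖c i s‖ ≤ 1) (T0 : Finset ι)
    (hT0 : ∀ i ∉ T0, ∀ s, c i s = 1) (i0 : ι) (h0 : c i0 0 = 0) (hs : ∑ s, c i0 s = 0)
    {y : (K → Finset ι) → ℝ} {C L : ℝ}
    (h1 : ∀ T, |y T| ≤ C) (h2 : ∀ T, y T ≠ 0 → ∑ j, lp P (T j) ≤ L) (a N : ℕ) :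
    ‖∑ n ∈ Ico a (a + N), (sw P B A (fun _ => 0) y n : ℂ) * ∏ i, c i n‖
      ≤ 2 * C ^ 2 * Real.exp (lp P B + lp P T0 + 6 * L + 2 * Fintype.card K) := by
  have h3 := interval_sum (𝕜 := ℂ) P hinj (fun i s => cB P B i s * c i s) (fun i s => by
      rw [norm_mul, Complex.norm_real, Real.norm_of_nonneg (cB_nonneg P B i s)]
      exact mul_le_one₀ (cB_le P B i s) (norm_nonneg _) (hc i s)) (B ∪ T0)
    (fun i hi s => by
      simp only [mem_union, not_or] at hi
      simp [cB, hi.1, hT0 i hi.2]) (fU P A fun _ => 0) (abs_fU_le P A _) h1 h2 a N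
  simp only [RCLike.ofReal_eq_complex_ofReal] at h3
  rw [Finset.sum_eq_zero (s := Dj ι K) fun T _ => Finset.sum_eq_zero fun T' _ => by
    rw [Finset.prod_eq_zero (mem_univ i0), mul_zero]
    rw [Finset.sum_congr rfl fun s _ => show _ = c i0 s * (1 / P i0 *
      ((psi T i0 (fU P A (fun _ => 0) i0 1) * psi T' i0 (fU P A (fun _ => 0) i0 1) : ℝ) : ℂ)) by
        by_cases h : s = 0
        · simp [h, h0]
        · have : fU P A (fun _ => 0) i0 s = fU P A (fun _ => 0) i0 1 := by simp [fU, h]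
          rw [this]
          simp only [cB, h, and_false, if_false]
          push_cast
          ring, ← Finset.sum_mul, hs, zero_mul], mul_zero, sub_zero] at h3
  refine le_trans (le_of_eq ?_) (h3.trans ?_)
  · congr 1
    refine Finset.sum_congr rfl fun n _ => ?_
    rw [sw, Finset.prod_mul_distrib]
    push_cast
    ring
  · gcongr
    exact lp_union P B T0

end Pool.Agent.Lib.MP_bee098_nt
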