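import Pool.Agent.Lib.MP_bee098_nt.Tensor

/-! The triangle weight, which separates variables in bilinear sums. -/

open Finset MeasureTheory

namespace Pool.Agent.Lib.MP_bee098_nt

/-- Indicator of `[0, log 4]`. -/
noncomputable def ind (u : ℝ) : ℝ := (Set.Icc 0 (Real.log 4)).indicator 1 u

/-- The triangle function. -/
noncomputable def tri (z : ℝ) : ℝ := ∫ u, ind u * ind (z - u)

/-- The weight of the integer `n` at scale `X`. -/
noncomputable def wt (X : ℝ) (n : ℕ) : ℝ := tri (Real.log n - Real.log X)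

theorem log4_pos : 0 < Real.log 4 := Real.log_pos (by norm_num)

theorem ind_nonneg (u : ℝ) : 0 ≤ ind u := Set.indicator_nonneg (fun _ _ => zero_le_one) u

theorem ind_eq (u : ℝ) : ind u = if 0 ≤ u ∧ u ≤ Real.log 4 then 1 else 0 := by
  unfold ind
  split_ifs with h
  · rw [Set.indicator_of_mem (by exact h)]; rfl
  · rw [Set.indicator_of_notMem (by exact h)]

theorem ind_le_one (u : ℝ) : ind u ≤ 1 := by rw [ind_eq]; split_ifs <;> norm_num

theorem ind_measurable : Measurable ind := measurable_one.indicator measurableSet_Icc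

theorem ind_integrable : Integrable ind :=
  (integrable_indicator_iff measurableSet_Icc).2 (integrableOn_const (by simp))

theorem integral_ind : ∫ u, ind u = Real.log 4 := by
  unfold ind
  rw [integral_indicator_one measurableSet_Icc]
  simp [log4_pos.le]

theorem ind_mul_integrable (c d : ℝ) : Integrable fun v => ind (c - v) * ind (d + v) := by
  refine (ind_integrable.comp_add_left d).mono' ?_ (Filter.Eventually.of_forall fun v => ?_)
  · exact ((ind_measurable.comp (by fun_prop)).mul
      (ind_measurable.comp (by fun_prop))).aestronglyMeasurable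
  · rw [Real.norm_of_nonneg (mul_nonneg (ind_nonneg _) (ind_nonneg _))]
    exact mul_le_of_le_one_left (ind_nonneg _) (ind_le_one _)

theorem tri_integrable (z : ℝ) : Integrable fun u => ind u * ind (z - u) := by
  simpa [mul_comm] using ind_mul_integrable z 0

theorem tri_nonneg (z : ℝ) : 0 ≤ tri z :=
  integral_nonneg fun _ => mul_nonneg (ind_nonneg _) (ind_nonneg _)

theorem tri_le (z : ℝ) : tri z ≤ Real.log 4 := by
  rw [← integral_ind]
  exact integral_mono (tri_integrable z) ind_integrable fun u =>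
    mul_le_of_le_one_right (ind_nonneg _) (ind_le_one _)

theorem tri_eq_zero {z : ℝ} (h : z < 0 ∨ 2 * Real.log 4 < z) : tri z = 0 := by
  have : ∀ u, ind u * ind (z - u) = 0 := by
    intro u
    rw [ind_eq, ind_eq]
    split_ifs with h1 h2
    · rcases h with h | h <;> linarith [h1.1, h1.2, h2.1, h2.2]
    all_goals simp
  simp [tri, this]

theorem tri_ge {z : ℝ} (h1 : Real.log 4 / 2 ≤ z) (h2 : z ≤ 3 * Real.log 4 / 2) :
    Real.log 4 / 2 ≤ tri z := by
  have hl := log4_pos
  obtain ⟨a, ha⟩ : ∃ a, ∀ u ∈ Set.Icc a (a + Real.log 4 / 2), ind u * ind (z - u) = 1 := by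
    rcases le_total z (Real.log 4) with h | h
    · refine ⟨0, fun u hu => ?_⟩
      rw [ind_eq, ind_eq, if_pos, if_pos, mul_one] <;> constructor <;> linarith [hu.1, hu.2]
    · refine ⟨Real.log 4 / 2, fun u hu => ?_⟩
      rw [ind_eq, ind_eq, if_pos, if_pos, mul_one] <;> constructor <;> linarith [hu.1, hu.2]
  calc Real.log 4 / 2 = ∫ u, (Set.Icc a (a + Real.log 4 / 2)).indicator 1 u := by
        rw [integral_indicator_one measurableSet_Icc]
        simp; positivity
    _ ≤ tri z := by
        refine integral_mono ((integrable_indicator_iff measurableSet_Icc).2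
          (integrableOn_const (by simp))) (tri_integrable z) fun u => ?_
        by_cases hu : u ∈ Set.Icc a (a + Real.log 4 / 2)
        · rw [Set.indicator_of_mem hu]; exact (ha u hu).ge
        · rw [Set.indicator_of_notMem hu]; exact mul_nonneg (ind_nonneg _) (ind_nonneg _)

theorem tri_add (c d : ℝ) : tri (c + d) = ∫ v, ind (c - v) * ind (d + v) := by
  unfold tri
  rw [← integral_sub_left_eq_self _ volume c]
  congr 1
  ext v
  congr 2
  ring

theorem wt_nonneg (X : ℝ) (n : ℕ) : 0 ≤ wt X n := tri_nonneg _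

theorem wt_le (X : ℝ) (n : ℕ) : wt X n ≤ Real.log 4 := tri_le _

theorem wt_support {X : ℝ} (hX : 1 < X) {n : ℕ} (h : wt X n ≠ 0) : X ≤ n ∧ (n : ℝ) ≤ 16 * X := by
  have hX0 : 0 < X := by linarith
  by_contra hc
  apply h
  apply tri_eq_zero
  rcases Nat.eq_zero_or_pos n with rfl | hn
  · left; simpa using Real.log_pos hX
  have hn' : (0 : ℝ) < n := by exact_mod_cast hn
  rcases not_and_or.1 hc with h1 | h1
  · left
    have := Real.log_lt_log hn' (not_le.1 h1)
    linarith
  · right
    have := Real.log_lt_log (by positivity) (not_le.1 h1)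
    rw [Real.log_mul (by norm_num) hX0.ne', show (16 : ℝ) = 4 ^ 2 by norm_num,
      Real.log_pow] at this
    push_cast at this
    linarith

theorem wt_ge {X : ℝ} (hX : 0 < X) {n : ℕ} (h1 : 2 * X ≤ n) (h2 : (n : ℝ) ≤ 8 * X) :
    Real.log 4 / 2 ≤ wt X n := by
  have l4 : Real.log 4 = 2 * Real.log 2 := by
    rw [show (4 : ℝ) = 2 ^ 2 by norm_num, Real.log_pow]; norm_num
  have l8 : Real.log 8 = 3 * Real.log 2 := by
    rw [show (8 : ℝ) = 2 ^ 3 by norm_num, Real.log_pow]; norm_num
  have a1 := Real.log_le_log (by positivity) h1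
  have a2 := Real.log_le_log (by linarith) h2
  rw [Real.log_mul (by norm_num) hX.ne'] at a1 a2
  apply tri_ge <;> linarith

theorem ind_log {y : ℝ} (hy : 0 < y) {m : ℕ} (hm : 0 < m) :
    ind (Real.log m - Real.log y) = if m ∈ Ico ⌈y⌉₊ (⌊4 * y⌋₊ + 1) then 1 else 0 := by
  have hm' : (0 : ℝ) < m := by exact_mod_cast hm
  rw [ind_eq]
  congr 1
  rw [mem_Ico, Nat.lt_succ_iff, Nat.ceil_le, Nat.le_floor_iff (by positivity), sub_nonneg,
    Real.log_le_log_iff hy hm', sub_le_iff_le_add, ← Real.log_mul (by norm_num) hy.ne',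
    Real.log_le_log_iff hm' (by positivity)]

/-- The piece of a sum at scale `y`. -/
noncomputable def piece (Y : ℕ) (a : ℕ → ℂ) (y : ℝ) : ℂ :=
  ∑ m ∈ Ioc 0 Y with m ∈ Ico ⌈y⌉₊ (⌊4 * y⌋₊ + 1), a m

theorem piece_eq (Y : ℕ) (a : ℕ → ℂ) {y : ℝ} (hy : 0 < y) :
    piece Y a y = ∑ m ∈ Ioc 0 Y, a m * (ind (Real.log m - Real.log y) : ℂ) := by
  unfold piece
  rw [Finset.sum_filter]
  refine Finset.sum_congr rfl fun m hm => ?_
  rw [ind_log hy (mem_Ioc.1 hm).1]
  split_ifs <;> simp

theorem bilinear_bound {Φ : Type} (F : Finset Φ) {X : ℝ} (hX : 0 < X) {Y : ℕ}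
    (a b : Φ → ℕ → ℂ) {C : ℝ}
    (h : ∀ y > 0, ∑ x ∈ F, ‖piece Y (a x) y‖ * ‖piece Y (b x) (X / y)‖ ≤ C) :
    ∑ x ∈ F, ‖∑ m ∈ Ioc 0 Y, ∑ n ∈ Ioc 0 Y, a x m * b x n * wt X (m * n)‖
      ≤ C * (Real.log Y + Real.log 4) := by
  have hC : 0 ≤ C := le_trans (Finset.sum_nonneg fun _ _ => by positivity) (h 1 one_pos)
  let f : Φ → ℝ → ℂ := fun x v => ∑ m ∈ Ioc 0 Y, ∑ n ∈ Ioc 0 Y, a x m * b x n *
    ((ind (Real.log m - v) * ind (Real.log n - Real.log X + v) : ℝ) : ℂ)
  have i1 : ∀ x (m n : ℕ), Integrable fun v => a x m * b x n *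
      ((ind (Real.log m - v) * ind (Real.log n - Real.log X + v) : ℝ) : ℂ) :=
    fun x m n => (ind_mul_integrable _ _).ofReal.const_mul _
  have i2 : ∀ x, Integrable (f x) := fun x =>
    integrable_finsetSum _ fun m _ => integrable_finsetSum _ fun n _ => i1 x m n
  have e1 : ∀ x, ∑ m ∈ Ioc 0 Y, ∑ n ∈ Ioc 0 Y, a x m * b x n * wt X (m * n) = ∫ v, f x v := by
    intro x
    rw [integral_finsetSum _ fun m _ => integrable_finsetSum _ fun n _ => i1 x m n]
    refine Finset.sum_congr rfl fun m hm => ?_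
    rw [integral_finsetSum _ fun n _ => i1 x m n]
    refine Finset.sum_congr rfl fun n hn => ?_
    have hm' : (m : ℝ) ≠ 0 := by exact_mod_cast (mem_Ioc.1 hm).1.ne'
    have hn' : (n : ℝ) ≠ 0 := by exact_mod_cast (mem_Ioc.1 hn).1.ne'
    rw [integral_const_mul, integral_complex_ofReal, ← tri_add, wt, Nat.cast_mul,
      Real.log_mul hm' hn', add_sub_assoc]
  have e2 : ∀ x v, f x v = piece Y (a x) (Real.exp v) * piece Y (b x) (X / Real.exp v) := by
    intro x v
    rw [piece_eq _ _ (Real.exp_pos v), piece_eq _ _ (by positivity), Finset.sum_mul_sum,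
      Real.log_div hX.ne' (Real.exp_pos v).ne', Real.log_exp]
    refine Finset.sum_congr rfl fun m _ => Finset.sum_congr rfl fun n _ => ?_
    rw [show Real.log n - (Real.log X - v) = Real.log n - Real.log X + v by ring]
    push_cast; ring
  have hlY : 0 ≤ Real.log Y := Real.log_natCast_nonneg Y
  calc _ ≤ ∑ x ∈ F, ∫ v, ‖f x v‖ := Finset.sum_le_sum fun x _ => by
        rw [e1]; exact norm_integral_le_integral_norm _
    _ = ∫ v, ∑ x ∈ F, ‖f x v‖ := (integral_finsetSum _ fun x _ => (i2 x).norm).symm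
    _ ≤ ∫ v, (Set.Icc (-Real.log 4) (Real.log Y)).indicator (fun _ => C) v := by
        refine integral_mono (integrable_finsetSum _ fun x _ => (i2 x).norm)
          ((integrable_indicator_iff measurableSet_Icc).2 (integrableOn_const (by simp)))
          fun v => ?_
        by_cases hv : v ∈ Set.Icc (-Real.log 4) (Real.log Y)
        · rw [Set.indicator_of_mem hv]
          simp only [e2, norm_mul]
          exact h _ (Real.exp_pos v)
        · rw [Set.indicator_of_notMem hv]
          refine (Finset.sum_eq_zero fun x _ => ?_).le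
          rw [norm_eq_zero]
          refine Finset.sum_eq_zero fun m hm => Finset.sum_eq_zero fun n _ => ?_
          have h1 : 0 ≤ Real.log m := Real.log_natCast_nonneg m
          have h2 : Real.log m ≤ Real.log Y := Real.log_le_log
            (by exact_mod_cast (mem_Ioc.1 hm).1) (by exact_mod_cast (mem_Ioc.1 hm).2)
          rw [ind_eq, if_neg]
          · simp
          · intro h3
            exact hv ⟨by linarith [h3.2], by linarith [h3.1]⟩
    _ = _ := by
        rw [integral_indicator_const _ measurableSet_Icc]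
        simp only [Real.volume_real_Icc, smul_eq_mul]
        rw [max_eq_left (by linarith [log4_pos])]
        ring

end Pool.Agent.Lib.MP_bee098_nt
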